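import Pool.Agent.GSG.Defs

/-!
# Definitions: separation of graph homology spheres with nodes of any valence
-/

set_option autoImplicit false

open Finset

namespace Pool.Agent.GSH

open Pool.Agent.OHG Pool.Agent.GPC Pool.Agent.GSP Pool.Agent.GSG

section data

variable {V V' : Type}

/-- The exponent of `l` at `v` is larger than at all other nodes. -/
structure PrH (D : Dat V) (l : ℕ) (v : V) : Prop where
  prime : l.Prime
  big : 4 ^ ((D.S v).card + 3) ≤ l
  pos : 1 ≤ xp l (D.S v)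
  lt : ∀ x, x ≠ v → xp l (D.S x) < xp l (D.S v)

/-- The admissible data. -/
structure OkH (D : Dat V) : Prop where
  acyclic : D.G.IsAcyclic
  leaf : ∀ v, LeafG (D.S v) (D.k v)
  three_le : ∀ v, 3 ≤ (D.S v).card + dg D.G v
  w_pos : ∀ e ∈ D.G.edgeSet, 0 < D.w e
  priv : ∀ v, (D.S v).Nonempty → ∃ l, PrH D l v

/-- The data `D` and `D'` have the same conjugate formal integrals and proportional masses. -/
structure CmpH [Fintype V] [DecidableEq V] [Fintype V'] [DecidableEq V'] (N : ℕ) (D : Dat V)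
    (D' : Dat V') : Prop where
  pos : 0 < N
  ok : OkH D
  ok' : OkH D'
  nice : Nice D N
  nice' : Nice D' N
  mass : ∃ a b : ℝ, a ≠ 0 ∧ b ≠ 0 ∧ ∀ s : ℤ, IsCoprime s (N : ℤ) →
    Polynomial.C a * (∏ v, YY (D.S v) (D.k v) 0 s) ^ 2 =
      Polynomial.C b * (∏ v, YY (D'.S v) (D'.k v) 0 s) ^ 2
  zs : ∀ s : ℤ, IsCoprime s (N : ℤ) → Zs D s = Zs D' s

end data

/-- The families of diagrams which we separate: every node with `a ≥ 1` leaves has a leaf divisible by
a prime power `l ^ m` with `l ≥ 4 ^ (a + 3)` which divides no leaf of another node of the family. -/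
structure GenH {ι : Type} (P : ι → Prime) : Prop where
  priv : ∀ i v, ((P i).D.leaf v).Nonempty → ∃ l m : ℕ, l.Prime ∧
    4 ^ (((P i).D.leaf v).card + 3) ≤ l ∧ 1 ≤ m ∧ (∃ p ∈ (P i).D.leaf v, l ^ m ∣ p) ∧
    ∀ j x, (⟨j, x⟩ : Σ j, Fin ((P j).n + 1)) ≠ ⟨i, v⟩ → ∀ p ∈ (P j).D.leaf x, ¬ l ^ m ∣ p

end Pool.Agent.GSH
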