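import Pool.Agent.GSG.M4
import Pool.Agent.GSH.Defs
import Pool.Agent.GSN.N

set_option autoImplicit false

open Finset

namespace Pool.Agent.GSH

open Pool.Agent.GSP Pool.Agent.GSG

private theorem sq_tr (P : Polynomial ℝ) : (((P ^ 2).trailingCoeff : ℝ) : ℂ) =
    ((P.trailingCoeff : ℝ) : ℂ) ^ 2 := by
  rw [sq, Polynomial.trailingCoeff_mul, sq]
  push_cast
  rfl

/-- the twists for three primes do not separate at a node if one of the primes is large -/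
theorem ns_threeH {N : ℕ} (hN : 0 < N) (h4 : 4 ∣ N) {S : Finset ℕ} {k : ℕ} (hS : LeafG S k)
    (hNS : ∀ p ∈ S, 2 * p ∣ N) {l l₁ l₂ : ℕ} (h01 : l ≠ l₁) (h02 : l ≠ l₂)
    (h12 : l₁ ≠ l₂) (hl : l.Prime) (hb : 4 ^ (S.card + 3) ≤ l) (hi : 1 ≤ xp l S)
    (hl₁ : l₁.Prime) (hb₁ : 11 ≤ l₁) (hi₁ : 1 ≤ xp l₁ S) (hl₂ : l₂.Prime) (hb₂ : 11 ≤ l₂)
    (hi₂ : 1 ≤ xp l₂ S)
    (h : ∀ t t₁ t₂ : ℤ, IsCoprime (tz N l (xp l S) t) (N : ℤ) →
      IsCoprime (tz N l₁ (xp l₁ S) t₁) (N : ℤ) → IsCoprime (tz N l₂ (xp l₂ S) t₂) (N : ℤ) →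
      (YY S k 0 (tz N l (xp l S) t * (tz N l₁ (xp l₁ S) t₁ * tz N l₂ (xp l₂ S) t₂)) *
          YY S k 0 (tz N l (xp l S) t) * YY S k 0 (tz N l₁ (xp l₁ S) t₁) *
          YY S k 0 (tz N l₂ (xp l₂ S) t₂)) ^ 2 =
        (YY S k 0 (tz N l (xp l S) t * tz N l₁ (xp l₁ S) t₁) *
          YY S k 0 (tz N l (xp l S) t * tz N l₂ (xp l₂ S) t₂) *
          YY S k 0 (tz N l₁ (xp l₁ S) t₁ * tz N l₂ (xp l₂ S) t₂) * YY S k 0 1) ^ 2) : False := by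
  classical
  have h64 := GSN.five_le hb
  have hbb := GSN.big_bound hb
  obtain ⟨q, c, hL⟩ := GSN.exists_lf hN hS hNS hl (by omega) hi
  obtain ⟨q₁, c₁, hL₁⟩ := GSN.exists_lf hN hS hNS hl₁ (by omega) hi₁
  obtain ⟨q₂, c₂, hL₂⟩ := GSN.exists_lf hN hS hNS hl₂ (by omega) hi₂
  obtain ⟨t₀, ht₀⟩ := tz_unit hN hl hi
  obtain ⟨t₀₁, ht₀₁⟩ := tz_unit hN hl₁ hi₁
  obtain ⟨t₀₂, ht₀₂⟩ := tz_unit hN hl₂ hi₂
  obtain ⟨G₁, hG₁c, hG₁, hG₁i⟩ := GSN.goods hl₁ hL₁.cop t₀₁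
  obtain ⟨G₂, hG₂c, hG₂, -⟩ := GSN.goods hl₂ hL₂.cop t₀₂
  have hGn : G₂.Nonempty := by
    rw [← Finset.card_pos]
    omega
  obtain ⟨t₂, ht₂⟩ := hGn
  obtain ⟨ht21, ht22⟩ := hG₂ t₂ ht₂
  have hu₂ := ht₀₂ t₂ ht21
  have hu₂' := uG_of h4 hNS hu₂
  set a₂ : ℤ := tz N l₂ (xp l₂ S) t₂ with ha₂
  obtain ⟨Z, hZc, hZ⟩ := GSN.points hl hL.cop t₀
  set i := GSN.ii S k 0 with hidef
  set r := GSN.rr S 0 with hrdef
  have hr1 : 1 ≤ r := GSN.rr_pos S 0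
  have hk := GSN.kap_ne hS 0 r
  have hU1 : UG S 1 := ⟨odd_one, fun p _ => isCoprime_one_left⟩
  have hτ : ∀ u : ℤ, UG S u → (((YY S k 0 u).trailingCoeff : ℝ) : ℂ) ≠ 0 := by
    intro u hu
    have := (GSN.trail hS hl hb hi (Nat.zero_le 1) hu hL.mem).1
    exact_mod_cast this
  have hRF : ∀ u : ℤ, UG S u → ∃ b : ℂ → ℂ, Pool.H42.PF.IsRF (Pool.H42.PF.gg S k i r q u) r
      (Pool.H42.PF.poles S k i q u) b := by
    intro u hu
    obtain ⟨b, hb, -⟩ := Pool.H42.PF.gg_isRF hS.two_le hS.coprime (k := k)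
      (i := i) (q := q) hr1 (s := u) hu.2
    exact ⟨b, hb⟩
  have hcardP : ∀ u : ℤ, UG S u → (Pool.H42.PF.poles S k i q u).card =
      (Pool.H42.PF.TT S k i q).card := fun u hu =>
    Pool.H42.PF.card_poles hS.two_le hS.coprime hu.2
  have hdeg := (GSN.deg_bound hL.mem k i).1
  rw [← hrdef] at hdeg
  obtain ⟨b₀, hb₀⟩ := hRF 1 hU1
  obtain ⟨b₂, hb₂'⟩ := hRF a₂ hu₂'
  -- the poles for `a₁ a₂` are zeros of the function for `1`
  have key : ∀ t₁ ∈ G₁, ∀ T ∈ Pool.H42.PF.TT S k i q,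
      (Pool.H42.PF.ww S k (tz N l₁ (xp l₁ S) t₁ * a₂) T)⁻¹ ≠ 0 ∧
      (Pool.H42.PF.ww S k (tz N l₁ (xp l₁ S) t₁ * a₂) T)⁻¹ ∉ Pool.H42.PF.poles S k i q 1 ∧
      Pool.H42.PF.gg S k i r q 1 (Pool.H42.PF.ww S k (tz N l₁ (xp l₁ S) t₁ * a₂) T)⁻¹ = 0 := by
    intro t₁ ht₁ T hT
    obtain ⟨ht11, ht12⟩ := hG₁ t₁ ht₁
    have hu₁ := ht₀₁ t₁ ht11
    have hu₁' := uG_of h4 hNS hu₁
    set a₁ : ℤ := tz N l₁ (xp l₁ S) t₁ with ha₁
    have hu₁₂ : UG S (a₁ * a₂) := ⟨hu₁'.1.mul hu₂'.1, fun p hp =>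
      (hu₁'.2 p hp).mul_left (hu₂'.2 p hp)⟩
    obtain ⟨b₁, hb₁'⟩ := hRF a₁ hu₁'
    obtain ⟨b₃, hb₃'⟩ := hRF (a₁ * a₂) hu₁₂
    refine ⟨inv_ne_zero (Pool.H42.PF.ww_ne _ _ _ _), ?_⟩
    refine hb₃'.compare_four hb₀ hb₁' hb₂' hr1
      (c₁ := (((YY S k 0 a₁).trailingCoeff : ℝ) : ℂ) ^ 2 *
        (((YY S k 0 a₂).trailingCoeff : ℝ) : ℂ) ^ 2)
      (c₂ := (((YY S k 0 (a₁ * a₂)).trailingCoeff : ℝ) : ℂ) ^ 2 *
        (((YY S k 0 1).trailingCoeff : ℝ) : ℂ) ^ 2)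
      (mul_ne_zero (pow_ne_zero 2 (hτ a₁ hu₁')) (pow_ne_zero 2 (hτ a₂ hu₂'))) (Z := Z) ?_ ?_ ?_
      ?_ ?_
    · rw [hcardP _ hU1, hcardP _ hu₁', hcardP _ hu₂', hcardP _ hu₁₂]
      omega
    · intro z hz
      obtain ⟨t, ht, rfl⟩ := hZ z hz
      have hv := ht₀ t ht
      have hv' := uG_of h4 hNS hv
      have hz1 : GSN.zz l c (t * a₁) = GSN.zz l c t :=
        GSN.zz_tz hN hl hl₁ h01.symm (GSN.dvd_N hNS hL) (xp l₁ S) c t t₁
      have hz2 : GSN.zz l c (t * a₂) = GSN.zz l c t :=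
        GSN.zz_tz hN hl hl₂ h02.symm (GSN.dvd_N hNS hL) (xp l₂ S) c t t₂
      have hz3 : GSN.zz l c (t * (a₁ * a₂)) = GSN.zz l c t := by
        have h1 : GSN.zz l c (t * a₁ * a₂) = GSN.zz l c (t * a₁) :=
          GSN.zz_tz hN hl hl₂ h02.symm (GSN.dvd_N hNS hL) (xp l₂ S) c (t * a₁) t₂
        rw [← mul_assoc, h1, hz1]
      have hnp : ∀ u : ℤ, UG S u → GSN.zz l c (t * u) ∉ Pool.H42.PF.poles S k i q u := by
        intro u hu
        exact GSN.zz_notMem (k := k) (s := u) (t := t) hS hL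
          (fun p hp => (hv'.2 p hp).mul_left (hu.2 p hp)) i
      have n1 := hnp 1 hU1
      have n2 := hnp a₁ hu₁'
      have n3 := hnp a₂ hu₂'
      have n4 := hnp (a₁ * a₂) hu₁₂
      rw [mul_one] at n1
      rw [hz1] at n2
      rw [hz2] at n3
      rw [hz3] at n4
      have hte : ∀ u : ℤ, UG S u → (((YY S k 0 (tz N l (xp l S) t * u)).trailingCoeff : ℝ) : ℂ) =
          GSN.kap S k 0 r * Pool.H42.PF.gg S k i r q u (GSN.zz l c (t * u)) := by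
        intro u hu
        exact GSN.tau_eq (k := k) (s := u) (t := t) hS hl hb hi hL
          ⟨hv'.1.mul hu.1, fun p hp => (hv'.2 p hp).mul_left (hu.2 p hp)⟩
      have e1 := hte 1 hU1
      have e2 := hte a₁ hu₁'
      have e3 := hte a₂ hu₂'
      have e4 := hte (a₁ * a₂) hu₁₂
      rw [mul_one, mul_one] at e1
      rw [hz1] at e2
      rw [hz2] at e3
      rw [hz3] at e4
      refine ⟨GSN.zz_ne _ _ _, n4, n1, n2, n3, ?_⟩
      have h7 := congrArg (fun P : Polynomial ℝ => ((P.trailingCoeff : ℝ) : ℂ))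
        (h t t₁ t₂ hv hu₁ hu₂)
      simp only [sq_tr, Polynomial.trailingCoeff_mul, Complex.ofReal_mul] at h7
      rw [← ha₁, ← ha₂, e4, e3, e2, e1] at h7
      apply mul_left_cancel₀ (pow_ne_zero 4 hk)
      linear_combination h7
    · exact Finset.mem_image_of_mem _ hT
    · intro hmem
      obtain ⟨T', hT', he⟩ := Finset.mem_image.1 hmem
      have he' := inv_injective he
      refine ht22 (GSN.order (k := k) (s := a₁) (t := t₂) hS hL₂ hu₁'.2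
        (Pool.H42.PF.mem_TT.1 hT').1 (Pool.H42.PF.mem_TT.1 hT).1 ?_)
      rw [← ha₂, mul_comm a₂]
      exact he'.symm
    · intro hmem
      obtain ⟨T', hT', he⟩ := Finset.mem_image.1 hmem
      have he' := inv_injective he
      refine ht12 (GSN.order (k := k) (s := a₂) (t := t₁) hS hL₁ hu₂'.2
        (Pool.H42.PF.mem_TT.1 hT').1 (Pool.H42.PF.mem_TT.1 hT).1 ?_)
      exact he'.symm
  -- one half of the sets `T`
  have hhalf : ∃ K ⊆ Pool.H42.PF.TT S k i q, (Pool.H42.PF.TT S k i q).card ≤ 2 * K.card ∧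
      ∀ T ∈ K, ∀ T' ∈ K, (q₁ ∈ T ↔ q₁ ∈ T') := by
    have h1 := Finset.card_filter_add_card_filter_not (s := Pool.H42.PF.TT S k i q)
      (p := fun T => q₁ ∈ T)
    rcases le_total ((Pool.H42.PF.TT S k i q).filter fun T => ¬ q₁ ∈ T).card
      ((Pool.H42.PF.TT S k i q).filter fun T => q₁ ∈ T).card with h2 | h2
    · refine ⟨(Pool.H42.PF.TT S k i q).filter fun T => q₁ ∈ T, Finset.filter_subset _ _, by omega,
        fun T hT T' hT' => ?_⟩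
      exact ⟨fun _ => (Finset.mem_filter.1 hT').2, fun _ => (Finset.mem_filter.1 hT).2⟩
    · refine ⟨(Pool.H42.PF.TT S k i q).filter fun T => ¬ q₁ ∈ T, Finset.filter_subset _ _,
        by omega, fun T hT T' hT' => ?_⟩
      exact ⟨fun h => absurd h (Finset.mem_filter.1 hT).2,
        fun h => absurd h (Finset.mem_filter.1 hT').2⟩
  obtain ⟨K, hKs, hKc, hK⟩ := hhalf
  have hcz := hb₀.card_zeros (Z := (G₁ ×ˢ K).image fun x =>
    (Pool.H42.PF.ww S k (tz N l₁ (xp l₁ S) x.1 * a₂) x.2)⁻¹) (by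
      unfold Pool.H42.PF.poles
      exact (GSN.TT_nonempty hS hL.mem 0).image _) fun z hz => by
    obtain ⟨x, hx, rfl⟩ := Finset.mem_image.1 hz
    rw [Finset.mem_product] at hx
    exact key x.1 hx.1 x.2 (hKs hx.2)
  rw [Finset.card_image_of_injOn, Finset.card_product, hcardP _ hU1] at hcz
  · have hTT : 0 < (Pool.H42.PF.TT S k i q).card :=
      Finset.card_pos.2 (GSN.TT_nonempty hS hL.mem 0)
    have hr3 : r ≤ 3 := by
      have h1 : 1 ≤ S.card := Finset.card_pos.2 ⟨q, hL.mem⟩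
      rw [hrdef]
      unfold GSN.rr
      omega
    have hKpos : 0 < K.card := by omega
    have h1 : 7 * K.card ≤ G₁.card * K.card := Nat.mul_le_mul_right _ (by omega)
    have h2 : r * (Pool.H42.PF.TT S k i q).card ≤ 3 * (2 * K.card) := Nat.mul_le_mul hr3 hKc
    omega
  · intro x hx y hy hxy
    rw [Finset.mem_coe, Finset.mem_product] at hx hy
    have h1 := inv_injective hxy
    obtain ⟨h2, h3⟩ := GSN.distinct (k := k) (s := a₂) (t := x.1) (t' := y.1) hS hL₁ hu₂'.2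
      (Pool.H42.PF.mem_TT.1 (hKs hx.2)).1 (Pool.H42.PF.mem_TT.1 (hKs hy.2)).1
      (hK x.2 hx.2 y.2 hy.2) h1
    exact Prod.ext (hG₁i x.1 hx.1 y.1 hy.1 h3) h2

end Pool.Agent.GSH
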