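import Pool.Agent.OHG.Defs

/-!
# The diagrams of one type with bounded weights
-/

set_option autoImplicit false

open Finset

namespace Pool.Agent.GSH

open Pool.Agent.OHG

/-- The prime diagrams with the graph `G` of the nodes, with `a v` leaves at the node `v` and with all
weights of absolute value at most `X`. -/
def Box {m : ℕ} (G : SimpleGraph (Fin (m + 1))) (a : Fin (m + 1) → ℕ) (X : ℕ) : Set Prime :=
  {P | ∃ (D : Data (Fin (m + 1))) (h : D.IsGraph), P = ⟨m, D, h⟩ ∧ D.graph = G ∧
    (∀ v, (D.leaf v).card = a v) ∧ (∀ v, ∀ p ∈ D.leaf v, p ≤ X) ∧ ∀ v w, |D.wt v w| ≤ X}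

/-- The families of prime diagrams with all weights of absolute value at most `X` and with at most
`L` leaves altogether. -/
def Small {ι : Type} [Fintype ι] (X L : ℕ) (P : ι → Prime) : Prop :=
  (∀ i v, ∀ p ∈ (P i).D.leaf v, p ≤ X) ∧ (∀ i v w, |(P i).D.wt v w| ≤ X) ∧
    ∑ i, ∑ v, ((P i).D.leaf v).card ≤ L

end Pool.Agent.GSH
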