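import Pool.Agent.OHG.Final

/-!
# Finitely many coefficients of the Ohtsuki series suffice

The primitive part `c₂ - c₁ ^ 2 / 2` is bounded on finitely many connected sums only, so below every
bound a fixed number of coefficients determines the Ohtsuki series of a graph homology sphere.
-/

set_option autoImplicit false

open PowerSeries Finset

namespace Pool.Agent.GSH

open Pool.Agent.OHG

/-- the series without the exponential factor -/
private noncomputable def fac (M : Multiset Prime) : ℝ⟦X⟧ :=
  (M.map fun P => sinhcHalf⁻¹ * part P.D).prod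

private theorem fac_zero (M : Multiset Prime) : coeff 0 (fac M) = 1 := by
  unfold fac
  induction M using Multiset.induction_on with
  | empty => simp
  | cons P M ih =>
    rw [Multiset.map_cons, Multiset.prod_cons]
    have h := coeff_zero_factor P
    rw [coeff_zero_eq_constantCoeff_apply] at h ih ⊢
    rw [map_mul, h, ih, one_mul]

private theorem series_one (κ : ℝ) (M : Multiset Prime) :
    coeff 1 (series κ M) = κ + coeff 1 (fac M) := by
  have h : series κ M = rescale κ (exp ℝ) * fac M := rfl
  rw [h, coeff_mul, Finset.Nat.sum_antidiagonal_eq_sum_range_succ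
    (f := fun a b => coeff a (rescale κ (exp ℝ)) * coeff b (fac M)), sum_range_succ,
    sum_range_one]
  simp only [coeff_rescale, coeff_exp]
  rw [Nat.sub_zero, Nat.sub_self, fac_zero]
  norm_num
  ring

private theorem coeff_mul_congr (f : ℝ⟦X⟧) {g h : ℝ⟦X⟧} {d : ℕ}
    (hgh : ∀ n ≤ d, coeff n g = coeff n h) : ∀ n ≤ d, coeff n (f * g) = coeff n (f * h) := by
  intro n hn
  rw [coeff_mul, coeff_mul]
  refine sum_congr rfl fun x hx => ?_
  rw [hgh x.2 ?_]
  have := mem_antidiagonal.1 hx
  omega

/-- Below every bound for `c₂ - c₁ ^ 2 / 2` a fixed number of coefficients determines the Ohtsuki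
series of a graph homology sphere. -/
theorem exists_deg (c : ℝ) : ∃ d : ℕ, ∀ (κ κ' : ℝ) (M M' : Multiset Prime),
    coeff 2 (series κ M) - (coeff 1 (series κ M)) ^ 2 / 2 ≤ c →
    (∀ n ≤ d, coeff n (series κ M) = coeff n (series κ' M')) → series κ M = series κ' M' := by
  classical
  obtain ⟨F, hF⟩ := (finite c).exists_finset_coe
  have hmem : ∀ (κ : ℝ) (M : Multiset Prime),
      coeff 2 (series κ M) - (coeff 1 (series κ M)) ^ 2 / 2 ≤ c → M ∈ F := by
    intro κ M h
    have h1 : M ∈ (F : Set (Multiset Prime)) := by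
      rw [hF]
      exact ⟨κ, h⟩
    exact h1
  -- the difference of the constants is determined
  let δ : Multiset Prime → Multiset Prime → ℝ := fun M M' => coeff 1 (fac M') - coeff 1 (fac M)
  let A : Multiset Prime → Multiset Prime → ℝ⟦X⟧ := fun M M' =>
    rescale (δ M M') (exp ℝ) * fac M
  have hne : ∀ x : Multiset Prime × Multiset Prime, ∃ n : ℕ,
      A x.1 x.2 ≠ fac x.2 → coeff n (A x.1 x.2) ≠ coeff n (fac x.2) := by
    intro x
    by_cases h : A x.1 x.2 = fac x.2
    · exact ⟨0, fun h' => absurd h h'⟩
    · by_contra hc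
      push Not at hc
      refine h (PowerSeries.ext fun n => (hc n).2)
  choose m hm using hne
  refine ⟨2 + ∑ x ∈ F ×ˢ F, m x, fun κ κ' M M' hq h => ?_⟩
  have e1 := h 1 (by omega)
  have e2 := h 2 (by omega)
  have hM := hmem κ M hq
  have hM' := hmem κ' M' (by rw [← e1, ← e2]; exact hq)
  have hδ : κ = κ' + δ M M' := by
    rw [series_one, series_one] at e1
    show κ = κ' + (coeff 1 (fac M') - coeff 1 (fac M))
    linarith
  have key : A M M' = fac M' := by
    by_contra hA
    refine hm (M, M') hA ?_
    have h1 : m (M, M') ≤ 2 + ∑ x ∈ F ×ˢ F, m x := by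
      have hmm : (M, M') ∈ F ×ˢ F := mem_product.2 ⟨hM, hM'⟩
      have h2 := single_le_sum (f := m) (s := F ×ˢ F) (fun _ _ => Nat.zero_le _) hmm
      omega
    have h2 := coeff_mul_congr (rescale (-κ') (exp ℝ)) h _ h1
    have h3 : rescale (-κ') (exp ℝ) * series κ M = A M M' := by
      show rescale (-κ') (exp ℝ) * (rescale κ (exp ℝ) * fac M) = rescale (δ M M') (exp ℝ) * fac M
      rw [← mul_assoc, exp_mul_exp_eq_exp_add, hδ]
      congr 3
      ring
    have h4 : rescale (-κ') (exp ℝ) * series κ' M' = fac M' := by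
      show rescale (-κ') (exp ℝ) * (rescale κ' (exp ℝ) * fac M') = fac M'
      rw [← mul_assoc, exp_mul_exp_eq_exp_add, neg_add_cancel]
      have h5 : rescale (0 : ℝ) (exp ℝ) = 1 := by
        rw [rescale_zero]
        simp
      rw [h5, one_mul]
    rw [h3, h4] at h2
    exact h2
  show rescale κ (exp ℝ) * fac M = rescale κ' (exp ℝ) * fac M'
  rw [hδ, ← exp_mul_exp_eq_exp_add, mul_assoc]
  congr 1

end Pool.Agent.GSH
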