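import Mathlib

/-!
# Counting tuples of integers
-/

set_option autoImplicit false

open Finset

namespace Pool.Agent.GSH

variable {J : Type} [Fintype J] [DecidableEq J]

/-- The number of tuples with two prescribed coordinates. -/
theorem card_two (U : Finset ℕ) {i j : J} (hij : i ≠ j) (A B : Finset ℕ) :
    ((Fintype.piFinset fun _ : J => U).filter fun x => x i ∈ A ∧ x j ∈ B).card * U.card ^ 2 ≤
      A.card * B.card * U.card ^ Fintype.card J := by
  classical
  have h1 : ((Fintype.piFinset fun _ : J => U).filter fun x => x i ∈ A ∧ x j ∈ B) ⊆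
      Fintype.piFinset (Function.update (Function.update (fun _ : J => U) i A) j B) := by
    intro x hx
    rw [mem_filter, Fintype.mem_piFinset] at hx
    rw [Fintype.mem_piFinset]
    intro k
    by_cases hj : k = j
    · subst hj
      rw [Function.update_self]
      exact hx.2.2
    · rw [Function.update_of_ne hj]
      by_cases hi : k = i
      · subst hi
        rw [Function.update_self]
        exact hx.2.1
      · rw [Function.update_of_ne hi]
        exact hx.1 k
  have h2 := card_le_card h1
  rw [Fintype.card_piFinset] at h2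
  have hi : i ∈ univ.erase j := mem_erase.2 ⟨hij, mem_univ _⟩
  have h4 : ((univ.erase j).erase i).card + 2 = Fintype.card J := by
    have e1 := card_erase_add_one hi
    have e2 := card_erase_add_one (mem_univ j)
    rw [card_univ] at e2
    omega
  have h3 : (∏ k, (Function.update (Function.update (fun _ : J => U) i A) j B k).card) * U.card ^ 2 =
      A.card * B.card * U.card ^ Fintype.card J := by
    rw [← mul_prod_erase univ _ (mem_univ j), ← mul_prod_erase _ _ hi, Function.update_self,
      Function.update_of_ne hij, Function.update_self]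
    have h5 : ∏ k ∈ (univ.erase j).erase i,
        (Function.update (Function.update (fun _ : J => U) i A) j B k).card =
        U.card ^ ((univ.erase j).erase i).card := by
      rw [← prod_const]
      refine prod_congr rfl fun k hk => ?_
      rw [mem_erase, mem_erase] at hk
      rw [Function.update_of_ne hk.2.1, Function.update_of_ne hk.1]
    rw [h5, ← h4, pow_add]
    ring
  rw [← h3]
  exact Nat.mul_le_mul_right _ h2

/-- The number of tuples with one prescribed coordinate. -/
theorem card_one (U : Finset ℕ) (i : J) (A : Finset ℕ) :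
    ((Fintype.piFinset fun _ : J => U).filter fun x => x i ∈ A).card * U.card ≤
      A.card * U.card ^ Fintype.card J := by
  classical
  have h1 : ((Fintype.piFinset fun _ : J => U).filter fun x => x i ∈ A) ⊆
      Fintype.piFinset (Function.update (fun _ : J => U) i A) := by
    intro x hx
    rw [mem_filter, Fintype.mem_piFinset] at hx
    rw [Fintype.mem_piFinset]
    intro k
    by_cases hi : k = i
    · subst hi
      rw [Function.update_self]
      exact hx.2
    · rw [Function.update_of_ne hi]
      exact hx.1 k
  have h2 := card_le_card h1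
  rw [Fintype.card_piFinset] at h2
  have h4 : (univ.erase i).card + 1 = Fintype.card J := by
    have e2 := card_erase_add_one (mem_univ i)
    rwa [card_univ] at e2
  have h3 : (∏ k, (Function.update (fun _ : J => U) i A k).card) * U.card =
      A.card * U.card ^ Fintype.card J := by
    rw [← mul_prod_erase univ _ (mem_univ i), Function.update_self]
    have h5 : ∏ k ∈ univ.erase i, (Function.update (fun _ : J => U) i A k).card =
        U.card ^ (univ.erase i).card := by
      rw [← prod_const]
      refine prod_congr rfl fun k hk => ?_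
      rw [mem_erase] at hk
      rw [Function.update_of_ne hk.1]
    rw [h5, ← h4, pow_succ]
    ring
  rw [← h3]
  exact Nat.mul_le_mul_right _ h2

/-- The sum of the squares of the numbers of multiples. -/
theorem sum_div_sq {Y X K : ℕ} (hY : 0 < Y) (hX : Y ≤ X) :
    ∑ m ∈ Ioc Y X, ((K : ℝ) / m + 1) ^ 2 ≤ 2 * (K : ℝ) ^ 2 / Y + 2 * X := by
  have h1 : ∀ m ∈ Ioc Y X, ((K : ℝ) / m + 1) ^ 2 ≤ 2 * (K : ℝ) ^ 2 * ((m : ℝ) ^ 2)⁻¹ + 2 := by
    intro m hm
    have h2 : (K : ℝ) ^ 2 * ((m : ℝ) ^ 2)⁻¹ = ((K : ℝ) / m) ^ 2 := by
      rw [div_pow, div_eq_mul_inv]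
    rw [mul_assoc, h2]
    nlinarith [sq_nonneg ((K : ℝ) / m - 1)]
  refine (sum_le_sum h1).trans ?_
  rw [sum_add_distrib, ← mul_sum, sum_const, nsmul_eq_mul, Nat.card_Ioc]
  have h3 := sum_Ioc_inv_sq_le_sub (α := ℝ) hY.ne' hX
  have h4 : (0 : ℝ) ≤ (X : ℝ)⁻¹ := by positivity
  have h5 : 2 * (K : ℝ) ^ 2 * ∑ m ∈ Ioc Y X, ((m : ℝ) ^ 2)⁻¹ ≤ 2 * (K : ℝ) ^ 2 / Y := by
    rw [div_eq_mul_inv]
    exact mul_le_mul_of_nonneg_left (by linarith) (by positivity)
  have h6 : ((X - Y : ℕ) : ℝ) * 2 ≤ 2 * X := by
    have : ((X - Y : ℕ) : ℝ) ≤ X := by exact_mod_cast Nat.sub_le X Y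
    linarith
  linarith

end Pool.Agent.GSH
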