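import Pool.Agent.GSH.DenA

/-!
# Tuples of pairwise coprime integers have positive density
-/

set_option autoImplicit false

open Finset

namespace Pool.Agent.GSH

private theorem denB_ap {p M K a : ℕ} (hM : Nat.Coprime p M) :
    ((range K).filter fun y => p ∣ a + M * y).card ≤ K / p + 1 := by
  rw [← card_range (K / p + 1)]
  refine card_le_card_of_injOn (fun y => y / p) (fun y hy => ?_) fun y hy y' hy' h => ?_
  · rw [mem_coe, mem_filter, mem_range] at hy
    rw [mem_coe, mem_range, Nat.lt_succ_iff]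
    exact Nat.div_le_div_right hy.1.le
  · rw [mem_coe, mem_filter] at hy hy'
    have h1 : (a + M * y) ≡ (a + M * y') [MOD p] :=
      ((Nat.modEq_zero_iff_dvd.2 hy.2).trans (Nat.modEq_zero_iff_dvd.2 hy'.2).symm)
    have h2 : M * y ≡ M * y' [MOD p] := Nat.ModEq.add_left_cancel' a h1
    have h3 : y ≡ y' [MOD p] := Nat.ModEq.cancel_left_of_coprime hM h2
    have h4 : y % p = y' % p := h3
    have h5 : y / p = y' / p := h
    rw [← Nat.div_add_mod y p, ← Nat.div_add_mod y' p, h4, h5]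

/-- The tuples of pairwise coprime integers have positive density; the coordinates may be restricted
to disjoint intervals. -/
theorem many_coprime (J : Type) [Fintype J] [DecidableEq J] : ∃ c : ℝ, 0 < c ∧ ∃ X₀ : ℕ, ∀ X : ℕ,
    X₀ ≤ X → ∃ S : Finset (J → ℕ), c * (X : ℝ) ^ Fintype.card J ≤ S.card ∧
      (∀ x ∈ S, ∀ i, 2 ≤ x i ∧ x i ≤ X) ∧
      (∀ x ∈ S, ∀ i j, i ≠ j → Nat.Coprime (x i) (x j)) ∧
      ∀ x ∈ S, ∀ x' ∈ S, ∀ i j, x i = x' j → i = j := by
  classical
  set r := Fintype.card J with hr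
  let b : J → ℕ := fun i => (Fintype.equivFin J i : ℕ) + 1
  have hb : ∀ i, 1 ≤ b i ∧ b i ≤ r := fun i => ⟨Nat.succ_le_succ (Nat.zero_le _),
    Nat.succ_le_of_lt (Fintype.equivFin J i).2⟩
  have hbi : ∀ i j, b i = b j → i = j := fun i j h =>
    (Fintype.equivFin J).injective (Fin.ext (Nat.succ_injective h))
  set Y : ℕ := 16 * r ^ 2 + 1 with hY
  set M : ℕ := Y.factorial with hM
  have hM0 : 0 < M := Nat.factorial_pos _
  set W : ℕ := M * (r + 1) with hW
  have hW0 : 0 < W := Nat.mul_pos hM0 (Nat.succ_pos _)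
  refine ⟨1 / (2 * (2 * W : ℝ) ^ r), by positivity, W * (16 * W * r ^ 2 + 1), fun X hX => ?_⟩
  set K : ℕ := X / W with hK
  have hK1 : 16 * W * r ^ 2 + 1 ≤ K := by
    rw [hK, Nat.le_div_iff_mul_le hW0, mul_comm]
    exact hX
  have hKX : W * K ≤ X := Nat.mul_div_le X W
  have hXK : X ≤ 2 * W * K := by
    have h1 : X < W * (K + 1) := by
      have := Nat.lt_mul_div_succ X hW0
      exact this
    have h2 : W * 1 ≤ W * K := Nat.mul_le_mul_left W (by omega)
    nlinarith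
  have hYX : Y ≤ X := by
    have h1 : Y ≤ M := Nat.self_le_factorial Y
    have h2 : M ≤ W := Nat.le_mul_of_pos_right _ (Nat.succ_pos _)
    have h3 : W ≤ W * K := Nat.le_mul_of_pos_right _ (by omega)
    omega
  let f : (J → ℕ) → J → ℕ := fun y i => 1 + M * (b i * K + y i)
  let T : Finset (J → ℕ) := Fintype.piFinset fun _ => range K
  have hT : ∀ y ∈ T, ∀ i, y i < K := fun y hy i => mem_range.1 (Fintype.mem_piFinset.1 hy i)
  have hTc : T.card = K ^ r := by
    simp [T, hr]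
  let P : (J → ℕ) → Prop := fun y => ∀ i j, i ≠ j → Nat.Coprime (f y i) (f y j)
  have hle : ∀ y ∈ T, ∀ i, f y i ≤ X := by
    intro y hy i
    have h1 := hT y hy i
    have h2 : b i * K + y i + 1 ≤ (r + 1) * K := by
      have := Nat.mul_le_mul_right K (hb i).2
      nlinarith
    have h3 : 1 + M * (b i * K + y i) ≤ M * ((r + 1) * K) := by
      calc 1 + M * (b i * K + y i) ≤ M + M * (b i * K + y i) := Nat.add_le_add_right hM0 _
        _ = M * (b i * K + y i + 1) := by ring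
        _ ≤ M * ((r + 1) * K) := Nat.mul_le_mul_left M h2
    calc f y i ≤ M * ((r + 1) * K) := h3
      _ = W * K := by rw [hW]; ring
      _ ≤ X := hKX
  -- the number of the bad tuples
  let A : J → ℕ → Finset ℕ := fun i m => (range K).filter fun y => m ∣ (1 + M * (b i * K)) + M * y
  have hbad : (T.filter fun y => ¬ P y) ⊆
      (univ.offDiag : Finset (J × J)).biUnion fun ij =>
        ((Ioc Y X).filter Nat.Prime).biUnion fun m =>
        T.filter fun y => y ij.1 ∈ A ij.1 m ∧ y ij.2 ∈ A ij.2 m := by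
    intro y hy
    rw [mem_filter] at hy
    obtain ⟨hy, hP⟩ := hy
    have h1 : ∃ i j, i ≠ j ∧ ¬ Nat.Coprime (f y i) (f y j) := by
      by_contra hcon
      push Not at hcon
      exact hP hcon
    obtain ⟨i, j, hij, hc⟩ := h1
    obtain ⟨p, hp, hpi, hpj⟩ := Nat.Prime.not_coprime_iff_dvd.1 hc
    have hpM : ¬ p ∣ M := by
      intro h
      have h2 : p ∣ 1 := (Nat.dvd_add_left (h.mul_right _)).1 hpi
      exact hp.one_lt.ne' (Nat.dvd_one.1 h2)
    have hpY : Y < p := by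
      by_contra hcon
      exact hpM ((Nat.Prime.dvd_factorial hp).2 (not_lt.1 hcon))
    have hpX : p ≤ X := (Nat.le_of_dvd (by positivity) hpi).trans (hle y hy i)
    rw [mem_biUnion]
    refine ⟨(i, j), mem_offDiag.2 ⟨mem_univ _, mem_univ _, hij⟩, mem_biUnion.2 ⟨p, ?_, ?_⟩⟩
    · rw [mem_filter, mem_Ioc]
      exact ⟨⟨hpY, hpX⟩, hp⟩
    · rw [mem_filter]
      refine ⟨hy, ?_, ?_⟩
      · rw [mem_filter, mem_range]
        refine ⟨hT y hy i, ?_⟩
        have : f y i = (1 + M * (b i * K)) + M * y i := by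
          show 1 + M * (b i * K + y i) = _
          ring
        rwa [this] at hpi
      · rw [mem_filter, mem_range]
        refine ⟨hT y hy j, ?_⟩
        have : f y j = (1 + M * (b j * K)) + M * y j := by
          show 1 + M * (b j * K + y j) = _
          ring
        rwa [this] at hpj
  have hA : ∀ i, ∀ m ∈ (Ioc Y X).filter Nat.Prime, ((A i m).card : ℝ) ≤ (K : ℝ) / m + 1 := by
    intro i m hm
    rw [mem_filter, mem_Ioc] at hm
    have hmM : Nat.Coprime m M := by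
      rw [Nat.Prime.coprime_iff_not_dvd hm.2, hM, Nat.Prime.dvd_factorial hm.2]
      omega
    have h1 : (A i m).card ≤ K / m + 1 := denB_ap hmM
    calc ((A i m).card : ℝ) ≤ ((K / m + 1 : ℕ) : ℝ) := by exact_mod_cast h1
      _ = ((K / m : ℕ) : ℝ) + 1 := by push_cast; ring
      _ ≤ (K : ℝ) / m + 1 := by
        have := Nat.cast_div_le (α := ℝ) (m := K) (n := m)
        linarith
  have hbc : ((T.filter fun y => ¬ P y).card : ℝ) * (K : ℝ) ^ 2 ≤
      (r : ℝ) ^ 2 * ((2 * (K : ℝ) ^ 2 / Y + 2 * X) * (K : ℝ) ^ r) := by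
    have h1 : ((T.filter fun y => ¬ P y).card : ℝ) ≤ ∑ ij ∈ (univ.offDiag : Finset (J × J)),
        ∑ m ∈ (Ioc Y X).filter Nat.Prime,
          ((T.filter fun y => y ij.1 ∈ A ij.1 m ∧ y ij.2 ∈ A ij.2 m).card : ℝ) := by
      have h2 := (card_le_card hbad).trans card_biUnion_le
      have h3 : ((T.filter fun y => ¬ P y).card : ℝ) ≤
          ((∑ ij ∈ (univ.offDiag : Finset (J × J)), (((Ioc Y X).filter Nat.Prime).biUnion fun m =>
            T.filter fun y => y ij.1 ∈ A ij.1 m ∧ y ij.2 ∈ A ij.2 m).card : ℕ) : ℝ) := by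
        exact_mod_cast h2
      refine h3.trans ?_
      rw [Nat.cast_sum]
      refine sum_le_sum fun ij _ => ?_
      exact_mod_cast card_biUnion_le
    have h4 : ∀ ij ∈ (univ.offDiag : Finset (J × J)),
        (∑ m ∈ (Ioc Y X).filter Nat.Prime,
          ((T.filter fun y => y ij.1 ∈ A ij.1 m ∧ y ij.2 ∈ A ij.2 m).card : ℝ)) * (K : ℝ) ^ 2 ≤
        (2 * (K : ℝ) ^ 2 / Y + 2 * X) * (K : ℝ) ^ r := by
      intro ij hij
      rw [mem_offDiag] at hij
      rw [sum_mul]
      have h5 : ∀ m ∈ (Ioc Y X).filter Nat.Prime,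
          ((T.filter fun y => y ij.1 ∈ A ij.1 m ∧ y ij.2 ∈ A ij.2 m).card : ℝ) * (K : ℝ) ^ 2 ≤
            ((K : ℝ) / m + 1) ^ 2 * (K : ℝ) ^ r := by
        intro m hm
        have h6 := card_two (range K) hij.2.2 (A ij.1 m) (A ij.2 m)
        rw [card_range] at h6
        have h7 : ((T.filter fun y => y ij.1 ∈ A ij.1 m ∧ y ij.2 ∈ A ij.2 m).card : ℝ) *
            (K : ℝ) ^ 2 ≤ ((A ij.1 m).card : ℝ) * ((A ij.2 m).card : ℝ) * (K : ℝ) ^ r := by
          exact_mod_cast h6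
        refine h7.trans (mul_le_mul_of_nonneg_right ?_ (by positivity))
        rw [sq]
        exact mul_le_mul (hA _ m hm) (hA _ m hm) (by positivity) (by positivity)
      refine (sum_le_sum h5).trans ?_
      rw [← sum_mul]
      refine mul_le_mul_of_nonneg_right ?_ (by positivity)
      refine (sum_le_sum_of_subset_of_nonneg (filter_subset _ _) fun m _ _ => by positivity).trans
        (sum_div_sq (by omega) hYX)
    have h8 : (((univ.offDiag : Finset (J × J)).card : ℕ) : ℝ) ≤ (r : ℝ) ^ 2 := by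
      have h9 : (univ.offDiag : Finset (J × J)).card ≤ r ^ 2 := by
        rw [offDiag_card, card_univ, sq]
        exact Nat.sub_le _ _
      exact_mod_cast h9
    calc ((T.filter fun y => ¬ P y).card : ℝ) * (K : ℝ) ^ 2
        ≤ (∑ ij ∈ (univ.offDiag : Finset (J × J)), ∑ m ∈ (Ioc Y X).filter Nat.Prime,
          ((T.filter fun y => y ij.1 ∈ A ij.1 m ∧ y ij.2 ∈ A ij.2 m).card : ℝ)) * (K : ℝ) ^ 2 :=
          mul_le_mul_of_nonneg_right h1 (by positivity)
      _ = ∑ ij ∈ (univ.offDiag : Finset (J × J)), (∑ m ∈ (Ioc Y X).filter Nat.Prime,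
          ((T.filter fun y => y ij.1 ∈ A ij.1 m ∧ y ij.2 ∈ A ij.2 m).card : ℝ)) * (K : ℝ) ^ 2 := by
          rw [sum_mul]
      _ ≤ ∑ _ij ∈ (univ.offDiag : Finset (J × J)),
          (2 * (K : ℝ) ^ 2 / Y + 2 * X) * (K : ℝ) ^ r := sum_le_sum h4
      _ = ((univ.offDiag : Finset (J × J)).card : ℝ) *
          ((2 * (K : ℝ) ^ 2 / Y + 2 * X) * (K : ℝ) ^ r) := by
          rw [sum_const, nsmul_eq_mul]
      _ ≤ (r : ℝ) ^ 2 * ((2 * (K : ℝ) ^ 2 / Y + 2 * X) * (K : ℝ) ^ r) :=
          mul_le_mul_of_nonneg_right h8 (by positivity)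
  have hK0 : (0 : ℝ) < K := by
    have : 0 < K := by omega
    exact_mod_cast this
  have hhalf : ((T.filter fun y => ¬ P y).card : ℝ) ≤ (K : ℝ) ^ r / 2 := by
    have h1 : (r : ℝ) ^ 2 * (2 * (K : ℝ) ^ 2 / Y) ≤ (K : ℝ) ^ 2 / 4 := by
      have hY0 : (0 : ℝ) < Y := by
        have : 0 < Y := by omega
        exact_mod_cast this
      have hY1 : (16 : ℝ) * r ^ 2 ≤ Y := by
        rw [hY]
        push_cast
        linarith
      rw [← mul_div_assoc, div_le_iff₀ hY0]
      nlinarith [sq_nonneg (K : ℝ), mul_le_mul_of_nonneg_left hY1 (sq_nonneg (K : ℝ))]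
    have h2 : (r : ℝ) ^ 2 * (2 * X) ≤ (K : ℝ) ^ 2 / 4 := by
      have h3 : (X : ℝ) ≤ 2 * W * K := by exact_mod_cast hXK
      have h4 : (16 : ℝ) * W * r ^ 2 ≤ K := by
        have h5 : 16 * W * r ^ 2 ≤ K := by omega
        exact_mod_cast h5
      have h6 : (r : ℝ) ^ 2 * (2 * X) ≤ (r : ℝ) ^ 2 * (2 * (2 * W * K)) :=
        mul_le_mul_of_nonneg_left (by linarith) (by positivity)
      have h7 : (r : ℝ) ^ 2 * (2 * (2 * W * K)) = (16 * W * r ^ 2) * K / 4 := by ring
      rw [h7] at h6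
      refine h6.trans ?_
      have h8 : (16 * W * r ^ 2) * (K : ℝ) ≤ (K : ℝ) ^ 2 := by
        calc (16 * W * r ^ 2) * (K : ℝ) ≤ K * K := mul_le_mul_of_nonneg_right h4 hK0.le
          _ = (K : ℝ) ^ 2 := (sq _).symm
      linarith
    have h3 : (r : ℝ) ^ 2 * ((2 * (K : ℝ) ^ 2 / Y + 2 * X) * (K : ℝ) ^ r) ≤
        (K : ℝ) ^ r / 2 * (K : ℝ) ^ 2 := by
      have h4 : (r : ℝ) ^ 2 * ((2 * (K : ℝ) ^ 2 / Y + 2 * X) * (K : ℝ) ^ r) =
          ((r : ℝ) ^ 2 * (2 * (K : ℝ) ^ 2 / Y) + (r : ℝ) ^ 2 * (2 * X)) * (K : ℝ) ^ r := by ring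
      rw [h4]
      have h5 : (r : ℝ) ^ 2 * (2 * (K : ℝ) ^ 2 / Y) + (r : ℝ) ^ 2 * (2 * X) ≤ (K : ℝ) ^ 2 / 2 := by
        linarith
      calc _ ≤ (K : ℝ) ^ 2 / 2 * (K : ℝ) ^ r := mul_le_mul_of_nonneg_right h5 (by positivity)
        _ = _ := by ring
    exact le_of_mul_le_mul_right (hbc.trans h3) (by positivity)
  have hgood : (K : ℝ) ^ r / 2 ≤ ((T.filter P).card : ℝ) := by
    have h1 := card_filter_add_card_filter_not (s := T) P
    have h2 : ((T.filter P).card : ℝ) + ((T.filter fun y => ¬ P y).card : ℝ) = (K : ℝ) ^ r := by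
      rw [← Nat.cast_add, h1, hTc]
      push_cast
      rfl
    linarith
  have hinj : Function.Injective f := by
    intro y y' h
    funext i
    have h1 : 1 + M * (b i * K + y i) = 1 + M * (b i * K + y' i) := congrFun h i
    have h2 := Nat.eq_of_mul_eq_mul_left hM0 (Nat.add_left_cancel h1)
    omega
  refine ⟨(T.filter P).image f, ?_, ?_, ?_, ?_⟩
  · rw [card_image_of_injective _ hinj]
    refine le_trans ?_ hgood
    have h1 : (X : ℝ) ≤ 2 * W * K := by exact_mod_cast hXK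
    have hWr : (0 : ℝ) < 2 * W := by
      have : (0 : ℝ) < W := by exact_mod_cast hW0
      linarith
    have h2 : (X : ℝ) ^ r ≤ (2 * W : ℝ) ^ r * (K : ℝ) ^ r := by
      rw [← mul_pow]
      exact pow_le_pow_left₀ (by positivity) h1 r
    rw [one_div, inv_mul_le_iff₀ (by positivity)]
    calc (X : ℝ) ^ r ≤ (2 * W : ℝ) ^ r * (K : ℝ) ^ r := h2
      _ = 2 * (2 * W : ℝ) ^ r * ((K : ℝ) ^ r / 2) := by ring
  · intro x hx i
    obtain ⟨y, hy, rfl⟩ := mem_image.1 hx
    rw [mem_filter] at hy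
    refine ⟨?_, hle y hy.1 i⟩
    have h1 : 1 ≤ b i * K := Nat.mul_pos (hb i).1 (by omega)
    have h2 : 1 ≤ M * (b i * K + y i) := Nat.mul_pos hM0 (by omega)
    show 2 ≤ 1 + M * (b i * K + y i)
    omega
  · intro x hx i j hij
    obtain ⟨y, hy, rfl⟩ := mem_image.1 hx
    rw [mem_filter] at hy
    exact hy.2 i j hij
  · intro x hx x' hx' i j h
    obtain ⟨y, hy, rfl⟩ := mem_image.1 hx
    obtain ⟨y', hy', rfl⟩ := mem_image.1 hx'
    rw [mem_filter] at hy hy'
    have h1 : 1 + M * (b i * K + y i) = 1 + M * (b j * K + y' j) := h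
    have h2 := Nat.eq_of_mul_eq_mul_left hM0 (Nat.add_left_cancel h1)
    have h3 := hT y hy.1 i
    have h4 := hT y' hy'.1 j
    refine hbi i j ?_
    by_contra hne
    rcases Nat.lt_or_gt_of_ne hne with h5 | h5
    · have h6 : (b i + 1) * K ≤ b j * K := Nat.mul_le_mul_right K h5
      rw [Nat.add_mul, Nat.one_mul] at h6
      omega
    · have h6 : (b j + 1) * K ≤ b i * K := Nat.mul_le_mul_right K h5
      rw [Nat.add_mul, Nat.one_mul] at h6
      omega

end Pool.Agent.GSH
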