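import Pool.Agent.GSH.DenA

/-!
# Almost all tuples of integers have private primes
-/

set_option autoImplicit false

open Finset

namespace Pool.Agent.GSH

/-- Almost no tuple has a member whose large prime factors all divide other members. -/
theorem few_bad (J : Type) [Fintype J] [DecidableEq J] (C : ℕ) {ε : ℝ} (hε : 0 < ε) :
    ∃ X₀ : ℕ, ∀ X : ℕ, X₀ ≤ X → ∀ S : Finset (J → ℕ), (∀ x ∈ S, ∀ j, 1 ≤ x j ∧ x j ≤ X) →
      (∀ x ∈ S, ∃ j, ∀ l : ℕ, l.Prime → C ≤ l → l ∣ x j → ∃ j', j' ≠ j ∧ l ∣ x j') →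
      (S.card : ℝ) ≤ ε * (X : ℝ) ^ Fintype.card J := by
  classical
  set r := Fintype.card J with hr
  obtain ⟨Y₁, hY₁⟩ := exists_nat_ge (4 * (r : ℝ) ^ 2 / ε)
  set Y : ℕ := max (max C Y₁) 1 with hY
  have hY0 : 0 < Y := by omega
  have hYC : C ≤ Y := by omega
  have hYr : (0 : ℝ) < Y := by exact_mod_cast hY0
  have hYε : (r : ℝ) ^ 2 * (2 / Y) ≤ ε / 2 := by
    have h1 : (Y₁ : ℝ) ≤ Y := by
      have : Y₁ ≤ Y := by omega
      exact_mod_cast this
    have h2 : 4 * (r : ℝ) ^ 2 ≤ Y * ε := by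
      have := hY₁.trans h1
      rwa [div_le_iff₀ hε] at this
    rw [← mul_div_assoc, div_le_iff₀ hYr]
    linarith
  set k := (Y + 1).primesBelow.card with hk
  obtain ⟨Z, hZ⟩ := exists_nat_ge (((r : ℝ) * 2 ^ k + 2 * (r : ℝ) ^ 2) * 2 / ε)
  refine ⟨max (Z ^ 2) (Y + 1), fun X hX S hS hb => ?_⟩
  have hXZ : Z ^ 2 ≤ X := by omega
  have hXY : Y ≤ X := by omega
  have hX0 : 0 < X := by omega
  have hXr : (0 : ℝ) < X := by exact_mod_cast hX0
  set U : Finset ℕ := Icc 1 X with hU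
  have hUc : U.card = X := by simp [hU]
  set T : Finset (J → ℕ) := Fintype.piFinset fun _ => U with hT
  let A : ℕ → Finset ℕ := fun m => U.filter fun y => m ∣ y
  have hsub : S ⊆ (univ.biUnion fun j => T.filter fun x => x j ∈ X.smoothNumbersUpTo (Y + 1)) ∪
      ((univ.offDiag : Finset (J × J)).biUnion fun ij => (Ioc Y X).biUnion fun m =>
        T.filter fun x => x ij.1 ∈ A m ∧ x ij.2 ∈ A m) := by
    intro x hx
    have hxT : x ∈ T := Fintype.mem_piFinset.2 fun j => mem_Icc.2 (hS x hx j)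
    obtain ⟨j, hj⟩ := hb x hx
    by_cases hs : x j ∈ X.smoothNumbersUpTo (Y + 1)
    · exact mem_union_left _ (mem_biUnion.2 ⟨j, mem_univ _, mem_filter.2 ⟨hxT, hs⟩⟩)
    · refine mem_union_right _ ?_
      have h1 : ∃ l, l.Prime ∧ l ∣ x j ∧ Y + 1 ≤ l := by
        by_contra hcon
        push Not at hcon
        refine hs (Nat.mem_smoothNumbersUpTo.2 ⟨(hS x hx j).2, ?_⟩)
        rw [Nat.mem_smoothNumbers']
        exact fun p hp hpj => hcon p hp hpj
      obtain ⟨l, hl, hlj, hlY⟩ := h1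
      obtain ⟨j', hne, hlj'⟩ := hj l hl (by omega) hlj
      have hlX : l ≤ X := (Nat.le_of_dvd (hS x hx j).1 hlj).trans (hS x hx j).2
      refine mem_biUnion.2 ⟨(j, j'), mem_offDiag.2 ⟨mem_univ _, mem_univ _, hne.symm⟩,
        mem_biUnion.2 ⟨l, mem_Ioc.2 ⟨hlY, hlX⟩, mem_filter.2 ⟨hxT, ?_, ?_⟩⟩⟩
      · exact mem_filter.2 ⟨mem_Icc.2 (hS x hx j), hlj⟩
      · exact mem_filter.2 ⟨mem_Icc.2 (hS x hx j'), hlj'⟩
  have hA : ∀ m ∈ Ioc Y X, ((A m).card : ℝ) ≤ (X : ℝ) / m + 1 := by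
    intro m _
    have h1 : (A m).card = X / m := by
      have := Nat.Ioc_filter_dvd_card_eq_div X m
      rw [← this]
      rfl
    rw [h1]
    have := Nat.cast_div_le (α := ℝ) (m := X) (n := m)
    linarith
  have c1 : ((univ.biUnion fun j => T.filter fun x => x j ∈ X.smoothNumbersUpTo (Y + 1)).card : ℝ) *
      (X : ℝ) ≤ (r : ℝ) * (2 ^ k * Real.sqrt X) * (X : ℝ) ^ r := by
    have h1 : ∀ j : J, ((T.filter fun x => x j ∈ X.smoothNumbersUpTo (Y + 1)).card : ℝ) * (X : ℝ) ≤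
        (2 ^ k * Real.sqrt X) * (X : ℝ) ^ r := by
      intro j
      have h2 := card_one U j (X.smoothNumbersUpTo (Y + 1))
      rw [hUc] at h2
      have h3 := Nat.smoothNumbersUpTo_card_le X (Y + 1)
      have h4 : ((T.filter fun x => x j ∈ X.smoothNumbersUpTo (Y + 1)).card : ℝ) * (X : ℝ) ≤
          ((X.smoothNumbersUpTo (Y + 1)).card : ℝ) * (X : ℝ) ^ r := by exact_mod_cast h2
      refine h4.trans (mul_le_mul_of_nonneg_right ?_ (by positivity))
      have h5 : ((X.smoothNumbersUpTo (Y + 1)).card : ℝ) ≤ 2 ^ k * (X.sqrt : ℝ) := by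
        exact_mod_cast h3
      exact h5.trans (mul_le_mul_of_nonneg_left Real.nat_sqrt_le_real_sqrt (by positivity))
    have h2 : ((univ.biUnion fun j => T.filter fun x =>
        x j ∈ X.smoothNumbersUpTo (Y + 1)).card : ℝ) ≤
        ∑ j : J, ((T.filter fun x => x j ∈ X.smoothNumbersUpTo (Y + 1)).card : ℝ) := by
      exact_mod_cast card_biUnion_le
    calc _ ≤ (∑ j : J, ((T.filter fun x => x j ∈ X.smoothNumbersUpTo (Y + 1)).card : ℝ)) *
        (X : ℝ) := mul_le_mul_of_nonneg_right h2 hXr.le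
      _ = ∑ j : J, ((T.filter fun x => x j ∈ X.smoothNumbersUpTo (Y + 1)).card : ℝ) * (X : ℝ) := by
        rw [sum_mul]
      _ ≤ ∑ _j : J, (2 ^ k * Real.sqrt X) * (X : ℝ) ^ r := sum_le_sum fun j _ => h1 j
      _ = _ := by
        rw [sum_const, nsmul_eq_mul, card_univ]
        ring
  have c2 : (((univ.offDiag : Finset (J × J)).biUnion fun ij => (Ioc Y X).biUnion fun m =>
        T.filter fun x => x ij.1 ∈ A m ∧ x ij.2 ∈ A m).card : ℝ) * (X : ℝ) ^ 2 ≤
      (r : ℝ) ^ 2 * ((2 * (X : ℝ) ^ 2 / Y + 2 * X) * (X : ℝ) ^ r) := by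
    have h1 : (((univ.offDiag : Finset (J × J)).biUnion fun ij => (Ioc Y X).biUnion fun m =>
        T.filter fun x => x ij.1 ∈ A m ∧ x ij.2 ∈ A m).card : ℝ) ≤
        ∑ ij ∈ (univ.offDiag : Finset (J × J)), ∑ m ∈ Ioc Y X,
          ((T.filter fun x => x ij.1 ∈ A m ∧ x ij.2 ∈ A m).card : ℝ) := by
      have h3 : (((univ.offDiag : Finset (J × J)).biUnion fun ij => (Ioc Y X).biUnion fun m =>
          T.filter fun x => x ij.1 ∈ A m ∧ x ij.2 ∈ A m).card : ℝ) ≤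
          ((∑ ij ∈ (univ.offDiag : Finset (J × J)), ((Ioc Y X).biUnion fun m =>
            T.filter fun x => x ij.1 ∈ A m ∧ x ij.2 ∈ A m).card : ℕ) : ℝ) := by
        exact_mod_cast card_biUnion_le
      refine h3.trans ?_
      rw [Nat.cast_sum]
      refine sum_le_sum fun ij _ => ?_
      exact_mod_cast card_biUnion_le
    have h4 : ∀ ij ∈ (univ.offDiag : Finset (J × J)),
        (∑ m ∈ Ioc Y X, ((T.filter fun x => x ij.1 ∈ A m ∧ x ij.2 ∈ A m).card : ℝ)) *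
          (X : ℝ) ^ 2 ≤ (2 * (X : ℝ) ^ 2 / Y + 2 * X) * (X : ℝ) ^ r := by
      intro ij hij
      rw [mem_offDiag] at hij
      rw [sum_mul]
      have h5 : ∀ m ∈ Ioc Y X,
          ((T.filter fun x => x ij.1 ∈ A m ∧ x ij.2 ∈ A m).card : ℝ) * (X : ℝ) ^ 2 ≤
            ((X : ℝ) / m + 1) ^ 2 * (X : ℝ) ^ r := by
        intro m hm
        have h6 := card_two U hij.2.2 (A m) (A m)
        rw [hUc] at h6
        have h7 : ((T.filter fun x => x ij.1 ∈ A m ∧ x ij.2 ∈ A m).card : ℝ) *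
            (X : ℝ) ^ 2 ≤ ((A m).card : ℝ) * ((A m).card : ℝ) * (X : ℝ) ^ r := by
          exact_mod_cast h6
        refine h7.trans (mul_le_mul_of_nonneg_right ?_ (by positivity))
        rw [sq]
        exact mul_le_mul (hA m hm) (hA m hm) (by positivity) (by positivity)
      refine (sum_le_sum h5).trans ?_
      rw [← sum_mul]
      exact mul_le_mul_of_nonneg_right (sum_div_sq hY0 hXY) (by positivity)
    have h8 : (((univ.offDiag : Finset (J × J)).card : ℕ) : ℝ) ≤ (r : ℝ) ^ 2 := by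
      have h9 : (univ.offDiag : Finset (J × J)).card ≤ r ^ 2 := by
        rw [offDiag_card, card_univ, sq]
        exact Nat.sub_le _ _
      exact_mod_cast h9
    calc _ ≤ (∑ ij ∈ (univ.offDiag : Finset (J × J)), ∑ m ∈ Ioc Y X,
          ((T.filter fun x => x ij.1 ∈ A m ∧ x ij.2 ∈ A m).card : ℝ)) * (X : ℝ) ^ 2 :=
          mul_le_mul_of_nonneg_right h1 (by positivity)
      _ = ∑ ij ∈ (univ.offDiag : Finset (J × J)), (∑ m ∈ Ioc Y X,
          ((T.filter fun x => x ij.1 ∈ A m ∧ x ij.2 ∈ A m).card : ℝ)) * (X : ℝ) ^ 2 := by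
          rw [sum_mul]
      _ ≤ ∑ _ij ∈ (univ.offDiag : Finset (J × J)),
          (2 * (X : ℝ) ^ 2 / Y + 2 * X) * (X : ℝ) ^ r := sum_le_sum h4
      _ = ((univ.offDiag : Finset (J × J)).card : ℝ) *
          ((2 * (X : ℝ) ^ 2 / Y + 2 * X) * (X : ℝ) ^ r) := by
          rw [sum_const, nsmul_eq_mul]
      _ ≤ _ := mul_le_mul_of_nonneg_right h8 (by positivity)
  have c3 : (S.card : ℝ) ≤
      ((univ.biUnion fun j => T.filter fun x => x j ∈ X.smoothNumbersUpTo (Y + 1)).card : ℝ) +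
      (((univ.offDiag : Finset (J × J)).biUnion fun ij => (Ioc Y X).biUnion fun m =>
        T.filter fun x => x ij.1 ∈ A m ∧ x ij.2 ∈ A m).card : ℝ) := by
    exact_mod_cast (card_le_card hsub).trans (card_union_le _ _)
  have hsq : Real.sqrt X * Real.sqrt X = X := Real.mul_self_sqrt hXr.le
  have hs1 : 1 ≤ Real.sqrt X := by
    rw [Real.one_le_sqrt]
    exact_mod_cast hX0
  have hsZ : ((r : ℝ) * 2 ^ k + 2 * (r : ℝ) ^ 2) * 2 ≤ ε * Real.sqrt X := by
    have h1 : (Z : ℝ) ≤ Real.sqrt X := by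
      refine Real.le_sqrt_of_sq_le ?_
      exact_mod_cast hXZ
    have h2 := hZ.trans h1
    rwa [div_le_iff₀ hε, mul_comm (Real.sqrt X)] at h2
  have key : (S.card : ℝ) * (X : ℝ) ^ 2 ≤ (ε * (X : ℝ) ^ r) * (X : ℝ) ^ 2 := by
    have e1 : (S.card : ℝ) * (X : ℝ) ^ 2 ≤ (r : ℝ) * (2 ^ k * Real.sqrt X) * (X : ℝ) ^ r * X +
        (r : ℝ) ^ 2 * ((2 * (X : ℝ) ^ 2 / Y + 2 * X) * (X : ℝ) ^ r) := by
      have e2 := mul_le_mul_of_nonneg_right c3 (sq_nonneg (X : ℝ))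
      have e3 := mul_le_mul_of_nonneg_right c1 hXr.le
      have e4 : ∀ a : ℝ, a * (X : ℝ) ^ 2 = a * X * X := fun a => by ring
      rw [add_mul] at e2
      rw [e4 ((univ.biUnion fun j => T.filter fun x =>
        x j ∈ X.smoothNumbersUpTo (Y + 1)).card : ℝ)] at e2
      linarith
    refine e1.trans ?_
    have e5 : (r : ℝ) * (2 ^ k * Real.sqrt X) * (X : ℝ) ^ r * X +
        (r : ℝ) ^ 2 * ((2 * (X : ℝ) ^ 2 / Y + 2 * X) * (X : ℝ) ^ r) =
        (((r : ℝ) * 2 ^ k * (Real.sqrt X * X) + 2 * (r : ℝ) ^ 2 * X) +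
          (r : ℝ) ^ 2 * (2 / Y) * (X : ℝ) ^ 2) * (X : ℝ) ^ r := by ring
    rw [e5]
    have e6 : (r : ℝ) * 2 ^ k * (Real.sqrt X * X) + 2 * (r : ℝ) ^ 2 * X ≤
        ε / 2 * (X : ℝ) ^ 2 := by
      have e7 : 2 * (r : ℝ) ^ 2 * X ≤ 2 * (r : ℝ) ^ 2 * (Real.sqrt X * X) := by
        refine mul_le_mul_of_nonneg_left ?_ (by positivity)
        nlinarith
      have e8 : ((r : ℝ) * 2 ^ k + 2 * (r : ℝ) ^ 2) * (Real.sqrt X * X) ≤
          ε / 2 * Real.sqrt X * (Real.sqrt X * X) := by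
        refine mul_le_mul_of_nonneg_right ?_ (by positivity)
        linarith
      have e9 : ε / 2 * Real.sqrt X * (Real.sqrt X * X) = ε / 2 * (X : ℝ) ^ 2 := by
        calc ε / 2 * Real.sqrt X * (Real.sqrt X * X) =
            ε / 2 * (Real.sqrt X * Real.sqrt X) * X := by ring
          _ = ε / 2 * (X : ℝ) ^ 2 := by rw [hsq]; ring
      linarith
    have e10 : (r : ℝ) ^ 2 * (2 / Y) * (X : ℝ) ^ 2 ≤ ε / 2 * (X : ℝ) ^ 2 :=
      mul_le_mul_of_nonneg_right hYε (by positivity)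
    calc _ ≤ (ε / 2 * (X : ℝ) ^ 2 + ε / 2 * (X : ℝ) ^ 2) * (X : ℝ) ^ r :=
          mul_le_mul_of_nonneg_right (add_le_add e6 e10) (by positivity)
      _ = _ := by ring
  exact le_of_mul_le_mul_right key (by positivity)

end Pool.Agent.GSH
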