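import Pool.Agent.OHG.J1
import Pool.Agent.GSP.Defs

/-!
# Diagrams with positive weights
-/

set_option autoImplicit false

open Finset

namespace Pool.Agent.GSH

open Pool.Agent.OHG Pool.Agent.GSP

variable {m : ℕ}

/-- The diagram with the given weights; the signs alternate. -/
noncomputable def mkD (G : SimpleGraph (Fin (m + 1))) (a : Fin (m + 1) → ℕ)
    (y : (Σ v, Fin (a v)) → ℕ) (z : Fin (m + 1) → Fin (m + 1) → ℕ) : Data (Fin (m + 1)) := by
  classical
  exact { graph := G
          leaf := fun v => univ.image fun k : Fin (a v) => y ⟨v, k⟩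
          sgn := fun v => (-1) ^ G.dist 0 v
          wt := fun v w => if G.Adj v w then (z v w : ℤ) else 0 }

theorem card_nbr {D : Data (Fin (m + 1))} (v : Fin (m + 1)) : (D.nbr v).card = dg D.graph v := by
  unfold dg
  rw [← Set.ncard_coe_finset]
  congr 1
  ext x
  simp [mem_nbr]

theorem mkD_isGraph {G : SimpleGraph (Fin (m + 1))} {a : Fin (m + 1) → ℕ}
    {y : (Σ v, Fin (a v)) → ℕ} {z : Fin (m + 1) → Fin (m + 1) → ℕ} (hG : G.IsTree)
    (ha : ∀ v, 3 ≤ a v + dg G v) (hy : ∀ i, 2 ≤ y i) (hz : ∀ v w, G.Adj v w → 2 ≤ z v w)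
    (hyy : ∀ i j, i ≠ j → Nat.Coprime (y i) (y j))
    (hyz : ∀ i v w, G.Adj v w → Nat.Coprime (y i) (z v w))
    (hzz : ∀ v w x, G.Adj v w → G.Adj v x → w ≠ x → Nat.Coprime (z v w) (z v x)) :
    (mkD G a y z).IsGraph := by
  classical
  have hadj : ∀ v w, w ∈ (mkD G a y z).nbr v ↔ G.Adj v w := fun v w => mem_nbr
  have hwt : ∀ v w, G.Adj v w → (mkD G a y z).wt v w = (z v w : ℤ) := by
    intro v w h
    show (if G.Adj v w then (z v w : ℤ) else 0) = _
    rw [if_pos h]
  have hleaf : ∀ v k, k ∈ (mkD G a y z).leaf v ↔ ∃ i : Fin (a v), y ⟨v, i⟩ = k := by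
    intro v k
    show k ∈ (univ.image fun k : Fin (a v) => y ⟨v, k⟩) ↔ _
    simp
  have hyinj : ∀ i j, y i = y j → i = j := by
    intro i j h
    by_contra hne
    have h1 := hyy i j hne
    rw [h, Nat.coprime_self] at h1
    have := hy j
    omega
  have hpos : ∀ v w u, 0 < (∏ k ∈ (mkD G a y z).leaf u, (k : ℤ)) *
      ∏ x ∈ (mkD G a y z).nbr u with ¬ (mkD G a y z).On v w x, (mkD G a y z).wt u x := by
    intro v w u
    refine mul_pos (prod_pos fun k hk => ?_) (prod_pos fun x hx => ?_)
    · obtain ⟨i, rfl⟩ := (hleaf u k).1 hk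
      have := hy ⟨u, i⟩
      have h2 : 0 < y ⟨u, i⟩ := by omega
      exact_mod_cast h2
    · rw [mem_filter, hadj] at hx
      rw [hwt u x hx.1]
      have := hz u x hx.1
      have h2 : 0 < z u x := by omega
      exact_mod_cast h2
  refine ⟨hG, fun v => ?_, fun v k hk => ?_, fun v k hk l hl hkl => ?_, fun v k hk w hw => ?_,
    fun v w hw x hx hwx => ?_, fun v => ?_, fun v w hw => ?_, fun v w hw => ?_⟩
  · exact neg_one_pow_eq_or ℤ _
  · obtain ⟨i, rfl⟩ := (hleaf v k).1 hk
    exact hy _
  · obtain ⟨i, rfl⟩ := (hleaf v k).1 hk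
    obtain ⟨j, rfl⟩ := (hleaf v l).1 hl
    exact hyy _ _ fun h => hkl (congrArg y h)
  · obtain ⟨i, rfl⟩ := (hleaf v k).1 hk
    rw [hadj] at hw
    rw [hwt v w hw]
    exact Nat.isCoprime_iff_coprime.2 (hyz _ _ _ hw)
  · rw [hadj] at hw hx
    rw [hwt v w hw, hwt v x hx]
    exact Nat.isCoprime_iff_coprime.2 (hzz _ _ _ hw hx hwx)
  · unfold Data.val
    rw [card_nbr]
    have h1 : ((mkD G a y z).leaf v).card = a v := by
      show (univ.image fun k : Fin (a v) => y ⟨v, k⟩).card = a v
      rw [card_image_of_injective, card_univ, Fintype.card_fin]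
      intro i j h
      have := hyinj _ _ h
      simpa using this
    rw [h1]
    exact ha v
  · rw [hadj] at hw
    rw [hwt v w hw, hwt w v hw.symm]
    have h1 : (mkD G a y z).lk v w < 0 := by
      unfold Data.lk
      have h2 : ∀ u, (mkD G a y z).sgn u * (∏ k ∈ (mkD G a y z).leaf u, (k : ℤ)) *
          (∏ x ∈ (mkD G a y z).nbr u with ¬ (mkD G a y z).On v w x, (mkD G a y z).wt u x) =
          (mkD G a y z).sgn u * ((∏ k ∈ (mkD G a y z).leaf u, (k : ℤ)) *
          (∏ x ∈ (mkD G a y z).nbr u with ¬ (mkD G a y z).On v w x, (mkD G a y z).wt u x)) :=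
        fun u => mul_assoc _ _ _
      rw [prod_congr rfl fun u _ => h2 u, prod_mul_distrib]
      refine mul_neg_of_neg_of_pos ?_ (prod_pos fun u _ => hpos v w u)
      have hvw : G.dist v w = 1 := SimpleGraph.dist_eq_one_iff_adj.mpr hw
      have hS : (univ.filter fun u => (mkD G a y z).On v w u) = {v, w} := by
        ext u
        simp only [mem_filter, mem_univ, true_and, mem_insert, mem_singleton]
        show G.dist v u + G.dist u w = G.dist v w ↔ _
        rw [hvw]
        constructor
        · intro h0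
          rcases Nat.eq_zero_or_pos (G.dist v u) with h1 | h1
          · exact Or.inl ((hG.connected.dist_eq_zero_iff).mp h1).symm
          · have h2 : G.dist u w = 0 := by omega
            exact Or.inr ((hG.connected.dist_eq_zero_iff).mp h2)
        · rintro (rfl | rfl)
          · rw [SimpleGraph.dist_self, hvw]
          · rw [SimpleGraph.dist_self, hvw]
      rw [hS, prod_pair hw.ne]
      show (-1 : ℤ) ^ G.dist 0 v * (-1) ^ G.dist 0 w < 0
      rcases hG.dist_eq_dist_add_one_of_adj 0 hw with h | h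
      · rw [h, pow_succ]
        have h3 : (-1 : ℤ) ^ G.dist 0 w * (-1) ^ G.dist 0 w = 1 := by
          rw [← mul_pow]
          norm_num
        linarith
      · rw [h, pow_succ]
        have h3 : (-1 : ℤ) ^ G.dist 0 v * (-1) ^ G.dist 0 v = 1 := by
          rw [← mul_pow]
          norm_num
        linarith
    intro h2
    rw [← h2] at h1
    have h3 : (0 : ℤ) ≤ (z v w : ℤ) * (z w v : ℤ) := by positivity
    linarith
  · rw [hadj] at hw
    show (if G.Adj v w then (z v w : ℤ) else 0) = 0
    rw [if_neg hw]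

end Pool.Agent.GSH
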