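import Pool.Agent.GSH.Defs
import Pool.Agent.GSH.Box
import Pool.Agent.GSH.DenB
import Pool.Agent.GSH.DenC
import Pool.Agent.GSH.DenD

/-!
# Almost all families of diagrams are generic
-/

set_option autoImplicit false

open Finset Filter Topology

namespace Pool.Agent.GSH.Den

open Pool.Agent.OHG Pool.Agent.GSP

noncomputable def dat (m : ℕ) (P : Prime) : Data (Fin (m + 1)) := by
  classical
  exact if h : ∃ (D : Data (Fin (m + 1))) (h : D.IsGraph), P = ⟨m, D, h⟩ then h.choose else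
    ⟨⊥, fun _ => ∅, fun _ => 0, fun _ _ => 0⟩

theorem dat_mk {m : ℕ} (D : Data (Fin (m + 1))) (h : D.IsGraph) : dat m ⟨m, D, h⟩ = D := by
  have hex : ∃ (D' : Data (Fin (m + 1))) (h' : D'.IsGraph), (⟨m, D, h⟩ : Prime) = ⟨m, D', h'⟩ :=
    ⟨D, h, rfl⟩
  unfold dat
  rw [dif_pos hex]
  obtain ⟨h', e⟩ := hex.choose_spec
  exact (eq_of_heq (Prime.mk.inj e).2).symm

section family

variable {ι : Type} [Fintype ι] [DecidableEq ι] {n : ι → ℕ}
  {G : ∀ i, SimpleGraph (Fin (n i + 1))} {a : ∀ i, Fin (n i + 1) → ℕ}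

abbrev Vx (n : ι → ℕ) : Type := Σ i, Fin (n i + 1)

abbrev Lf (a : ∀ i, Fin (n i + 1) → ℕ) : Type := Σ v : Vx n, Fin (a v.1 v.2)

abbrev Dt (G : ∀ i, SimpleGraph (Fin (n i + 1))) : Type :=
  {d : Σ i, Fin (n i + 1) × Fin (n i + 1) // (G d.1).Adj d.2.1 d.2.2}

noncomputable instance : Fintype (Dt G) := by
  classical
  infer_instance

noncomputable instance : DecidableEq (Dt G) := Classical.decEq _

def Fam (G : ∀ i, SimpleGraph (Fin (n i + 1))) (a : ∀ i, Fin (n i + 1) → ℕ) (X : ℕ) :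
    Set (ι → Prime) :=
  {P | ∀ i, P i ∈ Box (G i) (a i) X}

omit [Fintype ι] [DecidableEq ι] in
theorem fam_mem {X : ℕ} {P : ι → Prime} (hP : P ∈ Fam G a X) :
    ∃ (D : ∀ i, Data (Fin (n i + 1))) (h : ∀ i, (D i).IsGraph), (P = fun i => ⟨n i, D i, h i⟩) ∧
      (∀ i, (D i).graph = G i) ∧ (∀ i v, ((D i).leaf v).card = a i v) ∧
      (∀ i v, ∀ p ∈ (D i).leaf v, p ≤ X) ∧ ∀ i v w, |(D i).wt v w| ≤ X := by
  choose D h hP1 hP2 hP3 hP4 hP5 using hP
  exact ⟨D, h, funext hP1, hP2, hP3, hP4, hP5⟩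

noncomputable def sg (n : ι → ℕ) (P : ι → Prime) : Vx n → ℤ :=
  fun v => (dat (n v.1) (P v.1)).sgn v.2

noncomputable def wg (G : ∀ i, SimpleGraph (Fin (n i + 1))) (P : ι → Prime) : Dt G → ℤ :=
  fun d => (dat (n d.1.1) (P d.1.1)).wt d.1.2.1 d.1.2.2

noncomputable def lg (a : ∀ i, Fin (n i + 1) → ℕ) (P : ι → Prime) : Lf a → ℕ :=
  fun j => ((dat (n j.1.1) (P j.1.1)).leaf j.1.2).toList.getD j.2 0

theorem toList_getD_mem {s : Finset ℕ} {k : ℕ} (hk : k < s.card) :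
    s.toList.getD k 0 ∈ s := by
  have h1 : k < s.toList.length := by rwa [length_toList]
  rw [List.getD_eq_getElem _ _ h1]
  exact mem_toList.1 (List.getElem_mem h1)

theorem toList_ext {s t : Finset ℕ} {b : ℕ} (hs : s.card = b) (ht : t.card = b)
    (h : ∀ k < b, s.toList.getD k 0 = t.toList.getD k 0) : s = t := by
  have h1 : s.toList = t.toList := by
    refine List.ext_getElem (by rw [length_toList, length_toList, hs, ht]) fun k h1 h2 => ?_
    have h3 := h k (by rwa [length_toList, hs] at h1)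
    rwa [List.getD_eq_getElem _ _ h1, List.getD_eq_getElem _ _ h2] at h3
  rw [← toList_toFinset s, ← toList_toFinset t, h1]

omit [Fintype ι] [DecidableEq ι] in
theorem fam_inj {X : ℕ} {P P' : ι → Prime} (hP : P ∈ Fam G a X) (hP' : P' ∈ Fam G a X)
    (h1 : sg n P = sg n P') (h2 : wg G P = wg G P') (h3 : lg a P = lg a P') : P = P' := by
  obtain ⟨D, h, rfl, hg, ha, -, -⟩ := fam_mem hP
  obtain ⟨D', h', rfl, hg', ha', -, -⟩ := fam_mem hP'
  have key : ∀ i, D i = D' i := by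
    intro i
    have e1 : (D i).graph = (D' i).graph := (hg i).trans (hg' i).symm
    have e2 : (D i).leaf = (D' i).leaf := by
      funext v
      refine toList_ext (ha i v) (ha' i v) fun k hk => ?_
      have := congrFun h3 ⟨⟨i, v⟩, ⟨k, hk⟩⟩
      simp only [lg, dat_mk] at this
      exact this
    have e3 : (D i).sgn = (D' i).sgn := by
      funext v
      have := congrFun h1 ⟨i, v⟩
      simp only [sg, dat_mk] at this
      exact this
    have e4 : (D i).wt = (D' i).wt := by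
      funext v w
      by_cases hvw : (G i).Adj v w
      · have := congrFun h2 ⟨⟨i, v, w⟩, hvw⟩
        simp only [wg, dat_mk] at this
        exact this
      · rw [(h i).off v w (by rw [mem_nbr, hg]; exact hvw),
          (h' i).off v w (by rw [mem_nbr, hg']; exact hvw)]
    cases hD : D i
    cases hD' : D' i
    rw [hD, hD'] at e1 e2 e3 e4
    simp only at e1 e2 e3 e4
    subst e1 e2 e3 e4
    rfl
  funext i
  simp only [Prime.mk.injEq, heq_eq_eq, true_and]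
  exact key i

theorem fam_card {X : ℕ} (T : Set (ι → Prime)) (hT : T ⊆ Fam G a X)
    (L : Finset (Lf a → ℕ)) (hL : ∀ P ∈ T, lg a P ∈ L) :
    T.Finite ∧ T.ncard ≤ 2 ^ Fintype.card (Vx n) * (2 * X + 1) ^ Fintype.card (Dt G) * L.card := by
  classical
  let S1 : Finset (Vx n → ℤ) := Fintype.piFinset fun _ => {1, -1}
  let S2 : Finset (Dt G → ℤ) := Fintype.piFinset fun _ => Icc (-(X : ℤ)) X
  let f : (ι → Prime) → (Vx n → ℤ) × (Dt G → ℤ) × (Lf a → ℕ) := fun P => (sg n P, wg G P, lg a P)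
  have hinj : Set.InjOn f T := by
    intro P hP P' hP' h
    simp only [f, Prod.mk.injEq] at h
    exact fam_inj (hT hP) (hT hP') h.1 h.2.1 h.2.2
  have hmap : Set.MapsTo f T (S1 ×ˢ (S2 ×ˢ L) : Finset _) := by
    intro P hP
    have hL' := hL P hP
    obtain ⟨D, h, rfl, hg, ha, hl, hw⟩ := fam_mem (hT hP)
    rw [mem_coe, mem_product, mem_product]
    refine ⟨?_, ?_, hL'⟩
    · rw [Fintype.mem_piFinset]
      intro v
      simp only [f, sg, dat_mk, mem_insert, mem_singleton]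
      exact (h v.1).sign v.2
    · rw [Fintype.mem_piFinset]
      intro d
      simp only [f, wg, dat_mk, mem_Icc]
      exact abs_le.1 (hw d.1.1 d.1.2.1 d.1.2.2)
  have hfin : T.Finite := Set.Finite.of_injOn hmap hinj (finite_toSet _)
  refine ⟨hfin, ?_⟩
  have h1 := Set.ncard_le_ncard_of_injOn f hmap hinj (finite_toSet _)
  rw [Set.ncard_coe_finset, card_product, card_product, Fintype.card_piFinset,
    Fintype.card_piFinset] at h1
  have h2 : (∏ _v : Vx n, ({1, -1} : Finset ℤ).card) = 2 ^ Fintype.card (Vx n) := by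
    rw [prod_const, card_univ]
    rfl
  have h3 : (∏ _d : Dt G, (Icc (-(X : ℤ)) X).card) = (2 * X + 1) ^ Fintype.card (Dt G) := by
    rw [prod_const, card_univ, Int.card_Icc]
    congr 1
    omega
  rw [h2, h3] at h1
  rw [mul_assoc]
  exact h1

omit [Fintype ι] [DecidableEq ι] in
theorem lg_mem {X : ℕ} {P : ι → Prime} (hP : P ∈ Fam G a X) (j : Lf a) :
    1 ≤ lg a P j ∧ lg a P j ≤ X := by
  obtain ⟨D, h, rfl, hg, ha, hl, hw⟩ := fam_mem hP
  have h1 : lg a (fun i => (⟨n i, D i, h i⟩ : Prime)) j ∈ (D j.1.1).leaf j.1.2 := by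
    simp only [lg, dat_mk]
    refine toList_getD_mem ?_
    rw [ha]
    exact j.2.2
  refine ⟨?_, hl _ _ _ h1⟩
  have := (h j.1.1).two_le _ _ h1
  omega

theorem fam_finite (X : ℕ) : (Fam G a X).Finite :=
  (fam_card (Fam G a X) subset_rfl (Fintype.piFinset fun _ => Icc 1 X) fun P hP => by
    rw [Fintype.mem_piFinset]
    exact fun j => mem_Icc.2 (lg_mem hP j)).1

omit [DecidableEq ι] in
theorem bad_lg {X : ℕ} {P : ι → Prime} (hP : P ∈ Fam G a X) (hb : ¬ GenH P) :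
    ∃ j : Lf a, ∀ l : ℕ, l.Prime → 4 ^ ((∑ v : Vx n, a v.1 v.2) + 3) ≤ l → l ∣ lg a P j →
      ∃ j', j' ≠ j ∧ l ∣ lg a P j' := by
  obtain ⟨D, h, rfl, hg, ha, hl, hw⟩ := fam_mem hP
  have h1 : ∃ i v, ((D i).leaf v).Nonempty ∧ ∀ l : ℕ, l.Prime →
      4 ^ (((D i).leaf v).card + 3) ≤ l → (∃ p ∈ (D i).leaf v, l ∣ p) →
      ∃ (j : ι) (x : Fin (n j + 1)), (⟨j, x⟩ : Vx n) ≠ ⟨i, v⟩ ∧ ∃ p ∈ (D j).leaf x, l ∣ p := by
    by_contra hcon
    push Not at hcon
    refine hb ⟨fun i v hv => ?_⟩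
    obtain ⟨l, hlp, hl4, hl1, hl2⟩ := hcon i v hv
    refine ⟨l, 1, hlp, hl4, le_rfl, ?_, fun j x hjx p hp => ?_⟩
    · rw [pow_one]
      exact hl1
    · rw [pow_one]
      exact hl2 j x hjx p hp
  obtain ⟨i, v, hv, h2⟩ := h1
  have hav : 0 < a i v := by
    rw [← ha]
    exact card_pos.2 hv
  have hlg : ∀ j : Lf a, lg a (fun i => (⟨n i, D i, h i⟩ : Prime)) j =
      ((D j.1.1).leaf j.1.2).toList.getD j.2 0 := fun j => by
    simp only [lg, dat_mk]
  refine ⟨⟨⟨i, v⟩, ⟨0, hav⟩⟩, fun l hlp hl4 hld => ?_⟩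
  rw [hlg] at hld
  have hc : 4 ^ (((D i).leaf v).card + 3) ≤ l := by
    refine le_trans (Nat.pow_le_pow_right (by norm_num) ?_) hl4
    rw [ha]
    have h3 : a i v ≤ ∑ v : Vx n, a v.1 v.2 :=
      single_le_sum (f := fun v : Vx n => a v.1 v.2) (s := univ)
        (fun _ _ => Nat.zero_le _) (mem_univ ⟨i, v⟩)
    omega
  obtain ⟨j, x, hne, p, hp, hlp'⟩ := h2 l hlp hc ⟨_, toList_getD_mem (card_pos.2 hv), hld⟩
  obtain ⟨k, hk, hkp⟩ := List.mem_iff_getElem.1 (mem_toList.2 hp)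
  refine ⟨⟨⟨j, x⟩, ⟨k, by rwa [length_toList, ha] at hk⟩⟩, ?_, ?_⟩
  · intro he
    exact hne (congrArg Sigma.fst he)
  · rw [hlg]
    show l ∣ ((D j).leaf x).toList.getD k 0
    rw [List.getD_eq_getElem _ _ hk, hkp]
    exact hlp'

omit [DecidableEq ι] in
/-- the number of the families is at least a constant times the number of the tuples of weights -/
theorem fam_lower (hG : ∀ i, (G i).IsTree) (ha : ∀ i v, 3 ≤ a i v + dg (G i) v) :
    ∃ c : ℝ, 0 < c ∧ ∃ X₀ : ℕ, ∀ X : ℕ, X₀ ≤ X →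
      c * (X : ℝ) ^ Fintype.card (Lf a ⊕ Dt G) ≤ ((Fam G a X).ncard : ℝ) := by
  classical
  obtain ⟨c, hc, X₀, hX₀⟩ := many_coprime (Lf a ⊕ Dt G)
  refine ⟨c, hc, X₀, fun X hX => ?_⟩
  obtain ⟨S, h1, h2, h3, h4⟩ := hX₀ X hX
  refine h1.trans ?_
  let yy : ((Lf a ⊕ Dt G) → ℕ) → ∀ i, (Σ v, Fin (a i v)) → ℕ := fun x i k =>
    x (Sum.inl ⟨⟨i, k.1⟩, k.2⟩)
  let zz : ((Lf a ⊕ Dt G) → ℕ) → ∀ i, Fin (n i + 1) → Fin (n i + 1) → ℕ := fun x i v w =>
    if h : (G i).Adj v w then x (Sum.inr ⟨⟨i, v, w⟩, h⟩) else 0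
  have hzz : ∀ x i v w (h : (G i).Adj v w), zz x i v w = x (Sum.inr ⟨⟨i, v, w⟩, h⟩) :=
    fun x i v w h => dif_pos h
  have hgr : ∀ x ∈ S, ∀ i, (mkD (G i) (a i) (yy x i) (zz x i)).IsGraph := by
    intro x hx i
    refine mkD_isGraph (hG i) (ha i) (fun k => (h2 x hx _).1) (fun v w h => ?_)
      (fun k l hkl => ?_) (fun k v w h => ?_) fun v w u h h' hwu => ?_
    · rw [hzz x i v w h]
      exact (h2 x hx _).1
    · refine h3 x hx _ _ fun he => hkl ?_
      obtain ⟨k1, k2⟩ := k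
      obtain ⟨l1, l2⟩ := l
      simp only [Sum.inl.injEq] at he
      have e1 := Sigma.mk.inj he
      obtain ⟨e2, e3⟩ := e1
      have e4 := eq_of_heq (Sigma.mk.inj e2).2
      subst e4
      rw [eq_of_heq e3]
    · rw [hzz x i v w h]
      exact h3 x hx _ _ Sum.inl_ne_inr
    · rw [hzz x i v w h, hzz x i v u h']
      refine h3 x hx _ _ fun he => hwu ?_
      rw [Sum.inr.injEq, Subtype.mk.injEq] at he
      have e1 := eq_of_heq (Sigma.mk.inj he).2
      exact (Prod.mk.inj e1).2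
  let f : {x // x ∈ S} → ι → Prime := fun x i => ⟨n i, _, hgr x.1 x.2 i⟩
  have hmap : Set.MapsTo f Set.univ (Fam G a X) := by
    intro x _ i
    refine ⟨_, hgr x.1 x.2 i, rfl, rfl, fun v => ?_, fun v p hp => ?_, fun v w => ?_⟩
    · show (univ.image fun k : Fin (a i v) => yy x.1 i ⟨v, k⟩).card = a i v
      rw [card_image_of_injective, card_univ, Fintype.card_fin]
      intro k l hkl
      have e1 := h4 x.1 x.2 x.1 x.2 _ _ hkl
      rw [Sum.inl.injEq] at e1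
      exact eq_of_heq (Sigma.mk.inj e1).2
    · have hp' : p ∈ (univ.image fun k : Fin (a i v) => yy x.1 i ⟨v, k⟩) := hp
      obtain ⟨k, -, rfl⟩ := mem_image.1 hp'
      exact (h2 x.1 x.2 _).2
    · show |(if (G i).Adj v w then (zz x.1 i v w : ℤ) else 0)| ≤ (X : ℤ)
      by_cases h : (G i).Adj v w
      · rw [if_pos h, hzz x.1 i v w h, Nat.abs_cast]
        exact_mod_cast (h2 x.1 x.2 _).2
      · rw [if_neg h, abs_zero]
        positivity
  have hinj : Set.InjOn f Set.univ := by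
    rintro ⟨x, hx⟩ _ ⟨x', hx'⟩ _ h
    have e0 : ∀ i, mkD (G i) (a i) (yy x i) (zz x i) = mkD (G i) (a i) (yy x' i) (zz x' i) :=
      fun i => eq_of_heq (Prime.mk.inj (congrFun h i)).2
    refine Subtype.ext (funext fun j => ?_)
    rcases j with ⟨⟨i, v⟩, k⟩ | ⟨⟨i, v, w⟩, hvw⟩
    · have e1 : (univ.image fun k : Fin (a i v) => yy x i ⟨v, k⟩) =
          (univ.image fun k : Fin (a i v) => yy x' i ⟨v, k⟩) :=
        congrFun (congrArg Data.leaf (e0 i)) v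
      have e2 : yy x i ⟨v, k⟩ ∈ (univ.image fun k : Fin (a i v) => yy x' i ⟨v, k⟩) := by
        rw [← e1]
        exact mem_image_of_mem _ (mem_univ k)
      obtain ⟨k', -, e3⟩ := mem_image.1 e2
      have e4 := h4 x' hx' x hx _ _ e3
      have e5 : x' (Sum.inl ⟨⟨i, v⟩, k'⟩) = x (Sum.inl ⟨⟨i, v⟩, k⟩) := e3
      rw [e4] at e5
      exact e5.symm
    · have e1 : (if (G i).Adj v w then (zz x i v w : ℤ) else 0) =
          (if (G i).Adj v w then (zz x' i v w : ℤ) else 0) :=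
        congrFun (congrFun (congrArg Data.wt (e0 i)) v) w
      have hvw' : (G i).Adj v w := hvw
      rw [if_pos hvw', if_pos hvw', hzz x i v w hvw', hzz x' i v w hvw'] at e1
      exact_mod_cast e1
  have hn := Set.ncard_le_ncard_of_injOn f hmap hinj (fam_finite X)
  rw [Set.ncard_univ, Nat.card_eq_fintype_card, Fintype.card_coe] at hn
  exact_mod_cast hn

/-- the families which are not generic are few compared to the number of all tuples of weights -/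
theorem bad_count (n : ι → ℕ) (G : ∀ i, SimpleGraph (Fin (n i + 1)))
    (a : ∀ i, Fin (n i + 1) → ℕ) {ε : ℝ} (hε : 0 < ε) : ∃ X₀ : ℕ, ∀ X : ℕ, X₀ ≤ X →
      (({P : ι → Prime | P ∈ Fam G a X ∧ ¬ GenH P}.ncard : ℝ)) ≤
        ε * (X : ℝ) ^ (Fintype.card (Lf a) + Fintype.card (Dt G)) := by
  classical
  set p := Fintype.card (Vx n) with hp
  set q := Fintype.card (Dt G) with hq
  set t := Fintype.card (Lf a) with ht
  set δ : ℝ := ε / (2 ^ p * 3 ^ q) with hδ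
  have hδ0 : 0 < δ := by positivity
  obtain ⟨X₂, hX₂⟩ := few_bad (Lf a) (4 ^ ((∑ v : Vx n, a v.1 v.2) + 3)) hδ0
  refine ⟨X₂ + 1, fun X hX => ?_⟩
  have hX0 : (1 : ℝ) ≤ X := by
    have : 1 ≤ X := by omega
    exact_mod_cast this
  set F := Fam G a X with hF
  set B : Set (ι → Prime) := {P | P ∈ F ∧ ¬ GenH P} with hB
  let L : Finset (Lf a → ℕ) := (Fintype.piFinset fun _ : Lf a => Icc 1 X).filter fun x =>
    ∃ j, ∀ l : ℕ, l.Prime → 4 ^ ((∑ v : Vx n, a v.1 v.2) + 3) ≤ l → l ∣ x j →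
      ∃ j', j' ≠ j ∧ l ∣ x j'
  have hLB := hX₂ X (by omega) L (fun x hx j => by
    have h1 := (Fintype.mem_piFinset.1 (mem_filter.1 hx).1) j
    exact mem_Icc.1 h1) (fun x hx => (mem_filter.1 hx).2)
  have hBc := (fam_card B (fun P hP => hP.1) L fun P hP => by
    refine mem_filter.2 ⟨?_, bad_lg hP.1 hP.2⟩
    rw [Fintype.mem_piFinset]
    exact fun j => mem_Icc.2 (lg_mem hP.1 j)).2
  have hBr : (B.ncard : ℝ) ≤ 2 ^ p * (2 * X + 1) ^ q * (δ * (X : ℝ) ^ t) := by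
    have h1 : (B.ncard : ℝ) ≤ 2 ^ p * (2 * X + 1) ^ q * (L.card : ℝ) := by exact_mod_cast hBc
    exact h1.trans (mul_le_mul_of_nonneg_left hLB (by positivity))
  have h1 : (2 * (X : ℝ) + 1) ^ q ≤ 3 ^ q * (X : ℝ) ^ q := by
    rw [← mul_pow]
    exact pow_le_pow_left₀ (by positivity) (by linarith) q
  have h2 : (2 : ℝ) ^ p * (2 * X + 1) ^ q * (δ * (X : ℝ) ^ t) ≤
      2 ^ p * (3 ^ q * (X : ℝ) ^ q) * (δ * (X : ℝ) ^ t) :=
    mul_le_mul_of_nonneg_right (mul_le_mul_of_nonneg_left h1 (by positivity)) (by positivity)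
  have h3 : (2 : ℝ) ^ p * (3 ^ q * (X : ℝ) ^ q) * (δ * (X : ℝ) ^ t) =
      ε * (X : ℝ) ^ (t + q) := by
    rw [hδ, pow_add]
    field_simp
  rw [h3] at h2
  exact hBr.trans h2

/-- the families which are not generic are few -/
theorem bad_few (hG : ∀ i, (G i).IsTree) (ha : ∀ i v, 3 ≤ a i v + dg (G i) v) {ε : ℝ} (hε : 0 < ε) :
    ∃ X₀ : ℕ, ∀ X : ℕ, X₀ ≤ X → 0 < ((Fam G a X).ncard : ℝ) ∧
      (({P : ι → Prime | P ∈ Fam G a X ∧ ¬ GenH P}.ncard : ℝ)) ≤ ε * ((Fam G a X).ncard : ℝ) := by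
  classical
  obtain ⟨c, hc, X₁, hX₁⟩ := fam_lower hG ha
  obtain ⟨X₂, hX₂⟩ := bad_count n G a (ε := ε * c) (by positivity)
  refine ⟨X₁ + X₂ + 1, fun X hX => ?_⟩
  have hX0 : (1 : ℝ) ≤ X := by
    have : 1 ≤ X := by omega
    exact_mod_cast this
  have hlow := hX₁ X (by omega)
  have h4 : Fintype.card (Lf a ⊕ Dt G) = Fintype.card (Lf a) + Fintype.card (Dt G) := by
    rw [Fintype.card_sum]
  rw [h4] at hlow
  refine ⟨lt_of_lt_of_le (by positivity) hlow, (hX₂ X (by omega)).trans ?_⟩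
  rw [mul_assoc]
  exact mul_le_mul_of_nonneg_left hlow hε.le

omit [Fintype ι] [DecidableEq ι] in
/-- the limit of a proportion -/
theorem tendsto_one {F S : ℕ → Set (ι → Prime)} (hFfin : ∀ X, (F X).Finite)
    (hS : ∀ X, S X ⊆ F X) (h : ∀ ε : ℝ, 0 < ε → ∃ X₀ : ℕ, ∀ X : ℕ, X₀ ≤ X →
      0 < ((F X).ncard : ℝ) ∧ (((F X \ S X).ncard : ℝ)) ≤ ε * ((F X).ncard : ℝ)) :
    Tendsto (fun X : ℕ => ((S X).ncard : ℝ) / (F X).ncard) atTop (𝓝 1) := by
  rw [Metric.tendsto_atTop]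
  intro ε hε
  obtain ⟨X₀, hX₀⟩ := h (ε / 2) (by positivity)
  refine ⟨X₀, fun X hX => ?_⟩
  obtain ⟨hF0, hB⟩ := hX₀ X hX
  have hsum : ((S X).ncard : ℝ) + ((F X \ S X).ncard : ℝ) = (F X).ncard := by
    have h3 := Set.ncard_sdiff_add_ncard_of_subset (hS X) (hFfin X)
    rw [← h3]
    push_cast
    ring
  rw [Real.dist_eq]
  have h1 : ((S X).ncard : ℝ) / (F X).ncard - 1 = -(((F X \ S X).ncard : ℝ) / (F X).ncard) := by
    rw [eq_neg_iff_add_eq_zero, sub_add_eq_add_sub, ← add_div, hsum, div_self hF0.ne', sub_self]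
  rw [h1, abs_neg, abs_of_nonneg (by positivity), div_lt_iff₀ hF0]
  nlinarith

end family

end Pool.Agent.GSH.Den

namespace Pool.Agent.GSH

open Pool.Agent.OHG Pool.Agent.GSP

/-- Almost all families of prime diagrams of a given type are generic. -/
theorem density {ι : Type} [Fintype ι] [DecidableEq ι] {n : ι → ℕ}
    {G : ∀ i, SimpleGraph (Fin (n i + 1))} {a : ∀ i, Fin (n i + 1) → ℕ}
    (hG : ∀ i, (G i).IsTree) (ha : ∀ i v, 3 ≤ a i v + dg (G i) v) :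
    Tendsto (fun X : ℕ => (({P : ι → Prime | (∀ i, P i ∈ Box (G i) (a i) X) ∧ GenH P}.ncard : ℝ) /
      {P : ι → Prime | ∀ i, P i ∈ Box (G i) (a i) X}.ncard)) atTop (𝓝 1) := by
  refine Den.tendsto_one (F := fun X => Den.Fam G a X) (fun X => Den.fam_finite X)
    (fun X P hP => hP.1) fun ε hε => ?_
  obtain ⟨X₀, hX₀⟩ := Den.bad_few hG ha hε
  refine ⟨X₀, fun X hX => ⟨(hX₀ X hX).1, ?_⟩⟩
  have h1 : Den.Fam G a X \ {P : ι → Prime | (∀ i, P i ∈ Box (G i) (a i) X) ∧ GenH P} =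
      {P : ι → Prime | P ∈ Den.Fam G a X ∧ ¬ GenH P} := by
    ext P
    constructor
    · rintro ⟨h1, h2⟩
      exact ⟨h1, fun h => h2 ⟨h1, h⟩⟩
    · rintro ⟨h1, h2⟩
      exact ⟨h1, fun h => h2 h.2⟩
  rw [h1]
  exact (hX₀ X hX).2

end Pool.Agent.GSH
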