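import Pool.Agent.GSH.Main
import Pool.Agent.GSH.DenE

/-!
# Almost all families of diagrams are determined by their series
-/

set_option autoImplicit false

open Finset Filter Topology PowerSeries

namespace Pool.Agent.GSH.Den

open Pool.Agent.OHG Pool.Agent.GSP

section family

variable {ι : Type} [Fintype ι] [DecidableEq ι] {n : ι → ℕ}
  {G : ∀ i, SimpleGraph (Fin (n i + 1))} {a : ∀ i, Fin (n i + 1) → ℕ}

/-- the leaves of all nodes -/
noncomputable def fg (n : ι → ℕ) (P : ι → Prime) : Vx n → Finset ℕ :=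
  fun v => (dat (n v.1) (P v.1)).leaf v.2

/-- the families in a box which are isomorphic to a given one are boundedly many -/
theorem iso_card (n : ι → ℕ) (G : ∀ i, SimpleGraph (Fin (n i + 1)))
    (a : ∀ i, Fin (n i + 1) → ℕ) : ∃ C : ℕ, ∀ (X : ℕ) (P : ι → Prime), P ∈ Fam G a X →
      ∀ T : Set (ι → Prime), T ⊆ Fam G a X →
        (∀ Q ∈ T, ∃ e : ι ≃ ι, ∀ i, Iso (P i) (Q (e i))) → T.ncard ≤ C := by
  classical
  let W0 : Type := Σ i, Fin (n i + 1) × Fin (n i + 1)
  refine ⟨2 ^ Fintype.card (Vx n) * ((2 * Fintype.card W0) ^ Fintype.card (Dt G) *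
    Fintype.card (Vx n) ^ Fintype.card (Vx n)), fun X P hP T hT hiso => ?_⟩
  obtain ⟨D, h, rfl, hg, ha, -, -⟩ := fam_mem hP
  let A : Finset (Finset ℕ) := univ.image fun v : Vx n => (D v.1).leaf v.2
  let W : Finset ℤ := (univ.image fun d : W0 => (D d.1).wt d.2.1 d.2.2) ∪
    univ.image fun d : W0 => -(D d.1).wt d.2.1 d.2.2
  have hA : A.card ≤ Fintype.card (Vx n) := card_image_le.trans_eq card_univ
  have hW : W.card ≤ 2 * Fintype.card W0 := by
    refine (card_union_le _ _).trans ?_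
    have h1 : (univ.image fun d : W0 => (D d.1).wt d.2.1 d.2.2).card ≤ Fintype.card W0 :=
      card_image_le.trans_eq card_univ
    have h2 : (univ.image fun d : W0 => -(D d.1).wt d.2.1 d.2.2).card ≤ Fintype.card W0 :=
      card_image_le.trans_eq card_univ
    omega
  let S1 : Finset (Vx n → ℤ) := Fintype.piFinset fun _ => {1, -1}
  let S2 : Finset (Dt G → ℤ) := Fintype.piFinset fun _ => W
  let S3 : Finset (Vx n → Finset ℕ) := Fintype.piFinset fun _ => A
  let f : (ι → Prime) → (Vx n → ℤ) × (Dt G → ℤ) × (Vx n → Finset ℕ) :=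
    fun Q => (sg n Q, wg G Q, fg n Q)
  have hinj : Set.InjOn f T := by
    intro Q hQ Q' hQ' he
    simp only [f, Prod.mk.injEq] at he
    refine fam_inj (hT hQ) (hT hQ') he.1 he.2.1 (funext fun j => ?_)
    have h1 : (dat (n j.1.1) (Q j.1.1)).leaf j.1.2 = (dat (n j.1.1) (Q' j.1.1)).leaf j.1.2 :=
      congrFun he.2.2 j.1
    unfold lg
    rw [h1]
  have hmap : Set.MapsTo f T (S1 ×ˢ (S2 ×ˢ S3) : Finset _) := by
    intro Q hQ
    obtain ⟨e, he⟩ := hiso Q hQ
    obtain ⟨D', h', rfl, hg', ha', -, -⟩ := fam_mem (hT hQ)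
    rw [mem_coe, mem_product, mem_product]
    refine ⟨?_, ?_, ?_⟩
    · rw [Fintype.mem_piFinset]
      intro v
      simp only [f, sg, dat_mk, mem_insert, mem_singleton]
      exact (h' v.1).sign v.2
    · rw [Fintype.mem_piFinset]
      rintro ⟨⟨j, u, w⟩, hd⟩
      simp only [f, wg, dat_mk]
      obtain ⟨i, rfl⟩ := e.surjective j
      obtain ⟨g, η, -, -, h1, h2, -⟩ := he i
      obtain ⟨v, rfl⟩ := g.surjective u
      obtain ⟨x, rfl⟩ := g.surjective w
      have h3 : (D' (e i)).wt (g v) (g x) = η v x * (D i).wt v x := h2 v x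
      rw [mem_union]
      rcases h1 v x with h4 | h4
      · refine Or.inl (mem_image.2 ⟨⟨i, v, x⟩, mem_univ _, ?_⟩)
        rw [h3, h4, one_mul]
      · refine Or.inr (mem_image.2 ⟨⟨i, v, x⟩, mem_univ _, ?_⟩)
        rw [h3, h4, neg_one_mul]
    · rw [Fintype.mem_piFinset]
      rintro ⟨j, u⟩
      simp only [f, fg, dat_mk]
      obtain ⟨i, rfl⟩ := e.surjective j
      obtain ⟨g, η, -, h0, -, -, -⟩ := he i
      obtain ⟨v, rfl⟩ := g.surjective u
      have h3 : (D' (e i)).leaf (g v) = (D i).leaf v := h0 v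
      exact mem_image.2 ⟨⟨i, v⟩, mem_univ _, h3.symm⟩
  have h1 := Set.ncard_le_ncard_of_injOn f hmap hinj (finite_toSet _)
  rw [Set.ncard_coe_finset, card_product, card_product, Fintype.card_piFinset,
    Fintype.card_piFinset, Fintype.card_piFinset] at h1
  have h2 : (∏ _v : Vx n, ({1, -1} : Finset ℤ).card) = 2 ^ Fintype.card (Vx n) := by
    rw [prod_const, card_univ]
    rfl
  have h3 : (∏ _d : Dt G, W.card) = W.card ^ Fintype.card (Dt G) := by
    rw [prod_const, card_univ]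
  have h4 : (∏ _d : Vx n, A.card) = A.card ^ Fintype.card (Vx n) := by
    rw [prod_const, card_univ]
  rw [h2, h3, h4] at h1
  exact h1.trans (Nat.mul_le_mul_left _ (Nat.mul_le_mul (Nat.pow_le_pow_left hW _)
    (Nat.pow_le_pow_left hA _)))

omit [Fintype ι] [DecidableEq ι] in
theorem series_shift {κ κ' : ℝ} {M M' : Multiset Prime} (c : ℝ) (h : series κ M = series κ' M') :
    series (κ + c) M = series (κ' + c) M' := by
  unfold series at h ⊢
  rw [← exp_mul_exp_eq_exp_add, ← exp_mul_exp_eq_exp_add, mul_right_comm, h, mul_right_comm]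

end family

end Pool.Agent.GSH.Den

namespace Pool.Agent.GSH

open Pool.Agent.OHG Pool.Agent.GSP

/-- Almost all families of prime diagrams of a given type are generic and are determined by their
series among all families of this type with weights of the same size. -/
theorem density_det {ι : Type} [Fintype ι] [DecidableEq ι] {n : ι → ℕ}
    {G : ∀ i, SimpleGraph (Fin (n i + 1))} {a : ∀ i, Fin (n i + 1) → ℕ}
    (hG : ∀ i, (G i).IsTree) (ha : ∀ i v, 3 ≤ a i v + dg (G i) v) :
    Tendsto (fun X : ℕ => (({P : ι → Prime | (∀ i, P i ∈ Box (G i) (a i) X) ∧ GenH P ∧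
        ∀ (κ κ' : ℝ) (P' : ι → Prime), (∀ i, P' i ∈ Box (G i) (a i) X) →
          series κ (univ.val.map P) = series κ' (univ.val.map P') →
          ∃ e : ι ≃ ι, ∀ i, Iso (P i) (P' (e i))}.ncard : ℝ) /
      {P : ι → Prime | ∀ i, P i ∈ Box (G i) (a i) X}.ncard)) atTop (𝓝 1) := by
  classical
  obtain ⟨C, hC⟩ := Den.iso_card n G a
  refine Den.tendsto_one (F := fun X => Den.Fam G a X) (fun X => Den.fam_finite X)
    (fun X P hP => hP.1) fun ε hε => ?_
  obtain ⟨X₀, hX₀⟩ := Den.bad_few hG ha (ε := ε / (1 + C)) (by positivity)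
  refine ⟨X₀, fun X hX => ⟨(hX₀ X hX).1, ?_⟩⟩
  set F := Den.Fam G a X with hF
  have hFfin : F.Finite := Den.fam_finite X
  set B : Set (ι → Prime) := {P | P ∈ F ∧ ¬ GenH P} with hB
  have hBfin : B.Finite := hFfin.subset fun P hP => hP.1
  have hBc : (B.ncard : ℝ) ≤ ε / (1 + C) * F.ncard := (hX₀ X hX).2
  set E : Set (ι → Prime) := {P | P ∈ F ∧ GenH P ∧ ∃ (κ κ' : ℝ) (P' : ι → Prime), P' ∈ B ∧
    series κ (univ.val.map P) = series κ' (univ.val.map P')} with hE
  have hEfin : E.Finite := hFfin.subset fun P hP => hP.1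
  have hsub : F \ {P : ι → Prime | (∀ i, P i ∈ Box (G i) (a i) X) ∧ GenH P ∧
        ∀ (κ κ' : ℝ) (P' : ι → Prime), (∀ i, P' i ∈ Box (G i) (a i) X) →
          series κ (univ.val.map P) = series κ' (univ.val.map P') →
          ∃ e : ι ≃ ι, ∀ i, Iso (P i) (P' (e i))} ⊆ B ∪ E := by
    rintro P ⟨h1, h2⟩
    by_cases hg : GenH P
    · right
      by_contra h3
      refine h2 ⟨h1, hg, fun κ κ' P' hP' hs => ?_⟩
      by_cases hg' : GenH P'
      · exact (separationH hg hg' hs).2
      · exact absurd ⟨h1, hg, κ, κ', P', ⟨hP', hg'⟩, hs⟩ h3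
    · exact Or.inl ⟨h1, hg⟩
  -- the collisions with families which are not generic
  have hEc : E.ncard ≤ C * B.ncard := by
    have hex : ∀ P : ι → Prime, ∃ P' : ι → Prime, P ∈ E → P' ∈ B ∧ ∃ κ κ' : ℝ,
        series κ (univ.val.map P) = series κ' (univ.val.map P') := by
      intro P
      by_cases hP : P ∈ E
      · obtain ⟨-, -, κ, κ', P', h1, h2⟩ := hP
        exact ⟨P', fun _ => ⟨h1, κ, κ', h2⟩⟩
      · exact ⟨P, fun h => absurd h hP⟩
    choose φ hφ using hex
    rw [Set.ncard_eq_toFinset_card E hEfin, Set.ncard_eq_toFinset_card B hBfin]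
    have h1 : (hEfin.toFinset.image φ) ⊆ hBfin.toFinset := by
      intro b hb
      obtain ⟨P, hP, rfl⟩ := mem_image.1 hb
      rw [Set.Finite.mem_toFinset] at hP ⊢
      exact (hφ P hP).1
    refine (card_le_mul_card_image (f := φ) hEfin.toFinset C fun b hb => ?_).trans
      (Nat.mul_le_mul_left _ (card_le_card h1))
    obtain ⟨P₀, hP₀, rfl⟩ := mem_image.1 hb
    rw [Set.Finite.mem_toFinset] at hP₀
    have h2 := hC X P₀ hP₀.1 {Q | Q ∈ E ∧ φ Q = φ P₀} (fun Q hQ => hQ.1.1) fun Q hQ => by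
      obtain ⟨κ₁, κ₁', e1⟩ := (hφ P₀ hP₀).2
      obtain ⟨κ₂, κ₂', e2⟩ := (hφ Q hQ.1).2
      rw [hQ.2] at e2
      have e3 := Den.series_shift (κ₂' - κ₁') e1
      rw [add_sub_cancel, ← e2] at e3
      exact (separationH hP₀.2.1 hQ.1.2.1 e3).2
    rw [← Set.ncard_coe_finset]
    refine le_trans (le_of_eq ?_) h2
    congr 1
    ext Q
    simp [Set.Finite.mem_toFinset]
  have h3 := Set.ncard_le_ncard hsub (hBfin.union hEfin)
  have h4 := Set.ncard_union_le B E
  have h5 : ((F \ {P : ι → Prime | (∀ i, P i ∈ Box (G i) (a i) X) ∧ GenH P ∧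
        ∀ (κ κ' : ℝ) (P' : ι → Prime), (∀ i, P' i ∈ Box (G i) (a i) X) →
          series κ (univ.val.map P) = series κ' (univ.val.map P') →
          ∃ e : ι ≃ ι, ∀ i, Iso (P i) (P' (e i))}).ncard : ℝ) ≤ (1 + C) * B.ncard := by
    have h6 := (h3.trans h4).trans (Nat.add_le_add_left hEc B.ncard)
    have h7 : B.ncard + C * B.ncard = (1 + C) * B.ncard := by ring
    rw [h7] at h6
    exact_mod_cast h6
  refine h5.trans ?_
  have hC0 : (0 : ℝ) < 1 + C := by positivity
  calc (1 + C : ℝ) * B.ncard ≤ (1 + C) * (ε / (1 + C) * F.ncard) :=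
        mul_le_mul_of_nonneg_left hBc hC0.le
    _ = ε * F.ncard := by
        field_simp

end Pool.Agent.GSH
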