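import Pool.Agent.GSH.DenF

/-!
# Almost all families of diagrams are determined by their series among all smaller families
-/

set_option autoImplicit false

open Finset Filter Topology PowerSeries

namespace Pool.Agent.GSH.Den

open Pool.Agent.OHG Pool.Agent.GSP Pool.Agent.GPC

section family

variable {ι : Type} [Fintype ι] [DecidableEq ι] {n : ι → ℕ}
  {G : ∀ i, SimpleGraph (Fin (n i + 1))} {a : ∀ i, Fin (n i + 1) → ℕ}

omit [DecidableEq ι] in
/-- the number of the weights of the edges -/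
theorem card_Dt (hG : ∀ i, (G i).IsTree) : Fintype.card (Dt G) = 2 * ∑ i, n i := by
  classical
  let e : Dt G ≃ Σ i, {x : Fin (n i + 1) × Fin (n i + 1) // (G i).Adj x.1 x.2} :=
    { toFun := fun d => ⟨d.1.1, ⟨d.1.2, d.2⟩⟩
      invFun := fun d => ⟨⟨d.1, d.2.1⟩, d.2.2⟩
      left_inv := fun d => rfl
      right_inv := fun d => rfl }
  rw [Fintype.card_congr e, Fintype.card_sigma, mul_sum]
  refine sum_congr rfl fun i _ => ?_
  have h1 := (hG i).card_edgeFinset
  rw [Fintype.card_fin] at h1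
  have h2 : 2 * (G i).edgeFinset.card =
      Fintype.card {x : Fin (n i + 1) × Fin (n i + 1) // (G i).Adj x.1 x.2} := by
    rw [SimpleGraph.two_mul_card_edgeFinset, Fintype.card_subtype]
  omega

private theorem ncard_biUnion_le {α β : Type} (s : Finset α) (S : α → Set β) :
    (⋃ τ ∈ s, S τ).ncard ≤ ∑ τ ∈ s, (S τ).ncard := by
  classical
  induction s using Finset.induction_on with
  | empty => simp
  | insert a s h ih =>
    rw [Finset.set_biUnion_insert, sum_insert h]
    exact (Set.ncard_union_le _ _).trans (Nat.add_le_add_left ih _)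

omit [DecidableEq ι] in
/-- the number of the leaves -/
theorem card_Lf : Fintype.card (Lf a) = ∑ i, ∑ v, a i v := by
  rw [Fintype.card_sigma, Fintype.sum_sigma]
  simp

/-- the types of the families with at most `N` nodes in each member and at most `L` leaves at each
node -/
abbrev Ty (ι : Type) (N L : ℕ) : Type :=
  Σ n : ι → Fin N, (∀ i, SimpleGraph (Fin ((n i : ℕ) + 1))) × (∀ i, Fin ((n i : ℕ) + 1) → Fin (L + 1))

instance (N L : ℕ) : Finite (Ty ι N L) := by
  classical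
  infer_instance

/-- the small families with `N` nodes which are not generic -/
def BadAll (ι : Type) [Fintype ι] (N X L : ℕ) : Set (ι → Prime) :=
  {P | ∑ i, ((P i).n + 1) = N ∧ Small X L P ∧ ¬ GenH P}

theorem badAll_few (N L R : ℕ) (hR : L + 2 * (N - Fintype.card ι) ≤ R) {ε : ℝ} (hε : 0 < ε) :
    ∃ X₀ : ℕ, ∀ X : ℕ, X₀ ≤ X → (BadAll ι N X L).Finite ∧
      ((BadAll ι N X L).ncard : ℝ) ≤ ε * (X : ℝ) ^ R := by
  classical
  have hfin : Finite (Ty ι N L) := inferInstance
  let _ : Fintype (Ty ι N L) := Fintype.ofFinite _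
  set m := Fintype.card (Ty ι N L) with hm
  set δ : ℝ := ε / (m + 1) with hδ
  have hδ0 : 0 < δ := by positivity
  have h1 : ∀ τ : Ty ι N L, ∃ X₀ : ℕ, ∀ X : ℕ, X₀ ≤ X →
      (({P : ι → Prime | P ∈ Fam τ.2.1 (fun i v => ((τ.2.2 i v : ℕ))) X ∧ ¬ GenH P}.ncard : ℝ)) ≤
        δ * (X : ℝ) ^ (Fintype.card (Lf fun i v => ((τ.2.2 i v : ℕ))) +
          Fintype.card (Dt τ.2.1)) := fun τ =>
    bad_count (fun i => (τ.1 i : ℕ)) τ.2.1 (fun i v => ((τ.2.2 i v : ℕ))) hδ0
  choose X₁ hX₁ using h1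
  refine ⟨(∑ τ, X₁ τ) + 1, fun X hX => ?_⟩
  have hX0 : (1 : ℝ) ≤ X := by
    have : 1 ≤ X := by omega
    exact_mod_cast this
  let 𝒯 : Finset (Ty ι N L) := univ.filter fun τ =>
    Fintype.card (Lf fun i v => ((τ.2.2 i v : ℕ))) + Fintype.card (Dt τ.2.1) ≤ R
  let S : Ty ι N L → Set (ι → Prime) := fun τ =>
    {P : ι → Prime | P ∈ Fam τ.2.1 (fun i v => ((τ.2.2 i v : ℕ))) X ∧ ¬ GenH P}
  have hSfin : ∀ τ, (S τ).Finite := fun τ => (fam_finite X).subset fun P hP => hP.1
  have hsub : BadAll ι N X L ⊆ ⋃ τ ∈ 𝒯, S τ := by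
    rintro P ⟨hN, hsm, hg⟩
    have hn : ∀ i, (P i).n < N := by
      intro i
      have h2 := single_le_sum (f := fun i => (P i).n + 1) (s := univ) (fun _ _ => Nat.zero_le _)
        (mem_univ i)
      omega
    have hL : ∀ i v, ((P i).D.leaf v).card < L + 1 := by
      intro i v
      have h2 := single_le_sum (f := fun v => ((P i).D.leaf v).card) (s := univ)
        (fun _ _ => Nat.zero_le _) (mem_univ v)
      have h3 := single_le_sum (f := fun i => ∑ v, ((P i).D.leaf v).card) (s := univ)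
        (fun _ _ => Nat.zero_le _) (mem_univ i)
      have h4 := hsm.2.2
      omega
    let τ : Ty ι N L := ⟨fun i => ⟨(P i).n, hn i⟩, fun i => (P i).D.graph,
      fun i v => ⟨((P i).D.leaf v).card, hL i v⟩⟩
    have hP : P ∈ Fam τ.2.1 (fun i v => ((τ.2.2 i v : ℕ))) X := fun i =>
      ⟨(P i).D, (P i).isGraph, rfl, rfl, fun v => rfl, hsm.1 i, hsm.2.1 i⟩
    have hcard : Fintype.card (Lf fun i v => ((τ.2.2 i v : ℕ))) + Fintype.card (Dt τ.2.1) ≤ R := by
      have h2 : Fintype.card (Dt τ.2.1) = 2 * ∑ i, (P i).n :=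
        card_Dt (n := fun i => ((τ.1 i : ℕ))) fun i => (P i).isGraph.tree
      have h3 : Fintype.card (Lf fun i v => ((τ.2.2 i v : ℕ))) =
          ∑ i, ∑ v, ((P i).D.leaf v).card :=
        card_Lf (n := fun i => ((τ.1 i : ℕ))) (a := fun i v => ((τ.2.2 i v : ℕ)))
      rw [h2, h3]
      have h4 := hsm.2.2
      have h5 : ∑ i, ((P i).n + 1) = (∑ i, (P i).n) + Fintype.card ι := by
        rw [sum_add_distrib, sum_const, smul_eq_mul, mul_one, card_univ]
      omega
    exact Set.mem_biUnion (x := τ) (by simpa [𝒯] using hcard) ⟨hP, hg⟩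
  have hUfin : (⋃ τ ∈ 𝒯, S τ).Finite := Set.Finite.biUnion (finite_toSet 𝒯) fun τ _ => hSfin τ
  refine ⟨hUfin.subset hsub, ?_⟩
  have h2 : ((BadAll ι N X L).ncard : ℝ) ≤ ∑ τ ∈ 𝒯, ((S τ).ncard : ℝ) := by
    have h3 := (Set.ncard_le_ncard hsub hUfin)
    have h4 : (⋃ τ ∈ 𝒯, S τ).ncard ≤ ∑ τ ∈ 𝒯, (S τ).ncard := ncard_biUnion_le 𝒯 S
    exact_mod_cast h3.trans h4
  have h5 : ∀ τ ∈ 𝒯, ((S τ).ncard : ℝ) ≤ δ * (X : ℝ) ^ R := by
    intro τ hτ
    have h6 : X₁ τ ≤ X := by
      have := single_le_sum (f := X₁) (s := univ) (fun _ _ => Nat.zero_le _) (mem_univ τ)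
      omega
    refine (hX₁ τ X h6).trans (mul_le_mul_of_nonneg_left ?_ hδ0.le)
    exact pow_le_pow_right₀ hX0 (by simpa [𝒯] using hτ)
  calc ((BadAll ι N X L).ncard : ℝ) ≤ ∑ τ ∈ 𝒯, ((S τ).ncard : ℝ) := h2
    _ ≤ ∑ _τ ∈ 𝒯, δ * (X : ℝ) ^ R := sum_le_sum h5
    _ = 𝒯.card * (δ * (X : ℝ) ^ R) := by rw [sum_const, nsmul_eq_mul]
    _ ≤ (m + 1) * (δ * (X : ℝ) ^ R) := by
        refine mul_le_mul_of_nonneg_right ?_ (by positivity)
        have : 𝒯.card ≤ m := card_le_univ _
        have h7 : (𝒯.card : ℝ) ≤ m := by exact_mod_cast this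
        linarith
    _ = ε * (X : ℝ) ^ R := by
        rw [hδ]
        field_simp

omit [DecidableEq ι] in
theorem map_reindex {ι' : Type} [Fintype ι'] (P : ι' → Prime) (e : ι ≃ ι') :
    (univ.val.map fun i => P (e i)) = univ.val.map P := by
  have h1 : (univ.val.map fun i => P (e i)) = (univ.val.map e).map P := by
    rw [Multiset.map_map]
    rfl
  have h2 : (univ : Finset ι).val.map e = (univ : Finset ι').val := by
    rw [← map_univ_equiv e]
    rfl
  rw [h1, h2]

end family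

end Pool.Agent.GSH.Den

namespace Pool.Agent.GSH

open Pool.Agent.OHG Pool.Agent.GSP Pool.Agent.GPC

/-- Almost all families of prime diagrams of a given type are generic and are determined by their
series among all families with weights at most `K` times as large and not more leaves. -/
theorem density_all {ι : Type} [Fintype ι] [DecidableEq ι] {n : ι → ℕ}
    {G : ∀ i, SimpleGraph (Fin (n i + 1))} {a : ∀ i, Fin (n i + 1) → ℕ}
    (hG : ∀ i, (G i).IsTree) (ha : ∀ i v, 3 ≤ a i v + dg (G i) v) (K : ℕ) :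
    Tendsto (fun X : ℕ => (({P : ι → Prime | (∀ i, P i ∈ Box (G i) (a i) X) ∧ GenH P ∧
        ∀ {ι' : Type} [Fintype ι'] {κ κ' : ℝ} {P' : ι' → Prime},
          Small (K * X) (∑ i, ∑ v, a i v) P' →
          series κ (univ.val.map P) = series κ' (univ.val.map P') →
          κ = κ' ∧ ∃ e : ι ≃ ι', ∀ i, Iso (P i) (P' (e i))}.ncard : ℝ) /
      {P : ι → Prime | ∀ i, P i ∈ Box (G i) (a i) X}.ncard)) atTop (𝓝 1) := by
  classical
  obtain ⟨C, hC⟩ := Den.iso_card n G a
  set L := ∑ i, ∑ v, a i v with hL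
  set N := ∑ i, (n i + 1) with hN
  have hR : L + 2 * (N - Fintype.card ι) ≤
      Fintype.card (Den.Lf a) + Fintype.card (Den.Dt G) := by
    rw [Den.card_Dt hG, Den.card_Lf, hN, sum_add_distrib, sum_const, smul_eq_mul, mul_one,
      card_univ, Nat.add_sub_cancel]
  refine Den.tendsto_one (F := fun X => Den.Fam G a X) (fun X => Den.fam_finite X)
    (fun X P hP => hP.1) fun ε hε => ?_
  obtain ⟨c, hc, X₁, hX₁⟩ := Den.fam_lower hG ha
  obtain ⟨X₂, hX₂⟩ := Den.bad_count n G a (ε := ε * c / 2) (by positivity)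
  set R := Fintype.card (Den.Lf a) + Fintype.card (Den.Dt G) with hRd
  obtain ⟨X₃, hX₃⟩ := Den.badAll_few (ι := ι) N L R hR
    (ε := ε * c / (2 * (1 + C) * ((K + 1 : ℕ) : ℝ) ^ R)) (by positivity)
  refine ⟨X₁ + X₂ + X₃ + 1, fun X hX => ?_⟩
  have hX0 : (1 : ℝ) ≤ X := by
    have : 1 ≤ X := by omega
    exact_mod_cast this
  have hlow := hX₁ X (by omega)
  rw [Fintype.card_sum] at hlow
  refine ⟨lt_of_lt_of_le (by positivity) hlow, ?_⟩
  set F := Den.Fam G a X with hF
  have hFfin : F.Finite := Den.fam_finite X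
  set B : Set (ι → Prime) := {P | P ∈ F ∧ ¬ GenH P} with hB
  have hBfin : B.Finite := hFfin.subset fun P hP => hP.1
  have hBc := hX₂ X (by omega)
  obtain ⟨hAfin, hAc⟩ := hX₃ ((K + 1) * X) (by nlinarith)
  set A := Den.BadAll ι N ((K + 1) * X) L with hA
  set E : Set (ι → Prime) := {P | P ∈ F ∧ GenH P ∧ ∃ (κ κ' : ℝ) (P' : ι → Prime), P' ∈ A ∧
    series κ (univ.val.map P) = series κ' (univ.val.map P')} with hE
  have hEfin : E.Finite := hFfin.subset fun P hP => hP.1
  set S : Set (ι → Prime) := {P : ι → Prime | (∀ i, P i ∈ Box (G i) (a i) X) ∧ GenH P ∧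
        ∀ {ι' : Type} [Fintype ι'] {κ κ' : ℝ} {P' : ι' → Prime}, Small (K * X) L P' →
          series κ (univ.val.map P) = series κ' (univ.val.map P') →
          κ = κ' ∧ ∃ e : ι ≃ ι', ∀ i, Iso (P i) (P' (e i))} with hS
  have hsub : F \ S ⊆ B ∪ E := by
    rintro P ⟨h1, h2⟩
    by_cases hg : GenH P
    · right
      by_contra h3
      refine h2 ⟨h1, hg, fun {ι'} _ {κ κ'} {P'} hP' hs => ?_⟩
      obtain ⟨p1, p2, p3⟩ := pieces κ κ' _ _ hs
      have hcard : Fintype.card ι = Fintype.card ι' := by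
        rw [Multiset.card_map, Multiset.card_map] at p1
        exact p1
      obtain ⟨e₀⟩ := Fintype.card_eq.1 hcard
      by_cases hg' : GenH P'
      · exact separationH hg hg' hs
      · exfalso
        have hKX : K * X ≤ (K + 1) * X := Nat.mul_le_mul_right _ (Nat.le_succ K)
        have hKX' : ((K * X : ℕ) : ℤ) ≤ (((K + 1) * X : ℕ) : ℤ) := by exact_mod_cast hKX
        refine h3 ⟨h1, hg, κ, κ', fun i => P' (e₀ i), ⟨?_, ⟨fun i v p hp =>
          (hP'.1 (e₀ i) v p hp).trans hKX, fun i v w => (hP'.2.1 (e₀ i) v w).trans hKX', ?_⟩,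
          fun hg'' => hg' ?_⟩, ?_⟩
        · have h4 : ∑ i, ((P' (e₀ i)).n + 1) = ∑ i, ((P' i).n + 1) :=
            Equiv.sum_comp e₀ fun i => (P' i).n + 1
          rw [h4, hN]
          rw [Multiset.map_map, Multiset.map_map] at p2
          have h5 : ∑ i, ((P i).n + 1) = ∑ i, ((P' i).n + 1) := p2
          rw [← h5]
          refine sum_congr rfl fun i _ => ?_
          obtain ⟨D, h, hPi, -⟩ := h1 i
          rw [hPi]
        · refine le_trans (le_of_eq ?_) hP'.2.2
          exact Equiv.sum_comp e₀ fun i => ∑ v, ((P' i).D.leaf v).card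
        · refine ⟨fun i v hv => ?_⟩
          obtain ⟨i, rfl⟩ := e₀.surjective i
          obtain ⟨l, m, q1, q2, q3, q4, q5⟩ := hg''.priv i v hv
          refine ⟨l, m, q1, q2, q3, q4, fun j x hjx p hp => ?_⟩
          obtain ⟨j, rfl⟩ := e₀.surjective j
          refine q5 j x (fun he => hjx ?_) p hp
          obtain ⟨rfl, h6⟩ := Sigma.mk.inj he
          rw [eq_of_heq h6]
        · rw [Den.map_reindex P' e₀]
          exact hs
    · exact Or.inl ⟨h1, hg⟩
  -- the collisions with families which are not generic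
  have hEc : E.ncard ≤ C * A.ncard := by
    have hex : ∀ P : ι → Prime, ∃ P' : ι → Prime, P ∈ E → P' ∈ A ∧ ∃ κ κ' : ℝ,
        series κ (univ.val.map P) = series κ' (univ.val.map P') := by
      intro P
      by_cases hP : P ∈ E
      · obtain ⟨-, -, κ, κ', P', h1, h2⟩ := hP
        exact ⟨P', fun _ => ⟨h1, κ, κ', h2⟩⟩
      · exact ⟨P, fun h => absurd h hP⟩
    choose φ hφ using hex
    rw [Set.ncard_eq_toFinset_card E hEfin, Set.ncard_eq_toFinset_card A hAfin]
    have h1 : (hEfin.toFinset.image φ) ⊆ hAfin.toFinset := by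
      intro b hb
      obtain ⟨P, hP, rfl⟩ := mem_image.1 hb
      rw [Set.Finite.mem_toFinset] at hP ⊢
      exact (hφ P hP).1
    refine (card_le_mul_card_image (f := φ) hEfin.toFinset C fun b hb => ?_).trans
      (Nat.mul_le_mul_left _ (card_le_card h1))
    obtain ⟨P₀, hP₀, rfl⟩ := mem_image.1 hb
    rw [Set.Finite.mem_toFinset] at hP₀
    have h2 := hC X P₀ hP₀.1 {Q | Q ∈ E ∧ φ Q = φ P₀} (fun Q hQ => hQ.1.1) fun Q hQ => by
      obtain ⟨κ₁, κ₁', e1⟩ := (hφ P₀ hP₀).2
      obtain ⟨κ₂, κ₂', e2⟩ := (hφ Q hQ.1).2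
      rw [hQ.2] at e2
      have e3 := Den.series_shift (κ₂' - κ₁') e1
      rw [add_sub_cancel, ← e2] at e3
      exact (separationH hP₀.2.1 hQ.1.2.1 e3).2
    rw [← Set.ncard_coe_finset]
    refine le_trans (le_of_eq ?_) h2
    congr 1
    ext Q
    simp [Set.Finite.mem_toFinset]
  have h3 := Set.ncard_le_ncard hsub (hBfin.union hEfin)
  have h4 := Set.ncard_union_le B E
  have h5 : ((F \ S).ncard : ℝ) ≤ B.ncard + C * A.ncard := by
    exact_mod_cast (h3.trans h4).trans (Nat.add_le_add_left hEc B.ncard)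
  refine h5.trans ?_
  have hC0 : (0 : ℝ) < 1 + C := by positivity
  set Z : ℝ := (X : ℝ) ^ R with hZ
  have hZ0 : 0 ≤ Z := by positivity
  have h6 : (C : ℝ) * A.ncard ≤ ε * c / 2 * Z := by
    have hK0 : (0 : ℝ) < ((K + 1 : ℕ) : ℝ) ^ R := by positivity
    have hAc' : (A.ncard : ℝ) ≤ ε * c / (2 * (1 + C)) * Z := by
      refine hAc.trans (le_of_eq ?_)
      rw [Nat.cast_mul, mul_pow, hZ]
      field_simp
    calc (C : ℝ) * A.ncard ≤ C * (ε * c / (2 * (1 + C)) * Z) :=
          mul_le_mul_of_nonneg_left hAc' (by positivity)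
      _ ≤ (1 + C) * (ε * c / (2 * (1 + C)) * Z) := by
          refine mul_le_mul_of_nonneg_right (by linarith) (by positivity)
      _ = ε * c / 2 * Z := by
          field_simp
  calc (B.ncard : ℝ) + C * A.ncard ≤ ε * c / 2 * Z + ε * c / 2 * Z := add_le_add hBc h6
    _ = ε * (c * Z) := by ring
    _ ≤ ε * F.ncard := mul_le_mul_of_nonneg_left hlow hε.le

end Pool.Agent.GSH
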