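import Pool.Agent.GSG.T1
import Pool.Agent.GSG.T2
import Pool.Agent.GSH.Defs

set_option autoImplicit false

open Finset

namespace Pool.Agent.GSH

open Pool.Agent.GSP Pool.Agent.GSG

variable {V V' : Type} [Fintype V] [DecidableEq V] [Fintype V'] [DecidableEq V'] {D : Dat V}
  {D' : Dat V'} {N : ℕ}

theorem CmpH.symm (h : CmpH N D D') : CmpH N D' D := by
  obtain ⟨a, b, ha, hb, hm⟩ := h.mass
  exact ⟨h.pos, h.ok', h.ok, h.nice', h.nice, ⟨b, a, hb, ha, fun s hs => (hm s hs).symm⟩,
    fun s hs => (h.zs s hs).symm⟩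

/-- a private prime of a node is large -/
theorem PrH.le {l : ℕ} {v : V} (h : PrH D l v) : 64 ≤ l := by
  have h1 : 4 ^ 3 ≤ 4 ^ ((D.S v).card + 3) := Nat.pow_le_pow_right (by norm_num) (by omega)
  have h2 := h.big
  omega

/-- a private prime belongs to a node with leaves -/
theorem PrH.nonempty {l : ℕ} {v : V} (h : PrH D l v) : (D.S v).Nonempty := by
  rw [Finset.nonempty_iff_ne_empty]
  intro h0
  have h1 := h.pos
  rw [h0] at h1
  simp [xp] at h1

theorem PrH.unique {l : ℕ} {v w : V} (h : PrH D l v) (h' : PrH D l w) : v = w := by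
  by_contra hne
  have h1 := h.lt w (Ne.symm hne)
  have h2 := h'.lt v hne
  omega

end Pool.Agent.GSH
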