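import Pool.Agent.GSH.F4
import Pool.Agent.GSH.F5

set_option autoImplicit false

open Finset

namespace Pool.Agent.GSH

open Pool.Agent.GSP Pool.Agent.GSG

variable {V V' : Type} [Fintype V] [DecidableEq V] [Fintype V'] [DecidableEq V']

/-- the comparison of the data -/
theorem cmpH_of {D : Dat V} {D' : Dat V'} (hD : OkH D) (hD' : OkH D') {N : ℕ}
    (hN : 0 < N) (hn : Nice D N) (hn' : Nice D' N)
    (hZ : D.Z (fun v j => nm (D.S v) (D.k v) j) = D'.Z (fun v j => nm (D'.S v) (D'.k v) j))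
    {a b : ℚ} (ha : 0 < a) (hb : 0 < b) (hm : (a : ℝ) * (∏ v, mu (D.S v) (D.k v) 0) ^ 2 =
      b * (∏ v, mu (D'.S v) (D'.k v) 0) ^ 2) : CmpH N D D' := by
  have hc := fun s (hs : IsCoprime s (N : ℤ)) => conj_eqH hD hD' hN hn hn' hZ hm hs
  refine ⟨hN, hD, hD', hn, hn', ⟨a, b, by exact_mod_cast ha.ne', by exact_mod_cast hb.ne',
    fun s hs => ?_⟩, fun s hs => (hc s hs).1⟩
  have h1 := (hc s hs).2
  have e : ∀ x : ℚ, (x : RatFunc ℂ) = toC (Polynomial.C (x : ℝ)) := by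
    intro x
    unfold toC
    rw [RingHom.comp_apply, Polynomial.coe_mapRingHom, Polynomial.map_C, RatFunc.algebraMap_C]
    simp
  apply toC_inj
  rw [map_mul, map_mul, map_pow, map_pow, map_prod, map_prod, ← e, ← e]
  exact h1

/-- the decoding of the forest -/
theorem decodeH {D : Dat V} {D' : Dat V'} (hD : OkH D) (hD' : OkH D')
    (hZ : D.Z (fun v j => nm (D.S v) (D.k v) j) = D'.Z (fun v j => nm (D'.S v) (D'.k v) j))
    {a b : ℚ} (ha : 0 < a) (hb : 0 < b) (hm : (a : ℝ) * (∏ v, mu (D.S v) (D.k v) 0) ^ 2 =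
      b * (∏ v, mu (D'.S v) (D'.k v) 0) ^ 2) :
    ∃ σ : V ≃ V', (∀ u v, D'.G.Adj (σ u) (σ v) ↔ D.G.Adj u v) ∧ (∀ v, D'.S (σ v) = D.S v) ∧
      (∀ v, D'.q (σ v) = D.q v) ∧ ∀ u v, D.G.Adj u v → D'.w s(σ u, σ v) = D.w s(u, v) := by
  classical
  let N : ℕ := 4 * ((∏ v, ∏ p ∈ D.S v, p) * ∏ v, ∏ p ∈ D'.S v, p)
  have hpos : ∀ v, ∀ p ∈ D.S v, 0 < p := fun v p hp => by
    have := (hD.leaf v).two_le p hp
    omega
  have hpos' : ∀ v, ∀ p ∈ D'.S v, 0 < p := fun v p hp => by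
    have := (hD'.leaf v).two_le p hp
    omega
  have hN : 0 < N := Nat.mul_pos (by norm_num) (Nat.mul_pos
    (prod_pos fun v _ => prod_pos (hpos v)) (prod_pos fun v _ => prod_pos (hpos' v)))
  have hn : Nice D N := ⟨Dvd.intro _ rfl, fun v p hp => Nat.mul_dvd_mul (by norm_num)
    (((dvd_prod_of_mem _ hp).trans (dvd_prod_of_mem (fun v => ∏ p ∈ D.S v, p)
      (mem_univ v))).mul_right _)⟩
  have hn' : Nice D' N := ⟨Dvd.intro _ rfl, fun v p hp => Nat.mul_dvd_mul (by norm_num)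
    (((dvd_prod_of_mem _ hp).trans (dvd_prod_of_mem (fun v => ∏ p ∈ D'.S v, p)
      (mem_univ v))).mul_left _)⟩
  have hc := cmpH_of hD hD' hN hn hn' hZ ha hb hm
  obtain ⟨τ, hτ⟩ := leafyH hc
  obtain ⟨σ, h1, h2, h3⟩ := iso_forestH hD hD' hN hn hn' hc.zs τ
    (fun v => (hτ v).1) fun v => (hτ v).2.1
  refine ⟨σ, h1, h2, ?_, w_eqH hD hD' hN hn hn' hc.zs σ h1 h2⟩
  refine q_eqH hD hD' hN hn hn' hc.zs σ h1 h2 fun v hv => ?_
  have h4 := (hτ ⟨v, hv⟩).2.2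
  have h5 : ((τ ⟨v, hv⟩ : {v // (D'.S v).Nonempty}) : V') = σ v := (h3 ⟨v, hv⟩).symm
  rw [h5] at h4
  exact h4

end Pool.Agent.GSH
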