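import Pool.Agent.GSG.B5
import Pool.Agent.GSG.H3
import Pool.Agent.GSH.F6
import Pool.Agent.GSP.H4

set_option autoImplicit false

open Finset

namespace Pool.Agent.GSH

open Pool.Agent.OHG Pool.Agent.GPC Pool.Agent.GSP Pool.Agent.GSG

private theorem i1_dg {ι : Type} {P : ι → Prime} (i : ι) (v : Fin ((P i).n + 1)) :
    dg (sigG fun i => (P i).D.graph) ⟨i, v⟩ = ((P i).D.nbr v).card := by
  unfold dg
  have h1 : (sigG fun i => (P i).D.graph).neighborSet ⟨i, v⟩ =
      Sigma.mk i '' ((P i).D.nbr v : Set (Fin ((P i).n + 1))) := by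
    ext ⟨j, w⟩
    rw [SimpleGraph.mem_neighborSet, Set.mem_image]
    constructor
    · rintro ⟨k, a, b, h1, h2, h3⟩
      rw [Sigma.mk.injEq] at h1 h2
      obtain ⟨rfl, h1⟩ := h1
      obtain ⟨rfl, h2⟩ := h2
      rw [heq_eq_eq] at h1 h2
      subst h1 h2
      exact ⟨_, mem_coe.2 (mem_nbr.2 h3), rfl⟩
    · rintro ⟨a, h1, h2⟩
      rw [← h2]
      exact sigG_adj.2 (mem_nbr.1 (mem_coe.1 h1))
  rw [h1, Set.ncard_image_of_injective _ sigma_mk_injective, Set.ncard_coe_finset]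

private theorem i1_pos {V : Type} [Fintype V] [DecidableEq V] {D : Data V} (h : D.IsGraph)
    {a b : V} (hab : D.graph.Adj a b) : 0 < (lkq D)⁻¹ a b * (lkq D)⁻¹ b a := by
  rw [inv_adj h hab, inv_adj h hab.symm, lk_comm D b a, mul_comm (D.wt b a)]
  have h1 := h.edge_det a b (mem_nbr.2 hab)
  have h2 : ((D.wt a b * D.wt b a - D.lk a b : ℤ) : ℚ) ≠ 0 := by
    intro h3
    rw [Int.cast_eq_zero] at h3
    exact h1 (by omega)
  exact mul_self_pos.2 (div_ne_zero (by norm_num) h2)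

/-- the Poincaré sphere is not in the class -/
theorem genH_not_bad {ι : Type} {P : ι → Prime} (hP : GenH P) (i : ι) : ¬ Bad (P i) := by
  rintro ⟨_, h⟩
  have hne : ((P i).D.leaf 0).Nonempty := by
    rw [h]
    exact ⟨2, by simp⟩
  obtain ⟨l, m, hl, hb, hm, ⟨p, hp, hlp⟩, _⟩ := hP.priv i 0 hne
  have h1 : 4 ^ 3 ≤ 4 ^ (((P i).D.leaf 0).card + 3) :=
    Nat.pow_le_pow_right (by norm_num) (by omega)
  replace hb := h1.trans hb
  have h2 : l ∣ p := (dvd_pow_self l (by omega)).trans hlp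
  rw [h] at hp
  have h3 : p ≤ 5 := by
    simp only [mem_insert, mem_singleton] at hp
    omega
  have h4 : 0 < p := by
    simp only [mem_insert, mem_singleton] at hp
    omega
  have h5 := Nat.le_of_dvd h4 h2
  omega

/-- the data of a family are admissible -/
theorem famH_ok {ι : Type} [Fintype ι] [DecidableEq ι] {P : ι → Prime} (hP : GenH P) :
    OkH (famOf P) where
  acyclic := sigG_acyclic fun i => (P i).isGraph.tree.isAcyclic
  leaf := fun ⟨i, v⟩ => by
    rw [k_fam]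
    exact leafG_prime (genH_not_bad hP i) v
  three_le := fun ⟨i, v⟩ => by
    have h1 := (P i).isGraph.three_le v
    have h2 := i1_dg (P := P) i v
    show 3 ≤ ((P i).D.leaf v).card + dg (sigG fun i => (P i).D.graph) ⟨i, v⟩
    rw [h2]
    exact h1
  w_pos := by
    intro e
    induction e with
    | _ x y =>
      intro h
      rw [SimpleGraph.mem_edgeSet] at h
      obtain ⟨i, a, b, h1, h2, h3⟩ := h
      subst h1 h2
      show 0 < Matrix.blockDiagonal' (fun i => (lkq (P i).D)⁻¹) ⟨i, a⟩ ⟨i, b⟩ *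
        Matrix.blockDiagonal' (fun i => (lkq (P i).D)⁻¹) ⟨i, b⟩ ⟨i, a⟩
      rw [Matrix.blockDiagonal'_apply_eq, Matrix.blockDiagonal'_apply_eq]
      exact i1_pos (P i).isGraph h3
  priv := fun ⟨i, v⟩ hv => by
    obtain ⟨l, m, hl, hb, hm, ⟨p, hp, hlp⟩, h⟩ := hP.priv i v hv
    have : Fact l.Prime := ⟨hl⟩
    have hp0 : p ≠ 0 := by
      have := (P i).isGraph.two_le v p hp
      omega
    have h1 : m ≤ xp l ((P i).D.leaf v) := by
      refine le_trans ?_ (Finset.le_sup (f := padicValNat l) hp)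
      exact (padicValNat_dvd_iff_le hp0).1 hlp
    refine ⟨l, hl, hb, le_trans hm h1, ?_⟩
    rintro ⟨j, x⟩ hx
    refine lt_of_lt_of_le ?_ h1
    show ((P j).D.leaf x).sup (padicValNat l) < m
    rw [Finset.sup_lt_iff (by rw [Nat.bot_eq_zero]; omega)]
    intro q hq
    have hq0 : q ≠ 0 := by
      have := (P j).isGraph.two_le x q hq
      omega
    by_contra hc
    exact h j x hx q hq ((padicValNat_dvd_iff_le hq0).2 (not_lt.1 hc))

/-- the diagrams with the same data -/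
theorem iso_of_datG {P P' : Prime}
    (f : Fin (P.n + 1) ≃ Fin (P'.n + 1))
    (hf : ∀ v w, P'.D.graph.Adj (f v) (f w) ↔ P.D.graph.Adj v w)
    (hl : ∀ v, P'.D.leaf (f v) = P.D.leaf v)
    (hq : ∀ v, (lkq P'.D)⁻¹ (f v) (f v) = (lkq P.D)⁻¹ v v)
    (hw : ∀ v w, P.D.graph.Adj v w → ((lkq P'.D)⁻¹ (f v) (f w)) ^ 2 = ((lkq P.D)⁻¹ v w) ^ 2) :
    Iso P P' := by
  obtain ⟨ε, h1, h2, h3⟩ := signs P.isGraph P'.isGraph f hf hq hw
  have habs : ∀ v w, |ε v * ε w| = 1 := by
    intro v w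
    rcases h1 v with h | h <;> rcases h1 w with h' | h' <;> rw [h, h'] <;> norm_num
  have h4 := weightsG P.isGraph P'.isGraph f hf hl (fun v w => by rw [h2, abs_mul, habs, one_mul])
    fun v w h => by rw [h3 v w h, abs_mul, habs, one_mul]
  obtain ⟨η, h5, h6, h7⟩ := choose_signsG P.isGraph P'.isGraph f hf hl (fun v => by
    rw [h2]
    rcases h1 v with h | h <;> rw [h] <;> ring) h4
  exact ⟨f, η, hf, hl, h5, h6, h7⟩

end Pool.Agent.GSH
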