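import Pool.Agent.GSG.M4
import Pool.Agent.GSH.Defs
import Pool.Agent.GSN.N
import Pool.Agent.GSN.B5
import Pool.Agent.GSN.B6
import Pool.Agent.GSN.C1
import Pool.Agent.GSN.C2

set_option autoImplicit false

open Finset

namespace Pool.Agent.GSH

open Pool.Agent.GSP Pool.Agent.GSG

private theorem sq_tr (P : Polynomial ℝ) : (((P ^ 2).trailingCoeff : ℝ) : ℂ) =
    ((P.trailingCoeff : ℝ) : ℂ) ^ 2 := by
  rw [sq, Polynomial.trailingCoeff_mul, sq]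
  push_cast
  rfl

/-- the valence of a node is determined by the values of its moment at the twists -/
private theorem same {N : ℕ} (hN : 0 < N) (h4 : 4 ∣ N) {S : Finset ℕ} {k k' : ℕ}
    (hS : LeafG S k) (hS' : LeafG S k') (hNS : ∀ p ∈ S, 2 * p ∣ N) {l : ℕ} (hl : l.Prime)
    (hb : 4 ^ (S.card + 3) ≤ l) (hi : 1 ≤ xp l S)
    (h : ∀ t : ℤ, IsCoprime (tz N l (xp l S) t) (N : ℤ) →
      (YY S k 0 (tz N l (xp l S) t) * YY S k' 0 1) ^ 2 =
        (YY S k' 0 (tz N l (xp l S) t) * YY S k 0 1) ^ 2) : k = k' := by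
  have h64 := GSN.five_le hb
  have hbb := GSN.big_bound hb
  obtain ⟨q, c, hL⟩ := GSN.exists_lf hN hS hNS hl (by omega) hi
  obtain ⟨t₀, ht₀⟩ := tz_unit hN hl hi
  obtain ⟨Z, hZc, hZ⟩ := GSN.points hl hL.cop t₀
  obtain ⟨b₁, hb1, -⟩ := Pool.H42.PF.gg_isRF hS.two_le hS.coprime (k := k)
    (i := GSN.ii S k 0) (q := q) (GSN.rr_pos S 0) (s := 1) (fun p _ => isCoprime_one_left)
  obtain ⟨b₂, hb2, -⟩ := Pool.H42.PF.gg_isRF hS.two_le hS.coprime (k := k')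
    (i := GSN.ii S k' 0) (q := q) (GSN.rr_pos S 0) (s := 1) (fun p _ => isCoprime_one_left)
  have hk := GSN.kap_ne hS 0 (GSN.rr S 0)
  have hk' := GSN.kap_ne hS' 0 (GSN.rr S 0)
  have hU1 : UG S 1 := ⟨odd_one, fun p _ => isCoprime_one_left⟩
  have hτ1 : (((YY S k 0 1).trailingCoeff : ℝ) : ℂ) ≠ 0 := by
    have := (GSN.trail hS hl hb hi (Nat.zero_le 1) hU1 hL.mem).1
    exact_mod_cast this
  have hτ2 : (((YY S k' 0 1).trailingCoeff : ℝ) : ℂ) ≠ 0 := by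
    have := (GSN.trail hS' hl hb hi (Nat.zero_le 1) hU1 hL.mem).1
    exact_mod_cast this
  obtain ⟨hW, -, -⟩ := hb1.compare hb2 (GSN.rr_pos S 0) (GSN.rr_pos S 0)
    (c₁ := (GSN.kap S k 0 (GSN.rr S 0) * (((YY S k' 0 1).trailingCoeff : ℝ) : ℂ)) ^ 2)
    (c₂ := (GSN.kap S k' 0 (GSN.rr S 0) * (((YY S k 0 1).trailingCoeff : ℝ) : ℂ)) ^ 2)
    (pow_ne_zero 2 (mul_ne_zero hk hτ2)) (pow_ne_zero 2 (mul_ne_zero hk' hτ1))
    (Z := Z) (by
      rw [Pool.H42.PF.card_poles hS.two_le hS.coprime (fun p _ => isCoprime_one_left),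
        Pool.H42.PF.card_poles hS.two_le hS.coprime (fun p _ => isCoprime_one_left)]
      have h7 := (GSN.deg_bound hL.mem k (GSN.ii S k 0)).1
      have h8 := (GSN.deg_bound hL.mem k' (GSN.ii S k' 0)).1
      omega) fun z hz => by
    obtain ⟨t, ht, rfl⟩ := hZ z hz
    have hv := ht₀ t ht
    have hv' := uG_of h4 hNS hv
    have h5 := GSN.zz_notMem (k := k) (s := 1) (t := t) hS hL (by simpa using hv'.2)
      (GSN.ii S k 0)
    have h5' := GSN.zz_notMem (k := k') (s := 1) (t := t) hS' hL (by simpa using hv'.2)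
      (GSN.ii S k' 0)
    rw [mul_one] at h5 h5'
    refine ⟨GSN.zz_ne _ _ _, h5, h5', ?_⟩
    have h6 := GSN.tau_eq (k := k) (s := 1) (t := t) hS hl hb hi hL (by rwa [mul_one])
    have h6' := GSN.tau_eq (k := k') (s := 1) (t := t) hS' hl hb hi hL (by rwa [mul_one])
    rw [mul_one, mul_one] at h6 h6'
    have h7 := congrArg (fun P : Polynomial ℝ => ((P.trailingCoeff : ℝ) : ℂ)) (h t hv)
    simp only [sq_tr, Polynomial.trailingCoeff_mul, Complex.ofReal_mul] at h7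
    rw [h6, h6'] at h7
    linear_combination h7
  obtain ⟨T₁, hT₁⟩ := GSN.TT_nonempty hS hL.mem 0
  have hmem : (Pool.H42.PF.ww S k 1 T₁)⁻¹ ∈ Pool.H42.PF.poles S k (GSN.ii S k 0) q 1 :=
    Finset.mem_image_of_mem _ hT₁
  rw [hW] at hmem
  obtain ⟨T₁', hT₁', he⟩ := Finset.mem_image.1 hmem
  have he' := (inv_injective he).symm
  have m1 := Pool.H42.PF.mem_TT.1 hT₁
  have m2 := Pool.H42.PF.mem_TT.1 hT₁'
  refine GSN.val_comb hS hS' hL.mem m1.1 m2.1 m1.2.1 m2.2.1 he' ?_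
  intro T T' hT hT' hqT hqT' hww
  exact GSN.val_id hN h4 hS hS' hNS hl hb hL.mem hL.dvd h m1.1 m2.1 m1.2.1 m2.2.1 he' hT hT'
    hqT hqT' hww

/-- a node is determined by the values of its moment at the twists, up to a constant -/
theorem decode_nodeH {N : ℕ} (hN : 0 < N) (h4 : 4 ∣ N) {S S' : Finset ℕ} {k k' : ℕ}
    (hS : LeafG S k) (hS' : LeafG S' k') (hNS : ∀ p ∈ S, 2 * p ∣ N) (hNS' : ∀ p ∈ S', 2 * p ∣ N)
    (hc : S'.card ≤ S.card) {l : ℕ} (hl : l.Prime) (hb : 4 ^ (S.card + 3) ≤ l)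
    (hi : 1 ≤ xp l S) (hi' : xp l S' = xp l S)
    (h : ∀ t : ℤ, IsCoprime (tz N l (xp l S) t) (N : ℤ) →
      (YY S k 0 (tz N l (xp l S) t) * YY S' k' 0 1) ^ 2 =
        (YY S' k' 0 (tz N l (xp l S) t) * YY S k 0 1) ^ 2) : S' = S ∧ k' = k := by
  have h64 := GSN.five_le hb
  obtain ⟨q, hq, q', hq', hlq, hlq', m, m', ε, hε, hm, hm', hmm, hrr, hn, hz, C, hC, hbC⟩ :=
    GSN.dec_id hN h4 hS hS' hNS hNS' hc hl hb hi hi' h
  have hSS : S = S' := GSN.dec_comb hS hS' hq hq' (l := l) (by omega) hlq hlq' hc (Or.inl rfl)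
    hε hm hm' hmm hrr hn hz hC hbC
  subst hSS
  exact ⟨rfl, (same hN h4 hS hS' hNS hl hb hi h).symm⟩

end Pool.Agent.GSH
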