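import Mathlib

/-!
# Most integers have a large prime factor
-/

set_option autoImplicit false

open Finset

namespace Pool.Agent.GSH.Lp

theorem log_eq {n : ℕ} (T : Finset ℕ) (hT : n.primeFactors ⊆ T) :
    Real.log n = ∑ p ∈ T, (n.factorization p : ℝ) * Real.log p := by
  rw [Real.log_nat_eq_sum_factorization, Finsupp.sum]
  refine sum_subset hT fun p _ hp => ?_
  rw [Finsupp.notMem_support_iff.1 hp, Nat.cast_zero, zero_mul]

/-- `∑ log l / l ≤ 2 log m` -/
theorem sum_log_div (m : ℕ) :
    ∑ l ∈ (Icc 1 m).filter Nat.Prime, Real.log l / l ≤ 2 * Real.log m := by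
  rcases Nat.eq_zero_or_pos m with rfl | hm
  · simp
  have hmr : (0 : ℝ) < m := by exact_mod_cast hm
  have h1 : Real.log (m.factorial : ℝ) =
      ∑ p ∈ (m.factorial).primeFactors, ((m.factorial).factorization p : ℝ) * Real.log p :=
    log_eq _ subset_rfl
  have h2 : Real.log (m.factorial : ℝ) ≤ m * Real.log m := by
    have h3 : (m.factorial : ℝ) ≤ (m : ℝ) ^ m := by exact_mod_cast Nat.factorial_le_pow m
    have h4 := Real.log_le_log (by exact_mod_cast Nat.factorial_pos m) h3
    rwa [Real.log_pow] at h4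
  have hsub : (Icc 1 m).filter Nat.Prime ⊆ (m.factorial).primeFactors := by
    intro p hp
    rw [mem_filter, mem_Icc] at hp
    rw [Nat.mem_primeFactors]
    exact ⟨hp.2, (Nat.Prime.dvd_factorial hp.2).2 hp.1.2, Nat.factorial_ne_zero m⟩
  have h5 : ∑ p ∈ (Icc 1 m).filter Nat.Prime, (m : ℝ) / 2 * (Real.log p / p) ≤
      ∑ p ∈ (Icc 1 m).filter Nat.Prime, ((m.factorial).factorization p : ℝ) * Real.log p := by
    refine sum_le_sum fun p hp => ?_
    rw [mem_filter, mem_Icc] at hp
    have hp0 : (0 : ℝ) < p := by exact_mod_cast hp.2.pos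
    have hlog : 0 ≤ Real.log p := Real.log_natCast_nonneg p
    have h6 : (m : ℝ) / (2 * p) ≤ ((m.factorial).factorization p : ℝ) := by
      have h7 : m / p ≤ (m.factorial).factorization p := by
        have h8 : p ^ (m / p) ∣ m.factorial := by
          have h9 : (m / p).factorial * p ^ (m / p) ∣ (p * (m / p)).factorial := by
            generalize m / p = k
            induction k with
            | zero => simp
            | succ k ih =>
              have e1 : (p * (k + 1)).factorial = (p * k + p).factorial := by ring_nf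
              obtain ⟨q, hq⟩ : ∃ q, p = q + 1 := ⟨p - 1, by have := hp.2.pos; omega⟩
              have e2 : (p * (k + 1)) * (p * (k + 1) - 1).factorial = (p * (k + 1)).factorial :=
                Nat.mul_factorial_pred (Nat.mul_ne_zero hp.2.ne_zero (Nat.succ_ne_zero k))
              rw [← e2, Nat.factorial_succ, pow_succ]
              have e3 : (p * k).factorial ∣ (p * (k + 1) - 1).factorial :=
                Nat.factorial_dvd_factorial (by
                  rw [mul_add, mul_one]
                  have := hp.2.pos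
                  omega)
              obtain ⟨c, hc⟩ := ih.trans e3
              rw [hc]
              exact ⟨c, by ring⟩
          exact (dvd_mul_left _ _).trans (h9.trans (Nat.factorial_dvd_factorial (Nat.mul_div_le m p)))
        exact (hp.2.pow_dvd_iff_le_factorization (Nat.factorial_ne_zero m)).1 h8
      have h10 : (m : ℝ) / (2 * p) ≤ ((m / p : ℕ) : ℝ) := by
        have h11 : 1 ≤ m / p := (Nat.one_le_div_iff hp.2.pos).2 hp.1.2
        have h12 : m < p * (m / p + 1) := Nat.lt_mul_div_succ m hp.2.pos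
        have h13 : m ≤ 2 * p * (m / p) := by nlinarith
        rw [div_le_iff₀ (by positivity)]
        have : (m : ℝ) ≤ 2 * p * ((m / p : ℕ) : ℝ) := by exact_mod_cast h13
        linarith
      exact h10.trans (by exact_mod_cast h7)
    calc (m : ℝ) / 2 * (Real.log p / p) = (m : ℝ) / (2 * p) * Real.log p := by
          field_simp
      _ ≤ _ := mul_le_mul_of_nonneg_right h6 hlog
  have h6 : ∑ p ∈ (Icc 1 m).filter Nat.Prime, ((m.factorial).factorization p : ℝ) * Real.log p ≤
      m * Real.log m := by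
    refine le_trans (sum_le_sum_of_subset_of_nonneg hsub fun p _ _ => ?_) (h1 ▸ h2)
    exact mul_nonneg (Nat.cast_nonneg _) (Real.log_natCast_nonneg p)
  rw [← mul_sum] at h5
  have h7 := h5.trans h6
  have h8 : (m : ℝ) / 2 * ∑ l ∈ (Icc 1 m).filter Nat.Prime, Real.log l / l ≤
      (m : ℝ) / 2 * (2 * Real.log m) := by
    calc _ ≤ m * Real.log m := h7
      _ = _ := by ring
  exact le_of_mul_le_mul_left h8 (by positivity)

theorem sum_factorization (X p : ℕ) :
    ∑ n ∈ Icc 1 X, n.factorization p = (X.factorial).factorization p := by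
  induction X with
  | zero => simp
  | succ X ih =>
    rw [sum_Icc_succ_top (by omega), ih, Nat.factorial_succ,
      Nat.factorization_mul (Nat.succ_ne_zero X) (Nat.factorial_ne_zero X), add_comm]
    rfl

theorem factorization_factorial_le (X : ℕ) {p : ℕ} (hp : p.Prime) :
    ((X.factorial).factorization p : ℝ) ≤ 2 * X / p := by
  have h1 : (p - 1) * (X.factorial).factorization p ≤ X := by
    have := Fact.mk hp
    have h2 := sub_one_mul_padicValNat_factorial (p := p) X
    rw [← Nat.factorization_def _ hp] at h2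
    rw [h2]
    exact Nat.sub_le _ _
  have h2 : p * (X.factorial).factorization p ≤ 2 * X := by
    obtain ⟨q, hq⟩ : ∃ q, p = q + 2 := ⟨p - 2, by have := hp.two_le; omega⟩
    subst hq
    have : q + 2 - 1 = q + 1 := by omega
    rw [this] at h1
    nlinarith
  have hp0 : (0 : ℝ) < p := by exact_mod_cast hp.pos
  rw [le_div_iff₀ hp0, mul_comm]
  exact_mod_cast h2

open Classical in
/-- most integers up to `X` have a prime factor `≥ X ^ ε` -/
theorem smooth_few {η : ℝ} (hη : 0 < η) : ∃ ε : ℝ, 0 < ε ∧ ε ≤ 1 / 2 ∧ ∃ X₀ : ℕ, ∀ X : ℕ, X₀ ≤ X →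
    ((((Icc 1 X).filter fun n => ∀ l : ℕ, l.Prime → l ∣ n → (l : ℝ) < (X : ℝ) ^ ε).card : ℕ) : ℝ) ≤
      η * X := by
  refine ⟨min (η / 16) (1 / 2), by positivity, min_le_right _ _, ?_⟩
  set ε : ℝ := min (η / 16) (1 / 2) with hε
  have hε0 : 0 < ε := by positivity
  obtain ⟨Z, hZ⟩ := exists_nat_ge (2 / η)
  refine ⟨Z ^ 2 + 2, fun X hX => ?_⟩
  have hX2 : 2 ≤ X := by omega
  have hXr : (2 : ℝ) ≤ X := by exact_mod_cast hX2
  have hXp : (0 : ℝ) < X := by linarith
  have hlogX : 0 < Real.log X := Real.log_pos (by linarith)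
  set m : ℕ := ⌊(X : ℝ) ^ ε⌋₊ with hm
  set S := (Icc 1 X).filter fun n => ∀ l : ℕ, l.Prime → l ∣ n → (l : ℝ) < (X : ℝ) ^ ε with hS
  set S₁ : Finset ℕ := S.filter fun n : ℕ => Real.sqrt X < (n : ℝ) with hS₁
  have hsplit : (S.card : ℝ) ≤ Real.sqrt X + S₁.card := by
    have h1 : S ⊆ (Icc 1 ⌊Real.sqrt X⌋₊) ∪ S₁ := by
      intro n hn
      by_cases h : Real.sqrt X < n
      · exact mem_union_right _ (mem_filter.2 ⟨hn, h⟩)
      · refine mem_union_left _ (mem_Icc.2 ⟨(mem_Icc.1 (mem_filter.1 hn).1).1, ?_⟩)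
        exact Nat.le_floor (not_lt.1 h)
    have h2 := (card_le_card h1).trans (card_union_le _ _)
    rw [Nat.card_Icc, Nat.add_sub_cancel] at h2
    have h3 : (S.card : ℝ) ≤ ((⌊Real.sqrt X⌋₊ : ℕ) : ℝ) + S₁.card := by exact_mod_cast h2
    have h4 := Nat.floor_le (Real.sqrt_nonneg (X : ℝ))
    linarith
  have hone : (1 : ℝ) ≤ (X : ℝ) ^ ε := Real.one_le_rpow (by linarith) hε0.le
  have hm1 : 1 ≤ m := Nat.le_floor (by exact_mod_cast hone)
  have hmr : (0 : ℝ) < m := by exact_mod_cast hm1
  have hlogm : Real.log m ≤ ε * Real.log X := by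
    rw [← Real.log_rpow hXp]
    exact Real.log_le_log hmr (Nat.floor_le (by positivity))
  set Q := (Icc 1 m).filter Nat.Prime with hQ
  have hlog : ∀ n ∈ S₁, Real.log n = ∑ p ∈ Q, (n.factorization p : ℝ) * Real.log p := by
    intro n hn
    refine log_eq Q fun p hp => ?_
    rw [Nat.mem_primeFactors] at hp
    have h1 := (mem_filter.1 (mem_filter.1 hn).1).2 p hp.1 hp.2.1
    rw [hQ, mem_filter, mem_Icc]
    exact ⟨⟨hp.1.one_lt.le, Nat.le_floor h1.le⟩, hp.1⟩
  have h1 : ∑ n ∈ S₁, Real.log n ≤ 8 * ε * X * Real.log X / 2 * 1 := by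
    calc ∑ n ∈ S₁, Real.log n = ∑ n ∈ S₁, ∑ p ∈ Q, (n.factorization p : ℝ) * Real.log p :=
          sum_congr rfl hlog
      _ ≤ ∑ n ∈ Icc 1 X, ∑ p ∈ Q, (n.factorization p : ℝ) * Real.log p := by
          refine sum_le_sum_of_subset_of_nonneg (fun n hn =>
            (mem_filter.1 (mem_filter.1 hn).1).1) fun n _ _ => sum_nonneg fun p _ =>
            mul_nonneg (Nat.cast_nonneg _) (Real.log_natCast_nonneg p)
      _ = ∑ p ∈ Q, ((X.factorial).factorization p : ℝ) * Real.log p := by
          rw [sum_comm]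
          refine sum_congr rfl fun p _ => ?_
          rw [← sum_mul, ← sum_factorization, Nat.cast_sum]
      _ ≤ ∑ p ∈ Q, 2 * X * (Real.log p / p) := by
          refine sum_le_sum fun p hp => ?_
          have h2 := factorization_factorial_le X (mem_filter.1 hp).2
          calc _ ≤ 2 * X / p * Real.log p :=
                mul_le_mul_of_nonneg_right h2 (Real.log_natCast_nonneg p)
            _ = _ := by ring
      _ = 2 * X * ∑ p ∈ Q, Real.log p / p := by rw [mul_sum]
      _ ≤ 2 * X * (2 * Real.log m) :=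
          mul_le_mul_of_nonneg_left (sum_log_div m) (by positivity)
      _ ≤ 2 * X * (2 * (ε * Real.log X)) := by gcongr
      _ = _ := by ring
  have h2 : (S₁.card : ℝ) * (Real.log X / 2) ≤ ∑ n ∈ S₁, Real.log n := by
    rw [← nsmul_eq_mul, ← sum_const]
    refine sum_le_sum fun n hn => ?_
    rw [← Real.log_sqrt hXp.le]
    exact Real.log_le_log (Real.sqrt_pos.2 hXp) (mem_filter.1 hn).2.le
  have h3 : (S₁.card : ℝ) ≤ 8 * ε * X := by
    have h4 := h2.trans h1
    have h5 : (S₁.card : ℝ) * (Real.log X / 2) ≤ (8 * ε * X) * (Real.log X / 2) := by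
      calc _ ≤ _ := h4
        _ = _ := by ring
    exact le_of_mul_le_mul_right h5 (by positivity)
  have h4 : 8 * ε * X ≤ η / 2 * X := by
    have : ε ≤ η / 16 := min_le_left _ _
    refine mul_le_mul_of_nonneg_right ?_ hXp.le
    linarith
  have h5 : Real.sqrt X ≤ η / 2 * X := by
    have h6 : (Z : ℝ) ≤ Real.sqrt X := by
      refine Real.le_sqrt_of_sq_le ?_
      have : Z ^ 2 ≤ X := by omega
      exact_mod_cast this
    have h7 : 1 ≤ η / 2 * Real.sqrt X := by
      have h8 := hZ.trans h6
      rw [div_le_iff₀ hη] at h8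
      linarith
    calc Real.sqrt X = 1 * Real.sqrt X := (one_mul _).symm
      _ ≤ η / 2 * Real.sqrt X * Real.sqrt X :=
          mul_le_mul_of_nonneg_right h7 (Real.sqrt_nonneg _)
      _ = η / 2 * X := by rw [mul_assoc, Real.mul_self_sqrt hXp.le]
  linarith

end Pool.Agent.GSH.Lp
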