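import Pool.Agent.GSH.DenA
import Pool.Agent.GSH.LpA

/-!
# Almost all tuples of integers have large private primes
-/

set_option autoImplicit false

open Finset

namespace Pool.Agent.GSH.Lp

/-- Most tuples are such that every member has a prime factor `l ≥ X ^ ε` of exponent `1` which divides
no other member. -/
theorem few_lp (J : Type) [Fintype J] [DecidableEq J] {η : ℝ} (hη : 0 < η) :
    ∃ ε : ℝ, 0 < ε ∧ ε ≤ 1 / 2 ∧ ∃ X₀ : ℕ, ∀ X : ℕ, X₀ ≤ X → ∀ S : Finset (J → ℕ),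
      (∀ x ∈ S, ∀ j, 1 ≤ x j ∧ x j ≤ X) →
      (∀ x ∈ S, ∃ j, ∀ l : ℕ, l.Prime → (X : ℝ) ^ ε ≤ l → l ∣ x j →
        l ^ 2 ∣ x j ∨ ∃ j', j' ≠ j ∧ l ∣ x j') →
      (S.card : ℝ) ≤ η * (X : ℝ) ^ Fintype.card J := by
  classical
  set r := Fintype.card J with hr
  obtain ⟨ε, hε0, hε1, X₁, hX₁⟩ := smooth_few (η := η / (2 * (r + 1))) (by positivity)
  refine ⟨ε, hε0, hε1, ?_⟩
  obtain ⟨W, hW⟩ := exists_nat_ge ((4 * (r : ℝ) ^ 2 + r) * 2 / η)
  have hlim : Filter.Tendsto (fun X : ℕ => (X : ℝ) ^ ε) Filter.atTop Filter.atTop :=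
    (tendsto_rpow_atTop hε0).comp tendsto_natCast_atTop_atTop
  obtain ⟨X₂, hX₂⟩ := Filter.eventually_atTop.1 (hlim.eventually_ge_atTop ((W : ℝ) + 2))
  refine ⟨X₁ + X₂ + 2, fun X hX S hS hb => ?_⟩
  have hX2 : 2 ≤ X := by omega
  have hX0 : 0 < X := by omega
  have hXr : (0 : ℝ) < X := by exact_mod_cast hX0
  have hX1r : (1 : ℝ) ≤ X := by exact_mod_cast hX0
  have hsm := hX₁ X (by omega)
  have hbig := hX₂ X (by omega)
  set Y : ℕ := ⌊(X : ℝ) ^ ε⌋₊ - 1 with hY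
  have hfl : W + 2 ≤ ⌊(X : ℝ) ^ ε⌋₊ := Nat.le_floor (by exact_mod_cast hbig)
  have hYW : W + 1 ≤ Y := by omega
  have hY0 : 0 < Y := by omega
  have hYr : (0 : ℝ) < Y := by exact_mod_cast hY0
  have hYX : Y ≤ X := by
    have h1 : (X : ℝ) ^ ε ≤ X := by
      calc (X : ℝ) ^ ε ≤ (X : ℝ) ^ (1 : ℝ) := Real.rpow_le_rpow_of_exponent_le hX1r (by linarith)
        _ = X := Real.rpow_one _
    have h2 : ⌊(X : ℝ) ^ ε⌋₊ ≤ X := by
      have := Nat.floor_le_floor h1
      rwa [Nat.floor_natCast] at this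
    omega
  have hlY : ∀ l : ℕ, (X : ℝ) ^ ε ≤ l → Y < l := by
    intro l hl
    have h1 : ⌊(X : ℝ) ^ ε⌋₊ ≤ l := by
      have := Nat.floor_le_floor hl
      rwa [Nat.floor_natCast] at this
    omega
  set U : Finset ℕ := Icc 1 X with hU
  have hUc : U.card = X := by simp [hU]
  set T : Finset (J → ℕ) := Fintype.piFinset fun _ => U with hT
  set M : Finset ℕ := (Icc 1 X).filter fun n => ∀ l : ℕ, l.Prime → l ∣ n →
    (l : ℝ) < (X : ℝ) ^ ε with hM
  let A : ℕ → Finset ℕ := fun m => U.filter fun y => m ∣ y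
  have hsub : S ⊆ ((univ.biUnion fun j => T.filter fun x => x j ∈ M) ∪
      ((univ : Finset J).biUnion fun j => (Ioc Y X).biUnion fun m =>
        T.filter fun x => x j ∈ A (m ^ 2))) ∪
      ((univ.offDiag : Finset (J × J)).biUnion fun ij => (Ioc Y X).biUnion fun m =>
        T.filter fun x => x ij.1 ∈ A m ∧ x ij.2 ∈ A m) := by
    intro x hx
    have hxT : x ∈ T := Fintype.mem_piFinset.2 fun j => mem_Icc.2 (hS x hx j)
    obtain ⟨j, hj⟩ := hb x hx
    by_cases hs : x j ∈ M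
    · exact mem_union_left _ (mem_union_left _ (mem_biUnion.2 ⟨j, mem_univ _,
        mem_filter.2 ⟨hxT, hs⟩⟩))
    · have h1 : ∃ l : ℕ, l.Prime ∧ l ∣ x j ∧ (X : ℝ) ^ ε ≤ l := by
        by_contra hcon
        push Not at hcon
        exact hs (mem_filter.2 ⟨mem_Icc.2 (hS x hx j), hcon⟩)
      obtain ⟨l, hl, hlj, hle⟩ := h1
      have hlY' := hlY l hle
      have hlX : l ≤ X := (Nat.le_of_dvd (hS x hx j).1 hlj).trans (hS x hx j).2
      rcases hj l hl hle hlj with h2 | ⟨j', hne, hlj'⟩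
      · refine mem_union_left _ (mem_union_right _ ?_)
        exact mem_biUnion.2 ⟨j, mem_univ _, mem_biUnion.2 ⟨l, mem_Ioc.2 ⟨hlY', hlX⟩,
          mem_filter.2 ⟨hxT, mem_filter.2 ⟨mem_Icc.2 (hS x hx j), h2⟩⟩⟩⟩
      · refine mem_union_right _ ?_
        refine mem_biUnion.2 ⟨(j, j'), mem_offDiag.2 ⟨mem_univ _, mem_univ _, hne.symm⟩,
          mem_biUnion.2 ⟨l, mem_Ioc.2 ⟨hlY', hlX⟩, mem_filter.2 ⟨hxT, ?_, ?_⟩⟩⟩
        · exact mem_filter.2 ⟨mem_Icc.2 (hS x hx j), hlj⟩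
        · exact mem_filter.2 ⟨mem_Icc.2 (hS x hx j'), hlj'⟩
  have hAc : ∀ m : ℕ, (A m).card = X / m := by
    intro m
    have := Nat.Ioc_filter_dvd_card_eq_div X m
    rw [← this]
    rfl
  have hA : ∀ m ∈ Ioc Y X, ((A m).card : ℝ) ≤ (X : ℝ) / m + 1 := by
    intro m _
    rw [hAc]
    have := Nat.cast_div_le (α := ℝ) (m := X) (n := m)
    linarith
  have c1 : ((univ.biUnion fun j => T.filter fun x => x j ∈ M).card : ℝ) ≤
      (r : ℝ) * (η / (2 * (r + 1))) * (X : ℝ) ^ r := by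
    have h1 : ∀ j : J, ((T.filter fun x => x j ∈ M).card : ℝ) ≤
        (η / (2 * (r + 1))) * (X : ℝ) ^ r := by
      intro j
      have h2 := card_one U j M
      rw [hUc] at h2
      have h4 : ((T.filter fun x => x j ∈ M).card : ℝ) * (X : ℝ) ≤
          (M.card : ℝ) * (X : ℝ) ^ r := by exact_mod_cast h2
      have h5 : (M.card : ℝ) * (X : ℝ) ^ r ≤ (η / (2 * (r + 1)) * X) * (X : ℝ) ^ r :=
        mul_le_mul_of_nonneg_right hsm (by positivity)
      have h6 : ((T.filter fun x => x j ∈ M).card : ℝ) * (X : ℝ) ≤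
          ((η / (2 * (r + 1))) * (X : ℝ) ^ r) * X := by
        calc _ ≤ _ := h4.trans h5
          _ = _ := by ring
      exact le_of_mul_le_mul_right h6 hXr
    have h2 : ((univ.biUnion fun j => T.filter fun x => x j ∈ M).card : ℝ) ≤
        ∑ j : J, ((T.filter fun x => x j ∈ M).card : ℝ) := by
      exact_mod_cast card_biUnion_le
    refine h2.trans ((sum_le_sum fun j _ => h1 j).trans (le_of_eq ?_))
    rw [sum_const, nsmul_eq_mul, card_univ]
    ring
  have c4 : (((univ : Finset J).biUnion fun j => (Ioc Y X).biUnion fun m =>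
        T.filter fun x => x j ∈ A (m ^ 2)).card : ℝ) ≤ r / Y * (X : ℝ) ^ r := by
    have h1 : (((univ : Finset J).biUnion fun j => (Ioc Y X).biUnion fun m =>
        T.filter fun x => x j ∈ A (m ^ 2)).card : ℝ) ≤
        ∑ j : J, ∑ m ∈ Ioc Y X, ((T.filter fun x => x j ∈ A (m ^ 2)).card : ℝ) := by
      have h3 : (((univ : Finset J).biUnion fun j => (Ioc Y X).biUnion fun m =>
        T.filter fun x => x j ∈ A (m ^ 2)).card : ℝ) ≤
          ((∑ j : J, ((Ioc Y X).biUnion fun m =>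
            T.filter fun x => x j ∈ A (m ^ 2)).card : ℕ) : ℝ) := by
        exact_mod_cast card_biUnion_le
      refine h3.trans ?_
      rw [Nat.cast_sum]
      refine sum_le_sum fun ij _ => ?_
      exact_mod_cast card_biUnion_le
    have h2 : ∀ j : J, ∀ m ∈ Ioc Y X, ((T.filter fun x => x j ∈ A (m ^ 2)).card : ℝ) ≤
        (X : ℝ) ^ r * ((m : ℝ) ^ 2)⁻¹ := by
      intro j m hm
      have h2 := card_one U j (A (m ^ 2))
      rw [hUc, hAc] at h2
      have h4 : ((T.filter fun x => x j ∈ A (m ^ 2)).card : ℝ) * (X : ℝ) ≤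
          ((X / m ^ 2 : ℕ) : ℝ) * (X : ℝ) ^ r := by exact_mod_cast h2
      have h5 : ((X / m ^ 2 : ℕ) : ℝ) ≤ (X : ℝ) * ((m : ℝ) ^ 2)⁻¹ := by
        have := Nat.cast_div_le (α := ℝ) (m := X) (n := m ^ 2)
        rwa [Nat.cast_pow, div_eq_mul_inv] at this
      have h6 : ((T.filter fun x => x j ∈ A (m ^ 2)).card : ℝ) * (X : ℝ) ≤
          ((X : ℝ) ^ r * ((m : ℝ) ^ 2)⁻¹) * X := by
        calc _ ≤ _ := h4.trans (mul_le_mul_of_nonneg_right h5 (by positivity))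
          _ = _ := by ring
      exact le_of_mul_le_mul_right h6 hXr
    have h3 := sum_Ioc_inv_sq_le_sub (α := ℝ) hY0.ne' hYX
    have h4 : (0 : ℝ) ≤ (X : ℝ)⁻¹ := by positivity
    calc _ ≤ _ := h1
      _ ≤ ∑ _j : J, (X : ℝ) ^ r * (Y : ℝ)⁻¹ := by
          refine sum_le_sum fun j _ => ?_
          refine (sum_le_sum (h2 j)).trans ?_
          rw [← mul_sum]
          exact mul_le_mul_of_nonneg_left (by linarith) (by positivity)
      _ = _ := by
          rw [sum_const, nsmul_eq_mul, card_univ]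
          ring
  have c2 : (((univ.offDiag : Finset (J × J)).biUnion fun ij => (Ioc Y X).biUnion fun m =>
        T.filter fun x => x ij.1 ∈ A m ∧ x ij.2 ∈ A m).card : ℝ) * (X : ℝ) ^ 2 ≤
      (r : ℝ) ^ 2 * ((2 * (X : ℝ) ^ 2 / Y + 2 * X) * (X : ℝ) ^ r) := by
    have h1 : (((univ.offDiag : Finset (J × J)).biUnion fun ij => (Ioc Y X).biUnion fun m =>
        T.filter fun x => x ij.1 ∈ A m ∧ x ij.2 ∈ A m).card : ℝ) ≤
        ∑ ij ∈ (univ.offDiag : Finset (J × J)), ∑ m ∈ Ioc Y X,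
          ((T.filter fun x => x ij.1 ∈ A m ∧ x ij.2 ∈ A m).card : ℝ) := by
      have h3 : (((univ.offDiag : Finset (J × J)).biUnion fun ij => (Ioc Y X).biUnion fun m =>
          T.filter fun x => x ij.1 ∈ A m ∧ x ij.2 ∈ A m).card : ℝ) ≤
          ((∑ ij ∈ (univ.offDiag : Finset (J × J)), ((Ioc Y X).biUnion fun m =>
            T.filter fun x => x ij.1 ∈ A m ∧ x ij.2 ∈ A m).card : ℕ) : ℝ) := by
        exact_mod_cast card_biUnion_le
      refine h3.trans ?_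
      rw [Nat.cast_sum]
      refine sum_le_sum fun ij _ => ?_
      exact_mod_cast card_biUnion_le
    have h4 : ∀ ij ∈ (univ.offDiag : Finset (J × J)),
        (∑ m ∈ Ioc Y X, ((T.filter fun x => x ij.1 ∈ A m ∧ x ij.2 ∈ A m).card : ℝ)) *
          (X : ℝ) ^ 2 ≤ (2 * (X : ℝ) ^ 2 / Y + 2 * X) * (X : ℝ) ^ r := by
      intro ij hij
      rw [mem_offDiag] at hij
      rw [sum_mul]
      have h5 : ∀ m ∈ Ioc Y X,
          ((T.filter fun x => x ij.1 ∈ A m ∧ x ij.2 ∈ A m).card : ℝ) * (X : ℝ) ^ 2 ≤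
            ((X : ℝ) / m + 1) ^ 2 * (X : ℝ) ^ r := by
        intro m hm
        have h6 := card_two U hij.2.2 (A m) (A m)
        rw [hUc] at h6
        have h7 : ((T.filter fun x => x ij.1 ∈ A m ∧ x ij.2 ∈ A m).card : ℝ) *
            (X : ℝ) ^ 2 ≤ ((A m).card : ℝ) * ((A m).card : ℝ) * (X : ℝ) ^ r := by
          exact_mod_cast h6
        refine h7.trans (mul_le_mul_of_nonneg_right ?_ (by positivity))
        rw [sq]
        exact mul_le_mul (hA m hm) (hA m hm) (by positivity) (by positivity)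
      refine (sum_le_sum h5).trans ?_
      rw [← sum_mul]
      exact mul_le_mul_of_nonneg_right (sum_div_sq hY0 hYX) (by positivity)
    have h8 : (((univ.offDiag : Finset (J × J)).card : ℕ) : ℝ) ≤ (r : ℝ) ^ 2 := by
      have h9 : (univ.offDiag : Finset (J × J)).card ≤ r ^ 2 := by
        rw [offDiag_card, card_univ, sq]
        exact Nat.sub_le _ _
      exact_mod_cast h9
    calc _ ≤ (∑ ij ∈ (univ.offDiag : Finset (J × J)), ∑ m ∈ Ioc Y X,
          ((T.filter fun x => x ij.1 ∈ A m ∧ x ij.2 ∈ A m).card : ℝ)) * (X : ℝ) ^ 2 :=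
          mul_le_mul_of_nonneg_right h1 (by positivity)
      _ = ∑ ij ∈ (univ.offDiag : Finset (J × J)), (∑ m ∈ Ioc Y X,
          ((T.filter fun x => x ij.1 ∈ A m ∧ x ij.2 ∈ A m).card : ℝ)) * (X : ℝ) ^ 2 := by
          rw [sum_mul]
      _ ≤ ∑ _ij ∈ (univ.offDiag : Finset (J × J)),
          (2 * (X : ℝ) ^ 2 / Y + 2 * X) * (X : ℝ) ^ r := sum_le_sum h4
      _ = ((univ.offDiag : Finset (J × J)).card : ℝ) *
          ((2 * (X : ℝ) ^ 2 / Y + 2 * X) * (X : ℝ) ^ r) := by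
          rw [sum_const, nsmul_eq_mul]
      _ ≤ _ := mul_le_mul_of_nonneg_right h8 (by positivity)
  have c5 : (((univ.offDiag : Finset (J × J)).biUnion fun ij => (Ioc Y X).biUnion fun m =>
        T.filter fun x => x ij.1 ∈ A m ∧ x ij.2 ∈ A m).card : ℝ) ≤
      4 * (r : ℝ) ^ 2 / Y * (X : ℝ) ^ r := by
    have h1 : (r : ℝ) ^ 2 * ((2 * (X : ℝ) ^ 2 / Y + 2 * X) * (X : ℝ) ^ r) ≤
        (4 * (r : ℝ) ^ 2 / Y * (X : ℝ) ^ r) * (X : ℝ) ^ 2 := by
      have h2 : 2 * (X : ℝ) ≤ 2 * (X : ℝ) ^ 2 / Y := by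
        rw [le_div_iff₀ hYr]
        have h3 : (Y : ℝ) ≤ X := by exact_mod_cast hYX
        nlinarith
      calc (r : ℝ) ^ 2 * ((2 * (X : ℝ) ^ 2 / Y + 2 * X) * (X : ℝ) ^ r) ≤
          (r : ℝ) ^ 2 * ((2 * (X : ℝ) ^ 2 / Y + 2 * (X : ℝ) ^ 2 / Y) * (X : ℝ) ^ r) := by
            refine mul_le_mul_of_nonneg_left (mul_le_mul_of_nonneg_right ?_ (by positivity))
              (by positivity)
            linarith
        _ = _ := by ring
    exact le_of_mul_le_mul_right (c2.trans h1) (by positivity)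
  have c3 : (S.card : ℝ) ≤ ((univ.biUnion fun j => T.filter fun x => x j ∈ M).card : ℝ) +
      (((univ : Finset J).biUnion fun j => (Ioc Y X).biUnion fun m =>
        T.filter fun x => x j ∈ A (m ^ 2)).card : ℝ) +
      (((univ.offDiag : Finset (J × J)).biUnion fun ij => (Ioc Y X).biUnion fun m =>
        T.filter fun x => x ij.1 ∈ A m ∧ x ij.2 ∈ A m).card : ℝ) := by
    exact_mod_cast (card_le_card hsub).trans ((card_union_le _ _).trans
      (Nat.add_le_add_right (card_union_le _ _) _))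
  have hfin : (4 * (r : ℝ) ^ 2 + r) / Y ≤ η / 2 := by
    have h1 : (W : ℝ) ≤ Y := by
      have : W ≤ Y := by omega
      exact_mod_cast this
    have h2 := hW.trans h1
    rw [div_le_iff₀ hη] at h2
    rw [div_le_iff₀ hYr]
    linarith
  have hfin1 : (r : ℝ) * (η / (2 * (r + 1))) ≤ η / 2 := by
    have h1 : (r : ℝ) * (η / (2 * (r + 1))) = η / 2 * (r / (r + 1)) := by field_simp
    rw [h1]
    have h2 : (r : ℝ) / (r + 1) ≤ 1 := by
      rw [div_le_one (by positivity)]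
      linarith
    calc η / 2 * ((r : ℝ) / (r + 1)) ≤ η / 2 * 1 := mul_le_mul_of_nonneg_left h2 (by positivity)
      _ = _ := mul_one _
  calc (S.card : ℝ) ≤ (r : ℝ) * (η / (2 * (r + 1))) * (X : ℝ) ^ r + r / Y * (X : ℝ) ^ r +
        4 * (r : ℝ) ^ 2 / Y * (X : ℝ) ^ r := by linarith
    _ = ((r : ℝ) * (η / (2 * (r + 1))) + (4 * (r : ℝ) ^ 2 + r) / Y) * (X : ℝ) ^ r := by ring
    _ ≤ (η / 2 + η / 2) * (X : ℝ) ^ r :=
        mul_le_mul_of_nonneg_right (add_le_add hfin1 hfin) (by positivity)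
    _ = η * (X : ℝ) ^ r := by ring

end Pool.Agent.GSH.Lp
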