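import Pool.Agent.GSH.LpB
import Pool.Agent.GSH.DenE

/-!
# Almost all families of diagrams have large private primes
-/

set_option autoImplicit false

open Finset

namespace Pool.Agent.GSH

open Pool.Agent.OHG

/-- Every leaf of the family has a prime factor `l ≥ Y` of exponent `1` which divides no other leaf of
the family. -/
def LP {ι : Type} (Y : ℝ) (P : ι → Prime) : Prop :=
  ∀ i v, ∀ p ∈ (P i).D.leaf v, ∃ l : ℕ, l.Prime ∧ Y ≤ l ∧ l ∣ p ∧ ¬ l ^ 2 ∣ p ∧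
    ∀ j x, ∀ q ∈ (P j).D.leaf x, l ∣ q →
      (⟨j, x⟩ : Σ j, Fin ((P j).n + 1)) = ⟨i, v⟩ ∧ q = p

end Pool.Agent.GSH

namespace Pool.Agent.GSH.Den

open Pool.Agent.OHG

section family

variable {ι : Type} [Fintype ι] [DecidableEq ι] {n : ι → ℕ}
  {G : ∀ i, SimpleGraph (Fin (n i + 1))} {a : ∀ i, Fin (n i + 1) → ℕ}

omit [Fintype ι] [DecidableEq ι] in
theorem bad_lp {X : ℕ} {Y : ℝ} {P : ι → Prime} (hP : P ∈ Fam G a X) (hb : ¬ LP Y P) :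
    ∃ j : Lf a, ∀ l : ℕ, l.Prime → Y ≤ l → l ∣ lg a P j →
      l ^ 2 ∣ lg a P j ∨ ∃ j', j' ≠ j ∧ l ∣ lg a P j' := by
  obtain ⟨D, h, rfl, hg, ha, hl, hw⟩ := fam_mem hP
  have hlg : ∀ j : Lf a, lg a (fun i => (⟨n i, D i, h i⟩ : Prime)) j =
      ((D j.1.1).leaf j.1.2).toList.getD j.2 0 := fun j => by
    simp only [lg, dat_mk]
  have h1 : ∃ (i : ι) (v : Fin (n i + 1)), ∃ p ∈ (D i).leaf v, ∀ l : ℕ, l.Prime → Y ≤ l → l ∣ p →
      ¬ l ^ 2 ∣ p → ∃ (j : ι) (x : Fin (n j + 1)), ∃ q ∈ (D j).leaf x, l ∣ q ∧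
        ((⟨j, x⟩ : Vx n) = ⟨i, v⟩ → q ≠ p) := by
    by_contra hcon
    push Not at hcon
    exact hb hcon
  obtain ⟨i, v, p, hp, h2⟩ := h1
  obtain ⟨k, hk, hkp⟩ := List.mem_iff_getElem.1 (mem_toList.2 hp)
  have hkj : k < a i v := by rwa [length_toList, ha] at hk
  refine ⟨⟨⟨i, v⟩, ⟨k, hkj⟩⟩, fun l hlp hY hld => ?_⟩
  have e1 : lg a (fun i => (⟨n i, D i, h i⟩ : Prime)) ⟨⟨i, v⟩, ⟨k, hkj⟩⟩ = p := by
    rw [hlg]
    show ((D i).leaf v).toList.getD k 0 = p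
    rw [List.getD_eq_getElem _ _ hk, hkp]
  rw [e1] at hld ⊢
  by_cases hsq : l ^ 2 ∣ p
  · exact Or.inl hsq
  · right
    obtain ⟨j, x, q, hq, hlq, hne⟩ := h2 l hlp hY hld hsq
    obtain ⟨k', hk', hkq⟩ := List.mem_iff_getElem.1 (mem_toList.2 hq)
    have e2 : lg a (fun i => (⟨n i, D i, h i⟩ : Prime))
        ⟨⟨j, x⟩, ⟨k', by rwa [length_toList, ha] at hk'⟩⟩ = q := by
      rw [hlg]
      show ((D j).leaf x).toList.getD k' 0 = q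
      rw [List.getD_eq_getElem _ _ hk', hkq]
    refine ⟨⟨⟨j, x⟩, ⟨k', by rwa [length_toList, ha] at hk'⟩⟩, fun he => ?_, ?_⟩
    · refine hne (congrArg Sigma.fst he) ?_
      rw [← e1, ← e2, he]
    · rw [e2]
      exact hlq

/-- the families without large private primes are few -/
theorem lp_count (n : ι → ℕ) (G : ∀ i, SimpleGraph (Fin (n i + 1)))
    (a : ∀ i, Fin (n i + 1) → ℕ) {η : ℝ} (hη : 0 < η) :
    ∃ ε : ℝ, 0 < ε ∧ ε ≤ 1 / 2 ∧ ∃ X₀ : ℕ, ∀ X : ℕ, X₀ ≤ X →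
      (({P : ι → Prime | P ∈ Fam G a X ∧ ¬ LP ((X : ℝ) ^ ε) P}.ncard : ℝ)) ≤
        η * (X : ℝ) ^ (Fintype.card (Lf a) + Fintype.card (Dt G)) := by
  classical
  set p := Fintype.card (Vx n) with hp
  set q := Fintype.card (Dt G) with hq
  set t := Fintype.card (Lf a) with ht
  set δ : ℝ := η / (2 ^ p * 3 ^ q) with hδ
  have hδ0 : 0 < δ := by positivity
  obtain ⟨ε, hε0, hε1, X₂, hX₂⟩ := Lp.few_lp (Lf a) hδ0
  refine ⟨ε, hε0, hε1, X₂ + 1, fun X hX => ?_⟩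
  have hX0 : (1 : ℝ) ≤ X := by
    have : 1 ≤ X := by omega
    exact_mod_cast this
  set F := Fam G a X with hF
  set B : Set (ι → Prime) := {P | P ∈ F ∧ ¬ LP ((X : ℝ) ^ ε) P} with hB
  let L : Finset (Lf a → ℕ) := (Fintype.piFinset fun _ : Lf a => Icc 1 X).filter fun x =>
    ∃ j, ∀ l : ℕ, l.Prime → (X : ℝ) ^ ε ≤ l → l ∣ x j →
      l ^ 2 ∣ x j ∨ ∃ j', j' ≠ j ∧ l ∣ x j'
  have hLB := hX₂ X (by omega) L (fun x hx j => by
    have h1 := (Fintype.mem_piFinset.1 (mem_filter.1 hx).1) j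
    exact mem_Icc.1 h1) (fun x hx => (mem_filter.1 hx).2)
  have hBc := (fam_card B (fun P hP => hP.1) L fun P hP => by
    refine mem_filter.2 ⟨?_, bad_lp hP.1 hP.2⟩
    rw [Fintype.mem_piFinset]
    exact fun j => mem_Icc.2 (lg_mem hP.1 j)).2
  have hBr : (B.ncard : ℝ) ≤ 2 ^ p * (2 * X + 1) ^ q * (δ * (X : ℝ) ^ t) := by
    have h1 : (B.ncard : ℝ) ≤ 2 ^ p * (2 * X + 1) ^ q * (L.card : ℝ) := by exact_mod_cast hBc
    exact h1.trans (mul_le_mul_of_nonneg_left hLB (by positivity))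
  have h1 : (2 * (X : ℝ) + 1) ^ q ≤ 3 ^ q * (X : ℝ) ^ q := by
    rw [← mul_pow]
    exact pow_le_pow_left₀ (by positivity) (by linarith) q
  have h2 : (2 : ℝ) ^ p * (2 * X + 1) ^ q * (δ * (X : ℝ) ^ t) ≤
      2 ^ p * (3 ^ q * (X : ℝ) ^ q) * (δ * (X : ℝ) ^ t) :=
    mul_le_mul_of_nonneg_right (mul_le_mul_of_nonneg_left h1 (by positivity)) (by positivity)
  have h3 : (2 : ℝ) ^ p * (3 ^ q * (X : ℝ) ^ q) * (δ * (X : ℝ) ^ t) =
      η * (X : ℝ) ^ (t + q) := by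
    rw [hδ, pow_add]
    field_simp
  rw [h3] at h2
  exact hBr.trans h2

end family

end Pool.Agent.GSH.Den
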