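import Pool.Agent.H42.GS.Sharp
import Pool.Agent.OHG.Final
import Pool.Agent.GSH.DenE

/-!
# A bound for the degree two part in terms of the weights, and for the numbers of leaves
-/

set_option autoImplicit false

open Finset PowerSeries

namespace Pool.Agent.GSH.Lp

open Pool.Agent.OHG Pool.Agent.H42.GS Pool.Agent.GSP

theorem lk_le {m : ℕ} {D : Data (Fin (m + 1))} (h : D.IsGraph) {X : ℕ} (hX : 1 ≤ X)
    (hl : ∀ v, ∀ p ∈ D.leaf v, p ≤ X) (hw : ∀ v w, |D.wt v w| ≤ X) (v w : Fin (m + 1)) :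
    |D.lk v w| ≤ (X : ℤ) ^ (∑ u, D.val u) := by
  have hX' : (1 : ℤ) ≤ X := by exact_mod_cast hX
  unfold Data.lk
  rw [abs_prod, ← prod_pow_eq_pow_sum]
  have h1 : ∀ u, |D.sgn u * (∏ k ∈ D.leaf u, (k : ℤ)) *
      ∏ x ∈ D.nbr u with ¬ D.On v w x, D.wt u x| ≤ (X : ℤ) ^ D.val u := by
    intro u
    rw [abs_mul, abs_mul, abs_prod, abs_prod]
    have e1 : |D.sgn u| = 1 := by
      rcases h.sign u with h2 | h2 <;> rw [h2] <;> simp
    have e2 : ∏ k ∈ D.leaf u, |(k : ℤ)| ≤ (X : ℤ) ^ (D.leaf u).card := by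
      rw [← prod_const]
      refine prod_le_prod (fun _ _ => abs_nonneg _) fun k hk => ?_
      rw [Nat.abs_cast]
      exact_mod_cast hl u k hk
    have e3 : ∏ x ∈ D.nbr u with ¬ D.On v w x, |D.wt u x| ≤ (X : ℤ) ^ (D.nbr u).card := by
      calc ∏ x ∈ D.nbr u with ¬ D.On v w x, |D.wt u x| ≤
          ∏ _x ∈ D.nbr u with ¬ D.On v w _x, (X : ℤ) :=
            prod_le_prod (fun _ _ => abs_nonneg _) fun x _ => hw u x
        _ = (X : ℤ) ^ ((D.nbr u).filter fun x => ¬ D.On v w x).card := by rw [prod_const]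
        _ ≤ _ := pow_le_pow_right₀ hX' (card_le_card (filter_subset _ _))
    rw [e1, one_mul]
    calc _ ≤ (X : ℤ) ^ (D.leaf u).card * (X : ℤ) ^ (D.nbr u).card :=
          mul_le_mul e2 e3 (prod_nonneg fun _ _ => abs_nonneg _) (by positivity)
      _ = _ := by rw [← pow_add]; rfl
  calc _ ≤ ∏ u with D.On v w u, (X : ℤ) ^ D.val u :=
        prod_le_prod (fun _ _ => abs_nonneg _) fun u _ => h1 u
    _ ≤ ∏ u, (X : ℤ) ^ D.val u := by
        refine prod_le_prod_of_subset_of_one_le (filter_subset _ _) (fun u _ => by positivity)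
          fun u _ _ => one_le_pow₀ hX'

theorem bet_le {m : ℕ} (D : Data (Fin (m + 1))) (v : Fin (m + 1)) : bet D v ≤ (D.val v : ℝ) / 24 := by
  have h1 : (0 : ℝ) ≤ ∑ k ∈ D.leaf v, 1 / (k : ℝ) ^ 2 := sum_nonneg fun k _ => by positivity
  have h2 : ((D.val v - 2 : ℕ) : ℝ) ≤ D.val v := by exact_mod_cast Nat.sub_le _ _
  unfold bet
  linarith

theorem bet2_le {m : ℕ} (D : Data (Fin (m + 1))) (v : Fin (m + 1)) :
    bet2 D v ≤ (D.val v : ℝ) / 2880 := by
  have h1 : (0 : ℝ) ≤ ∑ k ∈ D.leaf v, 1 / (k : ℝ) ^ 4 := sum_nonneg fun k _ => by positivity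
  have h2 : ((D.val v - 2 : ℕ) : ℝ) ≤ D.val v := by exact_mod_cast Nat.sub_le _ _
  unfold bet2
  linarith

theorem bet_nonneg {m : ℕ} {D : Data (Fin (m + 1))} (h : D.IsGraph) (v : Fin (m + 1)) :
    0 ≤ bet D v := le_trans (by norm_num) (bet_pos h v)

theorem v2_part_le {m : ℕ} {D : Data (Fin (m + 1))} (h : D.IsGraph) {X : ℕ} (hX : 1 ≤ X)
    (hl : ∀ v, ∀ p ∈ D.leaf v, p ≤ X) (hw : ∀ v w, |D.wt v w| ≤ X) :
    v2 (part D) ≤ ((∑ u, D.val u : ℕ) : ℝ) ^ 2 * (X : ℝ) ^ (2 * ∑ u, D.val u) := by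
  set W : ℕ := ∑ u, D.val u with hW
  have hX1 : (1 : ℝ) ≤ X := by exact_mod_cast hX
  have hlk : ∀ v w, (D.lk v w : ℝ) ^ 2 ≤ (X : ℝ) ^ (2 * W) := by
    intro v w
    have h1 := lk_le h hX hl hw v w
    have h2 : |(D.lk v w : ℝ)| ≤ (X : ℝ) ^ W := by exact_mod_cast h1
    calc (D.lk v w : ℝ) ^ 2 = |(D.lk v w : ℝ)| ^ 2 := (sq_abs _).symm
      _ ≤ ((X : ℝ) ^ W) ^ 2 := pow_le_pow_left₀ (abs_nonneg _) h2 2
      _ = _ := by rw [← pow_mul, mul_comm]
  have hW3 : (1 : ℝ) ≤ W := by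
    have h1 : 3 ≤ W := (h.three_le 0).trans (single_le_sum (f := fun u => D.val u)
      (fun _ _ => Nat.zero_le _) (mem_univ 0))
    have : 1 ≤ W := by omega
    exact_mod_cast this
  have hWr : (W : ℝ) = ∑ u, (D.val u : ℝ) := by rw [hW]; push_cast; rfl
  have h3 : v2 (part D) = coeff 2 (part D) - (coeff 1 (part D)) ^ 2 / 2 := rfl
  rw [h3, part_two_exact]
  have e1 : ∑ v, bet2 D v * (D.lk v v : ℝ) ^ 2 ≤ W / 2880 * (X : ℝ) ^ (2 * W) := by
    rw [hWr, sum_div, sum_mul]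
    refine sum_le_sum fun v _ => ?_
    calc bet2 D v * (D.lk v v : ℝ) ^ 2 ≤ (D.val v : ℝ) / 2880 * (D.lk v v : ℝ) ^ 2 :=
          mul_le_mul_of_nonneg_right (bet2_le D v) (sq_nonneg _)
      _ ≤ _ := mul_le_mul_of_nonneg_left (hlk v v) (by positivity)
  have e2 : ∑ v, ∑ w, bet D v * bet D w * (D.lk v w : ℝ) ^ 2 ≤
      (W / 24) ^ 2 * (X : ℝ) ^ (2 * W) := by
    rw [sq, hWr, sum_div, sum_mul_sum, sum_mul]
    refine sum_le_sum fun v _ => ?_
    rw [sum_mul]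
    refine sum_le_sum fun w _ => ?_
    have h4 : bet D v * bet D w ≤ (D.val v : ℝ) / 24 * ((D.val w : ℝ) / 24) :=
      mul_le_mul (bet_le D v) (bet_le D w) (bet_nonneg h w) (by positivity)
    calc _ ≤ (D.val v : ℝ) / 24 * ((D.val w : ℝ) / 24) * (D.lk v w : ℝ) ^ 2 :=
          mul_le_mul_of_nonneg_right h4 (sq_nonneg _)
      _ ≤ _ := mul_le_mul_of_nonneg_left (hlk v w) (by positivity)
  have e3 : (0 : ℝ) ≤ (X : ℝ) ^ (2 * W) := by positivity
  have e4 : (W : ℝ) ≤ (W : ℝ) ^ 2 := by nlinarith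
  nlinarith [mul_le_mul_of_nonneg_right e4 e3]

/-- the product of distinct integers `≥ 2` -/
theorem fact_le_prod (S : Finset ℕ) (hS : ∀ p ∈ S, 2 ≤ p) : (S.card + 1).factorial ≤ ∏ p ∈ S, p := by
  induction hn : S.card generalizing S with
  | zero =>
    rw [card_eq_zero.1 hn]
    simp
  | succ n ih =>
    have hne : S.Nonempty := card_pos.1 (by omega)
    set M := S.max' hne with hM
    have hMS : M ∈ S := S.max'_mem hne
    have h1 := ih (S.erase M) (fun p hp => hS p (mem_of_mem_erase hp))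
      (by rw [card_erase_of_mem hMS, hn]; rfl)
    have h2 : n + 2 ≤ M := by
      have h3 : S ⊆ Icc 2 M := fun p hp => mem_Icc.2 ⟨hS p hp, S.le_max' p hp⟩
      have h4 := card_le_card h3
      rw [Nat.card_Icc, hn] at h4
      omega
    rw [← mul_prod_erase S _ hMS, Nat.factorial_succ]
    exact Nat.mul_le_mul h2 h1

theorem leaf_fact {P : Prime} (v : Fin (P.n + 1)) (hv : (P.D.leaf v).Nonempty) :
    (((P.D.leaf v).card + 1).factorial : ℤ) ≤ |P.D.lk v v| := by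
  have h := P.isGraph
  have hon : ∀ u, P.D.On v v u ↔ u = v := by
    intro u
    unfold Data.On
    rw [SimpleGraph.dist_self]
    constructor
    · intro h1
      have h2 : P.D.graph.dist v u = 0 := by omega
      exact ((h.tree.1.dist_eq_zero_iff).1 h2).symm
    · rintro rfl
      simp
  unfold Data.lk
  have e1 : (univ.filter fun u => P.D.On v v u) = {v} := by
    ext u
    simp [hon]
  rw [e1, prod_singleton, abs_mul, abs_mul, abs_prod, abs_prod]
  have e2 : |P.D.sgn v| = 1 := by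
    rcases h.sign v with h2 | h2 <;> rw [h2] <;> simp
  rw [e2, one_mul]
  have e3 : (((P.D.leaf v).card + 1).factorial : ℤ) ≤ ∏ k ∈ P.D.leaf v, |(k : ℤ)| := by
    have h1 := fact_le_prod (P.D.leaf v) (h.two_le v)
    have h2 : ∏ k ∈ P.D.leaf v, |(k : ℤ)| = ((∏ k ∈ P.D.leaf v, k : ℕ) : ℤ) := by
      rw [Nat.cast_prod]
      exact prod_congr rfl fun k _ => Nat.abs_cast k
    rw [h2]
    exact_mod_cast h1
  have e4 : (1 : ℤ) ≤ ∏ x ∈ P.D.nbr v with ¬ P.D.On v v x, |P.D.wt v x| := by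
    obtain ⟨k, hk⟩ := hv
    calc (1 : ℤ) = ∏ _x ∈ P.D.nbr v with ¬ P.D.On v v _x, (1 : ℤ) := prod_const_one.symm
      _ ≤ _ := prod_le_prod (fun _ _ => zero_le_one) fun x hx => by
        refine Int.one_le_abs fun h0 => ?_
        have h1 := h.coprime_mixed v k hk x (mem_filter.1 hx).1
        rw [h0, isCoprime_zero_right, Int.isUnit_iff] at h1
        have h2 := h.two_le v k hk
        omega
  calc (((P.D.leaf v).card + 1).factorial : ℤ) = (((P.D.leaf v).card + 1).factorial : ℤ) * 1 :=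
        (mul_one _).symm
    _ ≤ _ := mul_le_mul e3 e4 (by norm_num) (prod_nonneg fun _ _ => abs_nonneg _)

end Pool.Agent.GSH.Lp
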