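import Pool.Agent.GSG.M4
import Pool.Agent.GSH.Defs
import Pool.Agent.GSN.N

set_option autoImplicit false

open Finset

namespace Pool.Agent.GSH

open Pool.Agent.GSP Pool.Agent.GSG

/-- one node cannot be invariant under the twists of a large prime -/
theorem ns_oneH {N : ℕ} (hN : 0 < N) (h4 : 4 ∣ N) {S : Finset ℕ} {k : ℕ} (hS : LeafG S k)
    (hNS : ∀ p ∈ S, 2 * p ∣ N) {l : ℕ} (hl : l.Prime) (hb : 4 ^ (S.card + 3) ≤ l)
    (hi : 1 ≤ xp l S)
    (h : ∀ t : ℤ, IsCoprime (tz N l (xp l S) t) (N : ℤ) →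
      YY S k 0 (tz N l (xp l S) t) ^ 2 = YY S k 0 1 ^ 2) : False := by
  have h64 := GSN.five_le hb
  have hbb := GSN.big_bound hb
  obtain ⟨q, c, hL⟩ := GSN.exists_lf hN hS hNS hl (by omega) hi
  obtain ⟨t₀, ht₀⟩ := tz_unit hN hl hi
  obtain ⟨Z, hZc, hZ⟩ := GSN.points hl hL.cop t₀
  obtain ⟨b, hb1, -⟩ := Pool.H42.PF.gg_isRF hS.two_le hS.coprime (k := k)
    (i := GSN.ii S k 0) (q := q) (GSN.rr_pos S 0) (s := 1) (fun p _ => isCoprime_one_left)
  have hne' : (Pool.H42.PF.poles S k (GSN.ii S k 0) q 1).Nonempty := by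
    unfold Pool.H42.PF.poles
    exact (GSN.TT_nonempty hS hL.mem 0).image _
  have hk := GSN.kap_ne hS 0 (GSN.rr S 0)
  refine hb1.not_const (GSN.rr_pos S 0) hne'
    (c := ((((YY S k 0 1).trailingCoeff : ℝ) : ℂ) / GSN.kap S k 0 (GSN.rr S 0)) ^ 2) (Z := Z)
    ?_ fun z hz => ?_
  · rw [Pool.H42.PF.card_poles hS.two_le hS.coprime (fun p _ => isCoprime_one_left)]
    have h7 := (GSN.deg_bound hL.mem k (GSN.ii S k 0)).1
    omega
  · obtain ⟨t, ht, rfl⟩ := hZ z hz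
    have hu := ht₀ t ht
    have hu' := uG_of h4 hNS hu
    have h5 := GSN.zz_notMem (k := k) (s := 1) (t := t) hS hL (by simpa using hu'.2)
      (GSN.ii S k 0)
    rw [mul_one] at h5
    refine ⟨GSN.zz_ne _ _ _, h5, ?_⟩
    have h6 := GSN.tau_eq (k := k) (s := 1) (t := t) hS hl hb hi hL (by rwa [mul_one])
    rw [mul_one, mul_one] at h6
    have h7 := congrArg Polynomial.trailingCoeff (h t hu)
    rw [sq, sq, Polynomial.trailingCoeff_mul, Polynomial.trailingCoeff_mul] at h7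
    have h8 : (((YY S k 0 (tz N l (xp l S) t)).trailingCoeff : ℝ) : ℂ) ^ 2 =
        (((YY S k 0 1).trailingCoeff : ℝ) : ℂ) ^ 2 := by
      rw [sq, sq]
      exact_mod_cast h7
    rw [div_pow, ← h8, h6]
    field_simp

end Pool.Agent.GSH
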