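import Pool.Agent.GSH.LpC
import Pool.Agent.GSH.LpD
import Pool.Agent.GSH.Deg
import Pool.Agent.GSX.Core

/-!
# Almost all families of diagrams are determined by their series among all families
-/

set_option autoImplicit false

open Finset PowerSeries Filter Topology

namespace Pool.Agent.GSH.Lp

open Pool.Agent.OHG Pool.Agent.H42.GS Pool.Agent.GSP Pool.Agent.GSX Pool.Agent.GSH.Den

/-- the numbers of leaves of a family are bounded in terms of the degree two part -/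
theorem leaf_bound {ι : Type} [Fintype ι] (κ : ℝ) (P : ι → Prime) (i : ι)
    (v : Fin ((P i).n + 1)) :
    ((((P i).D.leaf v).card + 1).factorial : ℝ) ^ 2 ≤
      768 * v2 (series κ (univ.val.map P)) + 32 := by
  have h1 := (prime_ge (P i)).2
  have h2 : v2 (part (P i).D) - 1 / 24 ≤ v2 (series κ (univ.val.map P)) := by
    rw [v2_series]
    exact mem_le _ (P i) (Multiset.mem_map_of_mem P (mem_univ_val i))
  have h0 := (prime_ge (P i)).1
  rcases ((P i).D.leaf v).eq_empty_or_nonempty with he | hne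
  · rw [he]
    norm_num
    linarith
  · have h3 := leaf_fact v hne
    have h4 : ((((P i).D.leaf v).card + 1).factorial : ℝ) ≤ |(((P i).D.lk v v : ℤ) : ℝ)| := by
      exact_mod_cast h3
    have h5 : ((((P i).D.leaf v).card + 1).factorial : ℝ) ^ 2 ≤ (((P i).D.lk v v : ℤ) : ℝ) ^ 2 := by
      rw [← sq_abs (((P i).D.lk v v : ℤ) : ℝ)]
      exact pow_le_pow_left₀ (by positivity) h4 2
    have h6 : (((P i).D.lk v v : ℤ) : ℝ) ^ 2 ≤ ∑ v, ∑ w, (((P i).D.lk v w : ℤ) : ℝ) ^ 2 := by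
      refine le_trans ?_ (single_le_sum (f := fun v => ∑ w, (((P i).D.lk v w : ℤ) : ℝ) ^ 2)
        (fun v _ => sum_nonneg fun w _ => sq_nonneg _) (mem_univ v))
      exact single_le_sum (f := fun w => (((P i).D.lk v w : ℤ) : ℝ) ^ 2)
        (fun w _ => sq_nonneg _) (mem_univ v)
    linarith

/-- factorials grow faster than exponential functions -/
theorem bd_lt (n h M : ℕ) (C : ℝ) : ∃ X₀ : ℕ, ∀ X : ℕ, X₀ ≤ X → ∀ A : ℕ,
    ((A + 1).factorial : ℝ) ^ 2 ≤ C * (X : ℝ) ^ M → bd n A ^ h < X := by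
  set c₁ : ℕ := ((n + 1) * 2 ^ 4) ^ ((n + 1) * h) with hc₁
  set c₂ : ℕ := 2 ^ ((n + 1) * h) with hc₂
  have hbd : ∀ A : ℕ, bd n A ^ h = c₁ * c₂ ^ A := by
    intro A
    unfold bd
    rw [hc₁, hc₂, ← pow_mul, ← pow_mul, mul_comm ((n + 1) * h) A, pow_mul 2 A, ← mul_pow, pow_add]
    congr 1
    ring
  have hlim := FloorSemiring.tendsto_pow_div_factorial_atTop ((c₂ : ℝ) ^ M)
  have hpos : (0 : ℝ) < 1 / (1 + |C| * (c₁ : ℝ) ^ M) := by positivity
  obtain ⟨A₀, hA₀⟩ := eventually_atTop.1 (hlim.eventually (gt_mem_nhds hpos))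
  refine ⟨c₁ * c₂ ^ A₀ + 1, fun X hX A hA => ?_⟩
  rw [hbd]
  by_contra hcon
  rw [not_lt] at hcon
  rcases lt_or_ge A A₀ with hlt | hge
  · have h1 : c₂ ^ A ≤ c₂ ^ A₀ := Nat.pow_le_pow_right (by positivity) hlt.le
    have h2 := Nat.mul_le_mul_left c₁ h1
    omega
  · have h1 := hA₀ A hge
    have h2 : (0 : ℝ) < (A.factorial : ℝ) := by exact_mod_cast Nat.factorial_pos A
    have h3 : (X : ℝ) ^ M ≤ (c₁ : ℝ) ^ M * ((c₂ : ℝ) ^ M) ^ A := by
      have h4 : (X : ℝ) ≤ c₁ * (c₂ : ℝ) ^ A := by exact_mod_cast hcon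
      calc (X : ℝ) ^ M ≤ (c₁ * (c₂ : ℝ) ^ A) ^ M := pow_le_pow_left₀ (by positivity) h4 M
        _ = _ := by rw [mul_pow, ← pow_mul, ← pow_mul, mul_comm A M]
    have h5 : (A.factorial : ℝ) ≤ ((A + 1).factorial : ℝ) ^ 2 := by
      have h6 : (A.factorial : ℝ) ≤ ((A + 1).factorial : ℝ) := by
        exact_mod_cast Nat.factorial_le (Nat.le_succ A)
      have h7 : (1 : ℝ) ≤ ((A + 1).factorial : ℝ) := by
        exact_mod_cast Nat.factorial_pos (A + 1)
      nlinarith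
    have h6 : (A.factorial : ℝ) ≤ |C| * (c₁ : ℝ) ^ M * ((c₂ : ℝ) ^ M) ^ A := by
      calc (A.factorial : ℝ) ≤ C * (X : ℝ) ^ M := h5.trans hA
        _ ≤ |C| * (X : ℝ) ^ M := mul_le_mul_of_nonneg_right (le_abs_self C) (by positivity)
        _ ≤ |C| * ((c₁ : ℝ) ^ M * ((c₂ : ℝ) ^ M) ^ A) :=
            mul_le_mul_of_nonneg_left h3 (abs_nonneg C)
        _ = _ := by ring
    rw [div_lt_div_iff₀ h2 (by positivity), one_mul] at h1
    have h8 : (0 : ℝ) ≤ ((c₂ : ℝ) ^ M) ^ A := by positivity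
    nlinarith

section family

variable {ι : Type} [Fintype ι] [DecidableEq ι] {n : ι → ℕ}
  {G : ∀ i, SimpleGraph (Fin (n i + 1))} {a : ∀ i, Fin (n i + 1) → ℕ}

omit [DecidableEq ι] in
/-- the degree two part is bounded by a power of the bound for the weights -/
theorem v2_fam_le (n : ι → ℕ) (G : ∀ i, SimpleGraph (Fin (n i + 1)))
    (a : ∀ i, Fin (n i + 1) → ℕ) : ∃ (C : ℝ) (M : ℕ), 0 ≤ C ∧ ∀ X : ℕ, 1 ≤ X → ∀ P : ι → Prime,
      P ∈ Fam G a X → ∀ κ : ℝ, v2 (series κ (univ.val.map P)) ≤ C * (X : ℝ) ^ M := by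
  let W : ι → ℕ := fun i => ∑ v, (a i v + dg (G i) v)
  refine ⟨∑ i, (W i : ℝ) ^ 2, 2 * ∑ i, W i, sum_nonneg fun i _ => by positivity,
    fun X hX P hP κ => ?_⟩
  obtain ⟨D, h, rfl, hg, ha, hl, hw⟩ := fam_mem hP
  have hX1 : (1 : ℝ) ≤ X := by exact_mod_cast hX
  rw [v2_series, Multiset.map_map]
  show ∑ i, (v2 (part (D i)) - 1 / 24) ≤ _
  rw [sum_mul]
  refine sum_le_sum fun i _ => ?_
  have h1 := v2_part_le (h i) hX (hl i) (hw i)
  have h2 : ∑ u, (D i).val u = W i := by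
    refine sum_congr rfl fun u _ => ?_
    show ((D i).leaf u).card + ((D i).nbr u).card = _
    rw [ha, card_nbr, hg]
  rw [h2] at h1
  have h3 : (X : ℝ) ^ (2 * W i) ≤ (X : ℝ) ^ (2 * ∑ i, W i) :=
    pow_le_pow_right₀ hX1 (Nat.mul_le_mul_left 2
      (single_le_sum (f := W) (fun _ _ => Nat.zero_le _) (mem_univ i)))
  have h4 := mul_le_mul_of_nonneg_left h3 (sq_nonneg (W i : ℝ))
  linarith

end family

end Pool.Agent.GSH.Lp

namespace Pool.Agent.GSH

open Pool.Agent.OHG Pool.Agent.GSP Pool.Agent.GSX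

/-- Almost all families of prime diagrams of a given type with weights at most `X` are generic and are
determined by the first `d X` coefficients of their series among all families. -/
theorem density_arb {ι : Type} [Fintype ι] [DecidableEq ι] {n : ι → ℕ}
    {G : ∀ i, SimpleGraph (Fin (n i + 1))} {a : ∀ i, Fin (n i + 1) → ℕ}
    (hG : ∀ i, (G i).IsTree) (ha : ∀ i v, 3 ≤ a i v + dg (G i) v) : ∃ d : ℕ → ℕ,
    Tendsto (fun X : ℕ => (({P : ι → Prime | (∀ i, P i ∈ Box (G i) (a i) X) ∧ GenH P ∧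
        ∀ {ι' : Type} [Fintype ι'] {κ κ' : ℝ} {P' : ι' → Prime},
          (∀ n ≤ d X, coeff n (series κ (univ.val.map P)) =
            coeff n (series κ' (univ.val.map P'))) →
          κ = κ' ∧ ∃ e : ι ≃ ι', ∀ i, Iso (P i) (P' (e i))}.ncard : ℝ) /
      {P : ι → Prime | ∀ i, P i ∈ Box (G i) (a i) X}.ncard)) atTop (𝓝 1) := by
  classical
  obtain ⟨C, M, hC, hCM⟩ := Lp.v2_fam_le n G a
  choose d hd using fun X : ℕ => exists_deg (C * (X : ℝ) ^ M)
  refine ⟨d, Den.tendsto_one (F := fun X => Den.Fam G a X) (fun X => Den.fam_finite X)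
    (fun X P hP => hP.1) fun ε hε => ?_⟩
  obtain ⟨c, hc, X₁, hX₁⟩ := Den.fam_lower hG ha
  obtain ⟨θ, hθ0, hθ1, X₂, hX₂⟩ := Den.lp_count n G a (η := ε * c) (by positivity)
  obtain ⟨h, hh⟩ := exists_nat_ge (1 / θ)
  set N := ∑ i, (n i + 1) with hN
  set A₀ := ∑ v : Den.Vx n, a v.1 v.2 with hA₀
  obtain ⟨X₃, hX₃⟩ := Lp.bd_lt N h M (768 * C + 32 + ((A₀ + 1).factorial : ℝ) ^ 2)
  refine ⟨X₁ + X₂ + X₃ + 1, fun X hX => ?_⟩
  have hX1 : 1 ≤ X := by omega
  have hXr : (1 : ℝ) ≤ X := by exact_mod_cast hX1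
  have hlow := hX₁ X (by omega)
  rw [Fintype.card_sum] at hlow
  refine ⟨lt_of_lt_of_le (by positivity) hlow, ?_⟩
  set F := Den.Fam G a X with hF
  have hFfin : F.Finite := Den.fam_finite X
  have hsub : F \ {P : ι → Prime | (∀ i, P i ∈ Box (G i) (a i) X) ∧ GenH P ∧
        ∀ {ι' : Type} [Fintype ι'] {κ κ' : ℝ} {P' : ι' → Prime},
          (∀ n ≤ d X, coeff n (series κ (univ.val.map P)) =
            coeff n (series κ' (univ.val.map P'))) →
          κ = κ' ∧ ∃ e : ι ≃ ι', ∀ i, Iso (P i) (P' (e i))} ⊆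
      {P : ι → Prime | P ∈ F ∧ ¬ LP ((X : ℝ) ^ θ) P} := by
    rintro P ⟨h1, h2⟩
    refine ⟨h1, fun hLP => h2 ?_⟩
    -- the bound for the leaves
    have hq : ∀ κ : ℝ, OHG.v2 (series κ (univ.val.map P)) ≤ C * (X : ℝ) ^ M :=
      fun κ => hCM X hX1 P h1 κ
    have hbig : ∀ A : ℕ, ((A + 1).factorial : ℝ) ^ 2 ≤
        (768 * C + 32 + ((A₀ + 1).factorial : ℝ) ^ 2) * (X : ℝ) ^ M → A₀ ≤ A → GenX A P := by
      intro A hA hAA
      have h3 := hX₃ X (by omega) A hA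
      obtain ⟨D, hD, rfl, hg, ha', hl, hw⟩ := Den.fam_mem h1
      have hcard : ∀ i v, ((D i).leaf v).card ≤ A₀ := by
        intro i v
        rw [ha']
        exact single_le_sum (f := fun v : Den.Vx n => a v.1 v.2) (s := univ)
          (fun _ _ => Nat.zero_le _) (mem_univ ⟨i, v⟩)
      refine ⟨fun i v => (hcard i v).trans hAA, fun i v hv => ?_⟩
      obtain ⟨p, hp⟩ := hv
      obtain ⟨l, hlp, hlX, hld, -, hpriv⟩ := hLP i v p hp
      refine ⟨l, 1, hlp, ?_, le_rfl, ⟨p, hp, by rwa [pow_one]⟩, fun j x hjx q hq' hlq => ?_⟩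
      · have h4 : (X : ℝ) ≤ (l : ℝ) ^ h := by
          have h5 : (1 : ℝ) ≤ θ * h := by
            rw [div_le_iff₀ hθ0, mul_comm] at hh
            exact hh
          calc (X : ℝ) = (X : ℝ) ^ (1 : ℝ) := (Real.rpow_one _).symm
            _ ≤ (X : ℝ) ^ (θ * h) := Real.rpow_le_rpow_of_exponent_le hXr h5
            _ = ((X : ℝ) ^ θ) ^ h := by
                rw [Real.rpow_mul (by linarith), Real.rpow_natCast]
            _ ≤ (l : ℝ) ^ h := pow_le_pow_left₀ (by positivity) hlX h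
        have h5 : X ≤ l ^ h := by exact_mod_cast h4
        have h6 : bd N A ^ h < l ^ h := lt_of_lt_of_le h3 h5
        exact lt_of_pow_lt_pow_left₀ h (Nat.zero_le _) h6
      · rw [pow_one] at hlq
        exact hjx (hpriv j x q hq' hlq).1
    have hone : (1 : ℝ) ≤ (X : ℝ) ^ M := one_le_pow₀ hXr
    have h3 : (0 : ℝ) ≤ 768 * C + 32 := by positivity
    have h4 : (0 : ℝ) ≤ ((A₀ + 1).factorial : ℝ) ^ 2 := by positivity
    have hA₀b : ((A₀ + 1).factorial : ℝ) ^ 2 ≤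
        (768 * C + 32 + ((A₀ + 1).factorial : ℝ) ^ 2) * (X : ℝ) ^ M := by nlinarith
    have hGA : GenX A₀ P := hbig A₀ hA₀b le_rfl
    have hGH : GenH P := hGA.genH
    refine ⟨h1, hGH, fun {ι'} _ {κ κ'} {P'} he => ?_⟩
    have hs := hd X κ κ' _ _ (hq κ) he
    -- the common bound for the numbers of leaves
    let f : (Σ j, Fin ((P' j).n + 1)) → ℕ := fun v => ((P' v.1).D.leaf v.2).card
    set A₁ := univ.sup f with hA₁
    have hle : ∀ j v, ((P' j).D.leaf v).card ≤ A₁ := fun j v =>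
      le_sup (f := f) (mem_univ (⟨j, v⟩ : Σ j, Fin ((P' j).n + 1)))
    have hG1 : GenX (max A₀ A₁) P := by
      refine hbig _ ?_ (le_max_left _ _)
      rcases le_or_gt A₁ A₀ with h5 | h5
      · rw [max_eq_left h5]
        exact hA₀b
      · rw [max_eq_right h5.le]
        have hne : (univ : Finset (Σ j, Fin ((P' j).n + 1))).Nonempty := by
          rw [nonempty_iff_ne_empty]
          intro h0
          rw [hA₁, h0, sup_empty] at h5
          exact absurd h5 (Nat.not_lt_zero _)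
        obtain ⟨w, -, hw⟩ := exists_mem_eq_sup _ hne f
        rw [hA₁, hw]
        have h6 := Lp.leaf_bound κ' P' w.1 w.2
        rw [← hs] at h6
        have h7 := hq κ
        calc ((f w + 1).factorial : ℝ) ^ 2 ≤ 768 * OHG.v2 (series κ (univ.val.map P)) + 32 := h6
          _ ≤ 768 * (C * (X : ℝ) ^ M) + 32 * (X : ℝ) ^ M := by linarith
          _ ≤ _ := by nlinarith
    exact separationX hG1 (fun j v => (hle j v).trans (le_max_right _ _)) hs
  have h3 := Set.ncard_le_ncard hsub (hFfin.subset fun P hP => hP.1)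
  have h4 : (((F \ {P : ι → Prime | (∀ i, P i ∈ Box (G i) (a i) X) ∧ GenH P ∧
        ∀ {ι' : Type} [Fintype ι'] {κ κ' : ℝ} {P' : ι' → Prime},
          (∀ n ≤ d X, coeff n (series κ (univ.val.map P)) =
            coeff n (series κ' (univ.val.map P'))) →
          κ = κ' ∧ ∃ e : ι ≃ ι', ∀ i, Iso (P i) (P' (e i))}).ncard : ℕ) : ℝ) ≤
      ({P : ι → Prime | P ∈ F ∧ ¬ LP ((X : ℝ) ^ θ) P}.ncard : ℝ) := by exact_mod_cast h3
  refine h4.trans ((hX₂ X (by omega)).trans ?_)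
  rw [mul_assoc]
  exact mul_le_mul_of_nonneg_left hlow hε.le

end Pool.Agent.GSH
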