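import Pool.Agent.GSH.LpE

/-!
# An explicit class of density one of diagrams which are determined among all diagrams
-/

set_option autoImplicit false

open Finset PowerSeries Filter Topology

namespace Pool.Agent.GSH

open Pool.Agent.OHG Pool.Agent.GSP Pool.Agent.GSX

/-- The class `Generic`. Let `N` be the number of all nodes of the family `P` and let `A` be the largest
integer with `((A + 1)!) ^ 2 ≤ 768 (c₂ - c₁ ^ 2 / 2) + 32`, where `c₁` and `c₂` are the first
coefficients of the series (`c₂ - c₁ ^ 2 / 2` does not depend on `κ`). Every node with leaves has a leaf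
divisible by a power `l ^ m`, `m ≥ 1`, of a prime `l > ((N + 1) 2 ^ (A + 4)) ^ (N + 1)`, and `l ^ m`
divides no leaf of another node of the family. -/
structure Generic {ι : Type} [Fintype ι] (P : ι → Prime) : Prop where
  priv : ∀ i v, ((P i).D.leaf v).Nonempty → ∃ l m : ℕ, l.Prime ∧ 1 ≤ m ∧
    (∃ p ∈ (P i).D.leaf v, l ^ m ∣ p) ∧
    (∀ j x, (⟨j, x⟩ : Σ j, Fin ((P j).n + 1)) ≠ ⟨i, v⟩ → ∀ p ∈ (P j).D.leaf x, ¬ l ^ m ∣ p) ∧
    ∀ A : ℕ, ((A + 1).factorial : ℝ) ^ 2 ≤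
        768 * (coeff 2 (series 0 (univ.val.map P)) - (coeff 1 (series 0 (univ.val.map P))) ^ 2 / 2) +
          32 →
      (((∑ i, ((P i).n + 1)) + 1) * 2 ^ (A + 4)) ^ ((∑ i, ((P i).n + 1)) + 1) < l

/-- the members of the class are determined by their series among all families -/
theorem Generic.separation {ι ι' : Type} [Fintype ι] [Fintype ι'] {κ κ' : ℝ} {P : ι → Prime}
    {P' : ι' → Prime} (hP : Generic P)
    (h : series κ (univ.val.map P) = series κ' (univ.val.map P')) :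
    κ = κ' ∧ ∃ e : ι ≃ ι', ∀ i, Iso (P i) (P' (e i)) := by
  classical
  have hv : v2 (series 0 (univ.val.map P)) = v2 (series κ (univ.val.map P)) := by
    rw [v2_series, v2_series]
  have hv' : v2 (series 0 (univ.val.map P)) = v2 (series κ' (univ.val.map P')) := by
    rw [hv, h]
  let f : (Σ i, Fin ((P i).n + 1)) ⊕ (Σ j, Fin ((P' j).n + 1)) → ℕ :=
    Sum.elim (fun v => ((P v.1).D.leaf v.2).card) (fun v => ((P' v.1).D.leaf v.2).card)
  set A := univ.sup f with hA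
  have hle : ∀ x, f x ≤ A := fun x => le_sup (f := f) (mem_univ x)
  have hAb : ((A + 1).factorial : ℝ) ^ 2 ≤ 768 * v2 (series 0 (univ.val.map P)) + 32 := by
    rcases (univ : Finset ((Σ i, Fin ((P i).n + 1)) ⊕ (Σ j, Fin ((P' j).n + 1)))).eq_empty_or_nonempty
      with he | hne
    · have h0 : A = 0 := by rw [hA, he, sup_empty]; rfl
      have h1 : IsEmpty ι := by
        refine ⟨fun i => ?_⟩
        have : (Sum.inl ⟨i, 0⟩ : (Σ i, Fin ((P i).n + 1)) ⊕ (Σ j, Fin ((P' j).n + 1))) ∈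
          (univ : Finset ((Σ i, Fin ((P i).n + 1)) ⊕ (Σ j, Fin ((P' j).n + 1)))) := mem_univ _
        rw [he] at this
        exact absurd this (notMem_empty _)
      rw [h0, v2_series]
      have h2 : (univ : Finset ι) = ∅ := univ_eq_empty
      rw [h2]
      norm_num
    · obtain ⟨w, -, hw⟩ := exists_mem_eq_sup _ hne f
      rw [hA, hw]
      rcases w with w | w
      · rw [hv]
        exact Lp.leaf_bound κ P w.1 w.2
      · rw [hv']
        exact Lp.leaf_bound κ' P' w.1 w.2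
  have hG : GenX A P := by
    refine ⟨fun i v => hle (Sum.inl ⟨i, v⟩), fun i v hv => ?_⟩
    obtain ⟨l, m, h1, h2, h3, h4, h5⟩ := hP.priv i v hv
    exact ⟨l, m, h1, h5 A hAb, h2, h3, h4⟩
  exact separationX hG (fun j v => hle (Sum.inr ⟨j, v⟩)) h

/-- almost all families of a given type are in the class -/
theorem Generic.density {ι : Type} [Fintype ι] {n : ι → ℕ}
    {G : ∀ i, SimpleGraph (Fin (n i + 1))} {a : ∀ i, Fin (n i + 1) → ℕ}
    (hG : ∀ i, (G i).IsTree) (ha : ∀ i v, 3 ≤ a i v + dg (G i) v) :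
    Tendsto (fun X : ℕ => (({P : ι → Prime | (∀ i, P i ∈ Box (G i) (a i) X) ∧ Generic P}.ncard : ℝ) /
      {P : ι → Prime | ∀ i, P i ∈ Box (G i) (a i) X}.ncard)) atTop (𝓝 1) := by
  classical
  obtain ⟨C, M, hC, hCM⟩ := Lp.v2_fam_le n G a
  refine Den.tendsto_one (F := fun X => Den.Fam G a X) (fun X => Den.fam_finite X)
    (fun X P hP => hP.1) fun ε hε => ?_
  obtain ⟨c, hc, X₁, hX₁⟩ := Den.fam_lower hG ha
  obtain ⟨θ, hθ0, hθ1, X₂, hX₂⟩ := Den.lp_count n G a (η := ε * c) (by positivity)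
  obtain ⟨h, hh⟩ := exists_nat_ge (1 / θ)
  set N := ∑ i, (n i + 1) with hN
  obtain ⟨X₃, hX₃⟩ := Lp.bd_lt N h M (768 * C + 32)
  refine ⟨X₁ + X₂ + X₃ + 1, fun X hX => ?_⟩
  have hX1 : 1 ≤ X := by omega
  have hXr : (1 : ℝ) ≤ X := by exact_mod_cast hX1
  have hlow := hX₁ X (by omega)
  rw [Fintype.card_sum] at hlow
  refine ⟨lt_of_lt_of_le (by positivity) hlow, ?_⟩
  set F := Den.Fam G a X with hF
  have hFfin : F.Finite := Den.fam_finite X
  have hsub : F \ {P : ι → Prime | (∀ i, P i ∈ Box (G i) (a i) X) ∧ Generic P} ⊆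
      {P : ι → Prime | P ∈ F ∧ ¬ LP ((X : ℝ) ^ θ) P} := by
    rintro P ⟨h1, h2⟩
    refine ⟨h1, fun hLP => h2 ⟨h1, ⟨fun i v hv => ?_⟩⟩⟩
    have hq := hCM X hX1 P h1 0
    obtain ⟨D, hD, rfl, hg, ha', hl, hw⟩ := Den.fam_mem h1
    obtain ⟨p, hp⟩ := hv
    obtain ⟨l, hlp, hlX, hld, -, hpriv⟩ := hLP i v p hp
    refine ⟨l, 1, hlp, le_rfl, ⟨p, hp, by rwa [pow_one]⟩, fun j x hjx q hq' hlq => ?_,
      fun A hA => ?_⟩
    · rw [pow_one] at hlq
      exact hjx (hpriv j x q hq' hlq).1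
    · have hone : (1 : ℝ) ≤ (X : ℝ) ^ M := one_le_pow₀ hXr
      have hA' : ((A + 1).factorial : ℝ) ^ 2 ≤ (768 * C + 32) * (X : ℝ) ^ M := by
        have hA2 : ((A + 1).factorial : ℝ) ^ 2 ≤
            768 * v2 (series 0 (univ.val.map fun i => (⟨n i, D i, hD i⟩ : Prime))) + 32 := hA
        nlinarith
      have h3 := hX₃ X (by omega) A hA'
      have h4 : (X : ℝ) ≤ (l : ℝ) ^ h := by
        have h5 : (1 : ℝ) ≤ θ * h := by
          rw [div_le_iff₀ hθ0, mul_comm] at hh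
          exact hh
        calc (X : ℝ) = (X : ℝ) ^ (1 : ℝ) := (Real.rpow_one _).symm
          _ ≤ (X : ℝ) ^ (θ * h) := Real.rpow_le_rpow_of_exponent_le hXr h5
          _ = ((X : ℝ) ^ θ) ^ h := by
              rw [Real.rpow_mul (by linarith), Real.rpow_natCast]
          _ ≤ (l : ℝ) ^ h := pow_le_pow_left₀ (by positivity) hlX h
      have h5 : X ≤ l ^ h := by exact_mod_cast h4
      have h6 : bd N A ^ h < l ^ h := lt_of_lt_of_le h3 h5
      exact lt_of_pow_lt_pow_left₀ h (Nat.zero_le _) h6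
  have h3 := Set.ncard_le_ncard hsub (hFfin.subset fun P hP => hP.1)
  have h4 : (((F \ {P : ι → Prime | (∀ i, P i ∈ Box (G i) (a i) X) ∧ Generic P}).ncard : ℕ) : ℝ) ≤
      ({P : ι → Prime | P ∈ F ∧ ¬ LP ((X : ℝ) ^ θ) P}.ncard : ℝ) := by exact_mod_cast h3
  refine h4.trans ((hX₂ X (by omega)).trans ?_)
  rw [mul_assoc]
  exact mul_le_mul_of_nonneg_left hlow hε.le

end Pool.Agent.GSH
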