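import Pool.Agent.GSG.M4
import Pool.Agent.GSH.Defs
import Pool.Agent.GSN.N

set_option autoImplicit false

open Finset

namespace Pool.Agent.GSH

open Pool.Agent.GSP Pool.Agent.GSG

private theorem sq_tr (P : Polynomial ℝ) : (((P ^ 2).trailingCoeff : ℝ) : ℂ) =
    ((P.trailingCoeff : ℝ) : ℂ) ^ 2 := by
  rw [sq, Polynomial.trailingCoeff_mul, sq]
  push_cast
  rfl

/-- the twists for two primes do not separate at a node if one of the primes is large -/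
theorem ns_twoH {N : ℕ} (hN : 0 < N) (h4 : 4 ∣ N) {S : Finset ℕ} {k : ℕ} (hS : LeafG S k)
    (hNS : ∀ p ∈ S, 2 * p ∣ N) {l l' : ℕ} (hne : l ≠ l') (hl : l.Prime)
    (h7 : 7 ≤ l) (hi : 1 ≤ xp l S) (hl' : l'.Prime) (hb' : 4 ^ (S.card + 3) ≤ l')
    (hi' : 1 ≤ xp l' S)
    (h : ∀ t t' : ℤ, IsCoprime (tz N l (xp l S) t) (N : ℤ) →
      IsCoprime (tz N l' (xp l' S) t') (N : ℤ) →
      (YY S k 0 (tz N l (xp l S) t * tz N l' (xp l' S) t') * YY S k 0 1) ^ 2 =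
        (YY S k 0 (tz N l (xp l S) t) * YY S k 0 (tz N l' (xp l' S) t')) ^ 2) : False := by
  have h64 := GSN.five_le hb'
  have hbb := GSN.big_bound hb'
  obtain ⟨q, c, hL⟩ := GSN.exists_lf hN hS hNS hl (by omega) hi
  obtain ⟨q', c', hL'⟩ := GSN.exists_lf hN hS hNS hl' (by omega) hi'
  obtain ⟨t₀, ht₀⟩ := tz_unit hN hl hi
  obtain ⟨t₀', ht₀'⟩ := tz_unit hN hl' hi'
  obtain ⟨G, hGc, hG, -⟩ := GSN.goods hl hL.cop t₀
  have hGn : G.Nonempty := by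
    rw [← Finset.card_pos]
    omega
  obtain ⟨t, ht⟩ := hGn
  obtain ⟨ht1, ht2⟩ := hG t ht
  have hu := ht₀ t ht1
  have hu' := uG_of h4 hNS hu
  set a : ℤ := tz N l (xp l S) t with ha
  obtain ⟨Z, hZc, hZ⟩ := GSN.points hl' hL'.cop t₀'
  obtain ⟨b₁, hb1, -⟩ := Pool.H42.PF.gg_isRF hS.two_le hS.coprime (k := k)
    (i := GSN.ii S k 0) (q := q') (GSN.rr_pos S 0) (s := 1) (fun p _ => isCoprime_one_left)
  obtain ⟨b₂, hb2, -⟩ := Pool.H42.PF.gg_isRF hS.two_le hS.coprime (k := k)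
    (i := GSN.ii S k 0) (q := q') (GSN.rr_pos S 0) (s := a) hu'.2
  have hk := GSN.kap_ne hS 0 (GSN.rr S 0)
  have hU1 : UG S 1 := ⟨odd_one, fun p _ => isCoprime_one_left⟩
  have hτ1 := (GSN.trail hS hl' hb' hi' (Nat.zero_le 1) hU1 hL'.mem).1
  have hτa := (GSN.trail hS hl' hb' hi' (Nat.zero_le 1) hu' hL'.mem).1
  have hτ1' : (((YY S k 0 1).trailingCoeff : ℝ) : ℂ) ≠ 0 := by exact_mod_cast hτ1
  have hτa' : (((YY S k 0 a).trailingCoeff : ℝ) : ℂ) ≠ 0 := by exact_mod_cast hτa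
  obtain ⟨hW, -, -⟩ := hb2.compare hb1 (GSN.rr_pos S 0) (GSN.rr_pos S 0)
    (c₁ := (((YY S k 0 1).trailingCoeff : ℝ) : ℂ) ^ 2)
    (c₂ := (((YY S k 0 a).trailingCoeff : ℝ) : ℂ) ^ 2) (pow_ne_zero 2 hτ1') (pow_ne_zero 2 hτa')
    (Z := Z) (by
      rw [Pool.H42.PF.card_poles hS.two_le hS.coprime (fun p _ => isCoprime_one_left),
        Pool.H42.PF.card_poles hS.two_le hS.coprime hu'.2]
      have h7 := (GSN.deg_bound hL'.mem k (GSN.ii S k 0)).1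
      omega) fun z hz => by
    obtain ⟨t', ht', rfl⟩ := hZ z hz
    have hv := ht₀' t' ht'
    have hv' := uG_of h4 hNS hv
    have hzt : GSN.zz l' c' (t' * a) = GSN.zz l' c' t' :=
      GSN.zz_tz hN hl' hl hne (GSN.dvd_N hNS hL') (xp l S) c' t' t
    have huv : UG S (tz N l' (xp l' S) t' * a) := ⟨hv'.1.mul hu'.1, fun p hp =>
      (hv'.2 p hp).mul_left (hu'.2 p hp)⟩
    have h5 := GSN.zz_notMem (k := k) (s := 1) (t := t') hS hL' (by simpa using hv'.2)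
      (GSN.ii S k 0)
    rw [mul_one] at h5
    have h5' := GSN.zz_notMem (k := k) (s := a) (t := t') hS hL' huv.2 (GSN.ii S k 0)
    rw [hzt] at h5'
    refine ⟨GSN.zz_ne _ _ _, h5', h5, ?_⟩
    have h6 := GSN.tau_eq (k := k) (s := 1) (t := t') hS hl' hb' hi' hL' (by rwa [mul_one])
    rw [mul_one, mul_one] at h6
    have h6' := GSN.tau_eq (k := k) (s := a) (t := t') hS hl' hb' hi' hL' huv
    rw [hzt] at h6'
    have h7 := congrArg (fun P : Polynomial ℝ => ((P.trailingCoeff : ℝ) : ℂ)) (h t t' hu hv)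
    simp only [sq_tr, Polynomial.trailingCoeff_mul, Complex.ofReal_mul] at h7
    rw [← ha, mul_comm a, h6', h6] at h7
    apply mul_left_cancel₀ (pow_ne_zero 2 hk)
    linear_combination h7
  obtain ⟨T₀, hT₀⟩ := GSN.TT_nonempty hS hL'.mem 0
  have hmem : (Pool.H42.PF.ww S k a T₀)⁻¹ ∈ Pool.H42.PF.poles S k (GSN.ii S k 0) q' a :=
    Finset.mem_image_of_mem _ hT₀
  rw [hW] at hmem
  obtain ⟨T, hT, he⟩ := Finset.mem_image.1 hmem
  have he' := inv_injective he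
  refine ht2 (GSN.order (k := k) (s := 1) (t := t) hS hL (fun p _ => isCoprime_one_left)
    (Pool.H42.PF.mem_TT.1 hT).1 (Pool.H42.PF.mem_TT.1 hT₀).1 ?_)
  rw [mul_one, ← ha]
  exact he'.symm

end Pool.Agent.GSH
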