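import Pool.Agent.GSH.T2
import Pool.Agent.GSH.N1
import Pool.Agent.GSH.N2

/-!
PROOFS (module T3). As in GSG/T3.lean (version with a bound B; adapt that proof as soon as it is on main), with
`f v s = YY (D.S v) (D.k v) 0 s`, `U s = IsCoprime s N`, `four_single`, `one_single` (GSG/T1), `YY_fix`, `YY_fix'` (GSG/T2),
`YYG_ne`, `uG_of` (GSG/M4). The large prime in `ns_twoH` is the private prime `l'` of `w` (`hw.big`); `l` is only `≥ 7`.
`claim_oneH`: let `w` be a node of `D'` with the largest exponent `j > xp l (D.S v)` of `l`, `l'` private for `w`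
(`h.ok'.priv`). `l' = l`: `one_single` and `ns_oneH` at `w` (its private prime is large). `l' ≠ l`: `claim_twoH h.symm`
(`7 ≤ l` by `PrH.le`). `claim_exH`: `one_single` and `ns_oneH` at `v`.
-/

set_option autoImplicit false

open Finset

namespace Pool.Agent.GSH

open Pool.Agent.GSP Pool.Agent.GSG

variable {V V' : Type} [Fintype V] [DecidableEq V] [Fintype V'] [DecidableEq V'] {D : Dat V}
  {D' : Dat V'} {N : ℕ}

omit [Fintype V] [DecidableEq V] in
private theorem T3_fix {M : ℕ} {E : Dat V} (hM : 0 < M) (hok : OkH E) (hn : Nice E M) {l i : ℕ}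
    (hl : l.Prime) (h5 : 5 ≤ l) {u : V} (h : xp l (E.S u) < i) (t s : ℤ) :
    YY (E.S u) (E.k u) 0 (s * tz M l i t) = YY (E.S u) (E.k u) 0 s :=
  YY_fix' hM (hok.leaf u).pos (hn.dvd u) hl h5 h (E.k u) 0 t s

private theorem T3_fix1 {M : ℕ} {E : Dat V} (hM : 0 < M) (hok : OkH E) (hn : Nice E M) {l i : ℕ}
    (hl : l.Prime) (h5 : 5 ≤ l) {u : V} (h : xp l (E.S u) < i) (t : ℤ) :
    YY (E.S u) (E.k u) 0 (tz M l i t) = YY (E.S u) (E.k u) 0 1 := by
  have h1 := T3_fix hM hok hn hl h5 h t 1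
  rwa [one_mul] at h1

omit [Fintype V] [DecidableEq V] in
private theorem T3_ne {M : ℕ} {E : Dat V} (hok : OkH E) (hn : Nice E M) :
    ∀ (v : V) (s : ℤ), IsCoprime s (M : ℤ) → YY (E.S v) (E.k v) 0 s ≠ 0 := fun v _ hs =>
  YYG_ne (hok.leaf v) 0 (uG_of hn.four (hn.dvd v) hs)

/-- one twist which acts at one node of the first side only -/
private theorem T3_one (h : CmpH N D D') {l i : ℕ} (hl : l.Prime) (h5 : 5 ≤ l) {v : V}
    (hv : ∀ u, u ≠ v → xp l (D.S u) < i) (hv' : ∀ u, xp l (D'.S u) < i) {t : ℤ}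
    (ht : IsCoprime (tz N l i t) (N : ℤ)) :
    YY (D.S v) (D.k v) 0 (tz N l i t) ^ 2 = YY (D.S v) (D.k v) 0 1 ^ 2 := by
  obtain ⟨a, b, ha, hb, hm⟩ := h.mass
  exact one_single (f := fun v s => YY (D.S v) (D.k v) 0 s)
    (f' := fun v s => YY (D'.S v) (D'.k v) 0 s) (U := fun s => IsCoprime s (N : ℤ))
    (Polynomial.C_ne_zero.2 ha) (Polynomial.C_ne_zero.2 hb) isCoprime_one_left
    (T3_ne h.ok h.nice) (T3_ne h.ok' h.nice') hm ht v
    (fun u hu => T3_fix1 h.pos h.ok h.nice hl h5 (hv u hu) t)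
    (fun u => T3_fix1 h.pos h.ok' h.nice' hl h5 (hv' u) t)

/-- the twists for a prime `l` and for a private prime `l'` of `w` cannot be separated at exactly one
node -/
theorem claim_twoH (h : CmpH N D D') {l l' : ℕ} {i : ℕ} {w : V} (hl : l.Prime)
    (hb : 7 ≤ l) (hw : PrH D l' w) (hi : 1 ≤ i) (hlw : xp l (D.S w) = i)
    (hne : l ≠ l') (h' : ∀ u, xp l (D'.S u) < i ∨ xp l' (D'.S u) < xp l' (D.S w)) : False := by
  have h5 : 5 ≤ l := by omega
  have h5' : 5 ≤ l' := by
    have := hw.le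
    omega
  refine ns_twoH h.pos h.nice.four (h.ok.leaf w) (h.nice.dvd w) hne hl hb (by omega) hw.prime
    hw.big hw.pos ?_
  intro t t' ht ht'
  rw [hlw] at ht ⊢
  obtain ⟨a, b, ha, hb, hm⟩ := h.mass
  exact four_single (f := fun v s => YY (D.S v) (D.k v) 0 s)
    (f' := fun v s => YY (D'.S v) (D'.k v) 0 s) (U := fun s => IsCoprime s (N : ℤ))
    (Polynomial.C_ne_zero.2 ha) (Polynomial.C_ne_zero.2 hb) isCoprime_one_left
    (fun s t hs ht => hs.mul_left ht)
    (T3_ne h.ok h.nice) (T3_ne h.ok' h.nice') hm ht ht' w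
    (fun u hu => by
      show YY (D.S u) (D.k u) 0 (tz N l i t * tz N l' (xp l' (D.S w)) t') *
        YY (D.S u) (D.k u) 0 1 = YY (D.S u) (D.k u) 0 (tz N l i t) *
        YY (D.S u) (D.k u) 0 (tz N l' (xp l' (D.S w)) t')
      rw [T3_fix h.pos h.ok h.nice hw.prime h5' (hw.lt u hu) t' _,
        T3_fix1 h.pos h.ok h.nice hw.prime h5' (hw.lt u hu) t'])
    (fun u => by
      show YY (D'.S u) (D'.k u) 0 (tz N l i t * tz N l' (xp l' (D.S w)) t') *
        YY (D'.S u) (D'.k u) 0 1 = YY (D'.S u) (D'.k u) 0 (tz N l i t) *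
        YY (D'.S u) (D'.k u) 0 (tz N l' (xp l' (D.S w)) t')
      rcases h' u with hu | hu
      · rw [mul_comm (tz N l i t), T3_fix h.pos h.ok' h.nice' hl h5 hu t _,
          T3_fix1 h.pos h.ok' h.nice' hl h5 hu t, mul_comm]
      · rw [T3_fix h.pos h.ok' h.nice' hw.prime h5' hu t' _,
          T3_fix1 h.pos h.ok' h.nice' hw.prime h5' hu t'])

/-- the exponents of a private prime on the other side are not larger -/
theorem claim_oneH (h : CmpH N D D') {l : ℕ} {v : V} (hv : PrH D l v) (x : V') :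
    xp l (D'.S x) ≤ xp l (D.S v) := by
  by_contra hcon
  push Not at hcon
  obtain ⟨w, -, hw⟩ := Finset.exists_max_image (Finset.univ : Finset V')
    (fun u => xp l (D'.S u)) ⟨x, Finset.mem_univ x⟩
  have hj : xp l (D.S v) < xp l (D'.S w) := lt_of_lt_of_le hcon (hw x (Finset.mem_univ x))
  have hpos := hv.pos
  have hle := hv.le
  have hall : ∀ u, xp l (D.S u) < xp l (D'.S w) := by
    intro u
    by_cases hu : u = v
    · rw [hu]
      exact hj
    · exact (hv.lt u hu).trans hj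
  have hne : (D'.S w).Nonempty := by
    rw [Finset.nonempty_iff_ne_empty]
    intro h0
    rw [h0] at hj
    simp [xp] at hj
  obtain ⟨l', hl'⟩ := h.ok'.priv w hne
  by_cases hll : l = l'
  · subst hll
    exact ns_oneH h.pos h.nice.four (h.ok'.leaf w) (h.nice'.dvd w) hv.prime hl'.big hl'.pos
      fun t ht => T3_one h.symm hv.prime (by omega) hl'.lt hall ht
  · exact claim_twoH h.symm hv.prime (by omega) hl' (by omega) rfl hll fun u => Or.inl (hall u)

/-- a private prime occurs on the other side with the same exponent -/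
theorem claim_exH (h : CmpH N D D') {l : ℕ} {v : V} (hv : PrH D l v) :
    ∃ x, xp l (D'.S x) = xp l (D.S v) := by
  by_contra hcon
  push Not at hcon
  have hle := hv.le
  exact ns_oneH h.pos h.nice.four (h.ok.leaf v) (h.nice.dvd v) hv.prime hv.big hv.pos
    fun t ht => T3_one h hv.prime (by omega) hv.lt
      (fun x => lt_of_le_of_ne (claim_oneH h hv x) (hcon x)) ht

end Pool.Agent.GSH
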