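import Pool.Agent.GSH.T3
import Pool.Agent.GSH.N3

/-!
PROOFS (module T4). As in GSG/T4.lean (version with a bound B; adapt that proof as soon as it is on main). In
`ns_threeH` at `v` the large prime is the private prime `l` of `v`; `l₁, l₂ ≥ 64` (`PrH.le`). `matchingH`: both
statements for each `v`: the second one is the first one for the inverse map `τ'` at `τ v`.
-/

set_option autoImplicit false

open Finset

namespace Pool.Agent.GSH

open Pool.Agent.GSP Pool.Agent.GSG

variable {V V' : Type} [Fintype V] [DecidableEq V] [Fintype V'] [DecidableEq V'] {D : Dat V}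
  {D' : Dat V'} {N : ℕ}

private theorem T4_nonempty {S : Finset ℕ} {l : ℕ} (h : 1 ≤ xp l S) : S.Nonempty := by
  rw [Finset.nonempty_iff_ne_empty]
  intro h0
  rw [h0] at h
  simp [xp] at h

/-- if a private prime `l` of `v` occurs with the same exponent at `x`, and `l₁` is private for `x` and
different from `l`, then `l₁` occurs at `v` with the same exponent -/
private theorem T4_eq (h : CmpH N D D') {l l₁ : ℕ} {v : V} {x : V'} (hv : PrH D l v)
    (hx : xp l (D'.S x) = xp l (D.S v)) (h₁ : PrH D' l₁ x) (hne : l ≠ l₁) :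
    xp l₁ (D.S v) = xp l₁ (D'.S x) := by
  refine le_antisymm (claim_oneH h.symm h₁ v) ?_
  by_contra hlt
  rw [not_le] at hlt
  refine claim_twoH h.symm (l := l) (l' := l₁) (i := xp l (D.S v)) (w := x) hv.prime
    (le_trans (by norm_num) hv.le) h₁ hv.pos hx hne fun u => ?_
  by_cases hu : u = v
  · right
    rw [hu]
    exact hlt
  · exact Or.inl (hv.lt u hu)

/-- a private prime occurs with the same exponent only once on the other side -/
theorem claim_uniqH (h : CmpH N D D') {l : ℕ} {v : V} (hv : PrH D l v) {x y : V'}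
    (hx : xp l (D'.S x) = xp l (D.S v)) (hy : xp l (D'.S y) = xp l (D.S v)) : x = y := by
  by_contra hxy
  obtain ⟨l₁, h₁⟩ := h.ok'.priv x (T4_nonempty (l := l) (by rw [hx]; exact hv.pos))
  obtain ⟨l₂, h₂⟩ := h.ok'.priv y (T4_nonempty (l := l) (by rw [hy]; exact hv.pos))
  have h01 : l ≠ l₁ := by
    rintro rfl
    have := h₁.lt y (Ne.symm hxy)
    omega
  have h02 : l ≠ l₂ := by
    rintro rfl
    have := h₂.lt x hxy
    omega
  have h12 : l₁ ≠ l₂ := by
    rintro rfl
    exact hxy (h₁.unique h₂)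
  have e1 := T4_eq h hv hx h₁ h01
  have e2 := T4_eq h hv hy h₂ h02
  obtain ⟨a, b, ha, hb, hm⟩ := h.mass
  refine ns_threeH h.pos h.nice.four (h.ok.leaf v) (h.nice.dvd v) h01 h02 h12 hv.prime hv.big
    hv.pos h₁.prime (le_trans (by norm_num) h₁.le) (by rw [e1]; exact h₁.pos) h₂.prime
    (le_trans (by norm_num) h₂.le) (by rw [e2]; exact h₂.pos) fun t t₁ t₂ ht ht₁ ht₂ => ?_
  refine eight_single (K := Polynomial ℝ) (f := fun v s => YY (D.S v) (D.k v) 0 s)
    (f' := fun v s => YY (D'.S v) (D'.k v) 0 s) (a := Polynomial.C a) (b := Polynomial.C b)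
    (U := fun s : ℤ => IsCoprime s (N : ℤ)) (by simpa using ha) (by simpa using hb)
    isCoprime_one_left (fun s t hs ht => hs.mul_left ht)
    (fun v s hs => YYG_ne (h.ok.leaf v) 0 (uG_of h.nice.four (h.nice.dvd v) hs))
    (fun v s hs => YYG_ne (h.ok'.leaf v) 0 (uG_of h.nice'.four (h.nice'.dvd v) hs))
    hm ht ht₁ ht₂ v (fun u hu => ?_) (fun u => ?_)
  · have hf : ∀ s : ℤ, YY (D.S u) (D.k u) 0 (tz N l (xp l (D.S v)) t * s) =
        YY (D.S u) (D.k u) 0 s := fun s =>
      YY_fix h.pos (h.ok.leaf u).pos (h.nice.dvd u) hv.prime (le_trans (by norm_num) hv.le)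
        (hv.lt u hu) (D.k u) 0 t s
    have hf1 := hf 1
    rw [mul_one] at hf1
    simp only [hf, hf1]
    ring
  · by_cases hu : u = x
    · subst hu
      have hf : ∀ s : ℤ, YY (D'.S u) (D'.k u) 0 (s * tz N l₂ (xp l₂ (D.S v)) t₂) =
          YY (D'.S u) (D'.k u) 0 s := fun s =>
        YY_fix' h.pos (h.ok'.leaf u).pos (h.nice'.dvd u) h₂.prime (le_trans (by norm_num) h₂.le)
          (by rw [e2]; exact h₂.lt u hxy) (D'.k u) 0 t₂ s
      have hf1 := hf 1
      rw [one_mul] at hf1
      have hf2 := hf (tz N l (xp l (D.S v)) t * tz N l₁ (xp l₁ (D.S v)) t₁)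
      rw [mul_assoc] at hf2
      simp only [hf2, hf, hf1]
    · have hf : ∀ s : ℤ, YY (D'.S u) (D'.k u) 0 (tz N l₁ (xp l₁ (D.S v)) t₁ * s) =
          YY (D'.S u) (D'.k u) 0 s := fun s =>
        YY_fix h.pos (h.ok'.leaf u).pos (h.nice'.dvd u) h₁.prime (le_trans (by norm_num) h₁.le)
          (by rw [e1]; exact h₁.lt u hu) (D'.k u) 0 t₁ s
      have hf1 := hf 1
      rw [mul_one] at hf1
      have hf2 := hf (tz N l (xp l (D.S v)) t * tz N l₂ (xp l₂ (D.S v)) t₂)
      rw [mul_left_comm] at hf2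
      have hf3 := hf (tz N l (xp l (D.S v)) t)
      rw [mul_comm] at hf3
      simp only [hf2, hf3, hf, hf1]
      ring

/-- the choice of the image of a node with leaves -/
private theorem T4_pick (h : CmpH N D D') (v : {v // (D.S v).Nonempty}) :
    ∃ (l : ℕ) (x : {v // (D'.S v).Nonempty}), PrH D l (v : V) ∧
      xp l (D'.S x) = xp l (D.S v) ∧ ∀ y, y ≠ (x : V') → xp l (D'.S y) < xp l (D.S v) := by
  obtain ⟨l, hl⟩ := h.ok.priv v v.2
  obtain ⟨x, hx⟩ := claim_exH h hl
  refine ⟨l, ⟨x, T4_nonempty (l := l) (by rw [hx]; exact hl.pos)⟩, hl, hx, fun y hy => ?_⟩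
  refine lt_of_le_of_ne (claim_oneH h hl y) fun hyl => hy ?_
  exact claim_uniqH h hl hyl hx

/-- the image of the image of a node is the node -/
private theorem T4_back (h : CmpH N D D') {l l' : ℕ} {v w : V} {x : V'} (hv : PrH D l v)
    (hx : xp l (D'.S x) = xp l (D.S v)) (h' : PrH D' l' x)
    (hw : xp l' (D.S w) = xp l' (D'.S x)) : w = v := by
  by_cases hne : l = l'
  · subst hne
    exact claim_uniqH h.symm h' hw hx.symm
  · exact claim_uniqH h.symm h' hw (T4_eq h hv hx h' hne)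

/-- the matching of the nodes with leaves -/
theorem matchingH (h : CmpH N D D') :
    ∃ τ : {v // (D.S v).Nonempty} ≃ {v // (D'.S v).Nonempty},
      ∀ v : {v // (D.S v).Nonempty},
        (∃ l, PrH D l (v : V) ∧ xp l (D'.S (τ v)) = xp l (D.S v) ∧
          ∀ x, x ≠ (τ v : V') → xp l (D'.S x) < xp l (D.S v)) ∧
        ∃ l, PrH D' l (τ v : V') ∧ xp l (D.S v) = xp l (D'.S (τ v)) ∧
          ∀ x, x ≠ (v : V) → xp l (D.S x) < xp l (D'.S (τ v)) := by
  choose L T hL hT hT' using T4_pick h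
  choose L' T₁ hL' hT₁ hT₁' using T4_pick h.symm
  have left : Function.LeftInverse T₁ T := fun v =>
    Subtype.ext (T4_back h (hL v) (hT v) (hL' (T v)) (hT₁ (T v)))
  have right : Function.RightInverse T₁ T := fun x =>
    Subtype.ext (T4_back h.symm (hL' x) (hT₁ x) (hL (T₁ x)) (hT (T₁ x)))
  refine ⟨⟨T, T₁, left, right⟩, fun v => ⟨⟨L v, hL v, hT v, hT' v⟩, L' (T v), hL' (T v), ?_, ?_⟩⟩
  · have h1 := hT₁ (T v)
    rw [left v] at h1
    exact h1
  · have h1 := hT₁' (T v)
    rw [left v] at h1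
    exact h1

end Pool.Agent.GSH
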