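import Pool.Agent.GSG.M4
import Pool.Agent.GSH.Defs
import Pool.Agent.GSN.A1
import Pool.Agent.GSN.A2

/-!
PROOF (module U1). Suppose `mm S k 1 (tz t) = mm S k 1 1` for all `t` with `tz t` prime to `N`. `YY S k j s` is not `0` for
units (`YYG_ne`), so `YY S k 1 (tz t) * YY S k 0 1 = YY S k 1 1 * YY S k 0 (tz t)` (`div_eq_div_iff`, `toC_inj`). Take `q`, `c`
from `exists_lf` (GSN/A2), `i₁ = ii S k 1`, `r₁ = rr S 1`, `i₀ = ii S k 0`, `r₀ = rr S 0`. The trailing coefficients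
(`Polynomial.trailingCoeff_mul`, `trail` in GSN/A1 for `j = 1` and `j = 0`, at `s = tz t = tz t * 1` and `s = 1`; `gg_tz`) give
`c₁ * gg S k i₁ r₁ q 1 z = c₀ * gg S k i₀ r₀ q 1 z` for `z = zz l c t`, with constants `c₁, c₀ ≠ 0`. Square this and use
`IsRF.compare` (H42/PF/Basic) with `gg_isRF` (H42/PF/Leaf, `s = 1`), `Z` from `points` and `tz_unit` (GSG/R6), `zz_notMem`;
the condition `2 (r₁ |TT₁| + r₀ |TT₀|) < |Z|` follows from `deg_bound` (`2 (2 ^ (|S| + 2) + 2 ^ (|S| + 1)) ≤ l - 1`, `card_poles`).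
It gives: the poles agree, `r₁ = r₀` (the poles are nonempty: `TT_nonempty`), so `a := |S| ≥ 5` (`rr S 1 = max 1 (6 - a)`,
`rr S 0 = max 1 (4 - a)`), and `c₁² b₁² = c₀² b₀²` at the poles. By `ww_inj` `TT S k i₁ q = TT S k i₀ q`, and with the values of
`b₁`, `b₀` from `gg_isRF`: `C₁ (tc k i₁ α)² = C₀ (tc k i₀ α)²` for `α = al S T`, `T ∈ TT`, `C₁, C₀ ≠ 0`; for the other `T ⊆ S`,
`q ∈ T`, both sides are `0`. With the polynomials `F₁`, `F₀` of `exists_tp` (GSN/A0), of degree `ms S 1 = a - 5` and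
`ms S 0 = a - 3`, the polynomial `C₁ F₁² - C₀ F₀²` over `ℂ` is not `0` and has degree `2 (a - 3)`, but it has
`2 ^ (a - 1) > 2 (a - 3)` roots (`card_filter`, `al_inj` in GSN/A0): contradiction.
-/

set_option autoImplicit false

open Finset

namespace Pool.Agent.GSH

open Pool.Agent.GSP Pool.Agent.GSG Pool.Agent.GSN Pool.H42.PF

/-- the squares of the two Taylor coefficients are not proportional -/
private theorem no_prop {S : Finset ℕ} {k : ℕ} (hS : LeafG S k) {q : ℕ} (hq : q ∈ S)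
    (h5 : 5 ≤ S.card) {C₁ C₀ : ℂ} (hC₀ : C₀ ≠ 0)
    (h : ∀ T : Finset ℕ, T ⊆ S → q ∈ T →
      C₁ * ((tc k (ii S k 1) (al S T) : ℚ) : ℂ) ^ 2 =
        C₀ * ((tc k (ii S k 0) (al S T) : ℚ) : ℂ) ^ 2) : False := by
  classical
  obtain ⟨F₁, hF₁, hd₁, -⟩ := exists_tp (ii_lt hS 1)
  obtain ⟨F₀, hF₀, hd₀, -⟩ := exists_tp (ii_lt hS 0)
  rw [sub_ii hS 1] at hd₁
  rw [sub_ii hS 0] at hd₀
  unfold ms at hd₁ hd₀
  have hinj : Function.Injective (algebraMap ℚ ℂ) := (algebraMap ℚ ℂ).injective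
  have hev : ∀ (F : Polynomial ℚ) (x : ℚ), (F.map (algebraMap ℚ ℂ)).eval ((x : ℚ) : ℂ) =
      ((F.eval x : ℚ) : ℂ) := by
    intro F x
    have h1 := Polynomial.eval_map_algebraMap (R := ℚ) (P := F) (B := ℂ) ((x : ℚ) : ℂ)
    rw [h1]
    have h2 := Polynomial.aeval_algebraMap_apply (A := ℚ) ℂ x F
    have h3 : algebraMap ℚ ℂ x = ((x : ℚ) : ℂ) := rfl
    rw [h3] at h2
    rw [h2]
    simp
  have hm1 : (F₁.map (algebraMap ℚ ℂ)).natDegree = S.card - (3 + 2 * 1) := by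
    rw [Polynomial.natDegree_map_eq_of_injective hinj, hd₁]
  have hm0 : (F₀.map (algebraMap ℚ ℂ)).natDegree = S.card - (3 + 2 * 0) := by
    rw [Polynomial.natDegree_map_eq_of_injective hinj, hd₀]
  have hB : (Polynomial.C C₀ * (F₀.map (algebraMap ℚ ℂ)) ^ 2).natDegree = 2 * (S.card - 3) := by
    rw [Polynomial.natDegree_C_mul hC₀, Polynomial.natDegree_pow, hm0]
  have hA : (Polynomial.C C₁ * (F₁.map (algebraMap ℚ ℂ)) ^ 2).natDegree ≤ 2 * (S.card - 5) := by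
    refine (Polynomial.natDegree_C_mul_le _ _).trans ?_
    rw [Polynomial.natDegree_pow, hm1]
  have hcard : ((S.powerset.filter fun T => q ∈ T).image
      fun T => ((al S T : ℚ) : ℂ)).card = 2 ^ (S.card - 1) := by
    rw [Finset.card_image_of_injOn, card_filter hq]
    intro T hT T' hT' h1
    rw [Finset.mem_coe, Finset.mem_filter, Finset.mem_powerset] at hT hT'
    exact al_inj hS.two_le hS.coprime hT.1 hT'.1 (Rat.cast_injective h1)
  have hlt : 2 * (S.card - 3) < ((S.powerset.filter fun T => q ∈ T).image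
      fun T => ((al S T : ℚ) : ℂ)).card := by
    rw [hcard]
    obtain ⟨n, hn⟩ : ∃ n, S.card = n + 5 := ⟨S.card - 5, by omega⟩
    rw [hn]
    have e1 : n + 5 - 1 = n + 4 := by omega
    have e2 : n < 2 ^ n := Nat.lt_two_pow_self
    rw [e1, pow_add]
    omega
  have hid := IsRF.ident (A := Polynomial.C C₁ * (F₁.map (algebraMap ℚ ℂ)) ^ 2)
    (B := Polynomial.C C₀ * (F₀.map (algebraMap ℚ ℂ)) ^ 2) (n := 2 * (S.card - 3))
    (hA.trans (by omega)) hB.le hlt (fun z hz => by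
      obtain ⟨T, hT, rfl⟩ := Finset.mem_image.1 hz
      rw [Finset.mem_filter, Finset.mem_powerset] at hT
      have h1 := h T hT.1 hT.2
      simp only [Polynomial.eval_mul, Polynomial.eval_pow, Polynomial.eval_C]
      rw [hev, hev, hF₁, hF₀]
      exact h1)
  rw [hid, hB] at hA
  omega

/-- the first moment of a node is moved by a twist -/
theorem node_unitH {N : ℕ} (hN : 0 < N) (h4 : 4 ∣ N) {S : Finset ℕ} {k : ℕ} (hS : LeafG S k)
    (hNS : ∀ p ∈ S, 2 * p ∣ N) {l : ℕ} (hl : l.Prime) (hb : 4 ^ (S.card + 3) ≤ l)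
    (hi : 1 ≤ xp l S) :
    ∃ t : ℤ, IsCoprime (tz N l (xp l S) t) (N : ℤ) ∧
      mm S k 1 (tz N l (xp l S) t) ≠ mm S k 1 1 := by
  by_contra hcon
  push Not at hcon
  have hl5 : 5 ≤ l := by
    have h3 : 4 ^ 3 ≤ 4 ^ (S.card + 3) := Nat.pow_le_pow_right (by norm_num) (by omega)
    omega
  obtain ⟨q, c, hLf⟩ := exists_lf hN hS hNS hl hl5 hi
  obtain ⟨t₀, ht₀⟩ := tz_unit hN hl hi
  obtain ⟨Z, hZc, hZ⟩ := points hl hLf.cop t₀
  have h1u : ∀ p ∈ S, IsCoprime (1 : ℤ) (p : ℤ) := fun p _ => isCoprime_one_left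
  have hU1 : UG S 1 := ⟨odd_one, h1u⟩
  obtain ⟨b₁, hb₁, hbv₁⟩ := gg_isRF hS.two_le hS.coprime (k := k) (i := ii S k 1) (q := q)
    (rr_pos S 1) (s := 1) h1u
  obtain ⟨b₀, hb₀, hbv₀⟩ := gg_isRF hS.two_le hS.coprime (k := k) (i := ii S k 0) (q := q)
    (rr_pos S 0) (s := 1) h1u
  obtain ⟨n1, -⟩ := trail hS hl hb hi (le_refl 1) hU1 hLf.mem
  obtain ⟨n0, -⟩ := trail hS hl hb hi (Nat.zero_le 1) hU1 hLf.mem
  obtain ⟨y₁, hy₁⟩ : ∃ y, y = (YY S k 1 1).trailingCoeff := ⟨_, rfl⟩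
  obtain ⟨y₀, hy₀⟩ : ∃ y, y = (YY S k 0 1).trailingCoeff := ⟨_, rfl⟩
  rw [← hy₁] at n1
  rw [← hy₀] at n0
  have m1 : (y₁ : ℂ) ≠ 0 := Complex.ofReal_ne_zero.2 n1
  have m0 : (y₀ : ℂ) ≠ 0 := Complex.ofReal_ne_zero.2 n0
  have hc₁ : (kap S k 1 (rr S 1) * (y₀ : ℂ)) ^ 2 ≠ 0 :=
    pow_ne_zero _ (mul_ne_zero (kap_ne hS 1 _) m0)
  have hc₀ : (kap S k 0 (rr S 0) * (y₁ : ℂ)) ^ 2 ≠ 0 :=
    pow_ne_zero _ (mul_ne_zero (kap_ne hS 0 _) m1)
  have hcard : 2 * (rr S 1 * (poles S k (ii S k 1) q 1).card +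
      rr S 0 * (poles S k (ii S k 0) q 1).card) < Z.card := by
    rw [card_poles hS.two_le hS.coprime h1u, card_poles hS.two_le hS.coprime h1u]
    have d1 := (deg_bound hLf.mem k (ii S k 1)).2
    have d0 := (deg_bound hLf.mem k (ii S k 0)).1
    have e1 : 4 ^ (S.card + 3) = 2 ^ S.card * 2 ^ S.card * 64 := by
      rw [pow_add, show (4 : ℕ) = 2 * 2 by norm_num, mul_pow]
      norm_num
    have e2 : 2 ^ (S.card + 1) = 2 ^ S.card * 2 := pow_succ _ _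
    have e3 : 2 ^ (S.card + 2) = 2 ^ S.card * 4 := by rw [pow_add]; norm_num
    have e4 : 1 ≤ 2 ^ S.card := Nat.one_le_two_pow
    have e5 : 2 ^ S.card * 64 ≤ 2 ^ S.card * 2 ^ S.card * 64 := by nlinarith
    rw [e2] at d0
    rw [e3] at d1
    omega
  obtain ⟨hW, hr, hv⟩ := hb₁.compare hb₀ (rr_pos S 1) (rr_pos S 0) hc₁ hc₀ hcard
    (fun z hz => by
      obtain ⟨t, ht, rfl⟩ := hZ z hz
      have hu := ht₀ t ht
      have hu' := uG_of h4 hNS hu
      have p1 := zz_notMem (k := k) (s := 1) (t := t) hS hLf (by simpa using hu'.2) (ii S k 1)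
      have p0 := zz_notMem (k := k) (s := 1) (t := t) hS hLf (by simpa using hu'.2) (ii S k 0)
      rw [mul_one] at p1 p0
      refine ⟨zz_ne _ _ _, p1, p0, ?_⟩
      have hmm := hcon t hu
      unfold mm at hmm
      have k0 : toC (YY S k 0 (tz N l (xp l S) t)) ≠ 0 := by
        intro h
        exact YYG_ne hS 0 hu' (toC_inj (by rw [h, map_zero]))
      have k1 : toC (YY S k 0 1) ≠ 0 := by
        intro h
        exact YYG_ne hS 0 hU1 (toC_inj (by rw [h, map_zero]))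
      rw [div_eq_div_iff k0 k1, ← map_mul, ← map_mul] at hmm
      have hYY := congrArg Polynomial.trailingCoeff (toC_inj hmm)
      rw [Polynomial.trailingCoeff_mul, Polynomial.trailingCoeff_mul, ← hy₁, ← hy₀] at hYY
      have hYC : (((YY S k 1 (tz N l (xp l S) t)).trailingCoeff : ℝ) : ℂ) * (y₀ : ℂ) =
          (y₁ : ℂ) * (((YY S k 0 (tz N l (xp l S) t)).trailingCoeff : ℝ) : ℂ) := by
        exact_mod_cast hYY
      obtain ⟨-, g1⟩ := trail hS hl hb hi (le_refl 1) hu' hLf.mem (k := k)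
      obtain ⟨-, g0⟩ := trail hS hl hb hi (Nat.zero_le 1) hu' hLf.mem (k := k)
      have w1 := gg_tz hS hLf (ii S k 1) (rr S 1) 1 t
      have w0 := gg_tz hS hLf (ii S k 0) (rr S 0) 1 t
      rw [mul_one, mul_one] at w1 w0
      rw [g1, g0, w1, w0] at hYC
      have h6 : (kap S k 1 (rr S 1) * (y₀ : ℂ)) * gg S k (ii S k 1) (rr S 1) q 1 (zz l c t) =
          (kap S k 0 (rr S 0) * (y₁ : ℂ)) * gg S k (ii S k 0) (rr S 0) q 1 (zz l c t) := by
        linear_combination hYC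
      rw [← mul_pow, ← mul_pow, h6])
  have hne1 : (poles S k (ii S k 1) q 1).Nonempty := by
    unfold poles
    exact (TT_nonempty hS hLf.mem 1).image _
  have hrr := hr hne1
  have h5 : 5 ≤ S.card := by
    unfold rr at hrr
    omega
  have hTT : ∀ T : Finset ℕ, T ⊆ S → (T ∈ TT S k (ii S k 1) q ↔ T ∈ TT S k (ii S k 0) q) := by
    intro T hT
    constructor
    · intro h
      have h1 : (ww S k 1 T)⁻¹ ∈ poles S k (ii S k 0) q 1 := by
        rw [← hW]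
        exact Finset.mem_image_of_mem (fun T => (ww S k 1 T)⁻¹) h
      obtain ⟨T', hT', he⟩ := Finset.mem_image.1 h1
      have h2 := ww_inj hS.two_le hS.coprime h1u (mem_TT.1 hT').1 hT (inv_injective he)
      rw [← h2]
      exact hT'
    · intro h
      have h1 : (ww S k 1 T)⁻¹ ∈ poles S k (ii S k 1) q 1 := by
        rw [hW]
        exact Finset.mem_image_of_mem (fun T => (ww S k 1 T)⁻¹) h
      obtain ⟨T', hT', he⟩ := Finset.mem_image.1 h1
      have h2 := ww_inj hS.two_le hS.coprime h1u (mem_TT.1 hT').1 hT (inv_injective he)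
      rw [← h2]
      exact hT'
  have h2I : (2 * Complex.I) ≠ 0 := mul_ne_zero two_ne_zero Complex.I_ne_zero
  refine no_prop hS hLf.mem h5
    (C₁ := (kap S k 1 (rr S 1) * (y₀ : ℂ)) ^ 2 * ((2 * Complex.I) ^ rr S 1) ^ 2)
    (C₀ := (kap S k 0 (rr S 0) * (y₁ : ℂ)) ^ 2 * ((2 * Complex.I) ^ rr S 0) ^ 2)
    (mul_ne_zero hc₀ (pow_ne_zero _ (pow_ne_zero _ h2I))) ?_
  intro T hT hqT
  by_cases hT1 : T ∈ TT S k (ii S k 1) q
  · have hT0 := (hTT T hT).1 hT1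
    have h1 := hv (ww S k 1 T)⁻¹ (Finset.mem_image_of_mem (fun T => (ww S k 1 T)⁻¹) hT1)
    rw [hbv₁ T hT1, hbv₀ T hT0] at h1
    have h2 : ((-1 : ℂ) ^ (S \ T).card) ^ 2 = 1 := by
      rw [← pow_mul, mul_comm, pow_mul]
      norm_num
    generalize (kap S k 1 (rr S 1) * (y₀ : ℂ)) ^ 2 = K₁ at h1 ⊢
    generalize (kap S k 0 (rr S 0) * (y₁ : ℂ)) ^ 2 = K₀ at h1 ⊢
    generalize (2 * Complex.I) ^ rr S 1 = R₁ at h1 ⊢
    generalize (2 * Complex.I) ^ rr S 0 = R₀ at h1 ⊢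
    generalize ((tc k (ii S k 1) (al S T) : ℚ) : ℂ) = u₁ at h1 ⊢
    generalize ((tc k (ii S k 0) (al S T) : ℚ) : ℂ) = u₀ at h1 ⊢
    generalize (-1 : ℂ) ^ (S \ T).card = e at h1 h2
    linear_combination h1 - (K₁ * R₁ ^ 2 * u₁ ^ 2 - K₀ * R₀ ^ 2 * u₀ ^ 2) * h2
  · have hT0 : T ∉ TT S k (ii S k 0) q := fun h => hT1 ((hTT T hT).2 h)
    have z1 : tc k (ii S k 1) (al S T) = 0 := by
      by_contra h
      exact hT1 (mem_TT.2 ⟨hT, hqT, h⟩)
    have z0 : tc k (ii S k 0) (al S T) = 0 := by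
      by_contra h
      exact hT0 (mem_TT.2 ⟨hT, hqT, h⟩)
    rw [z1, z0]
    simp

end Pool.Agent.GSH
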