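import Pool.Agent.GSH.T4
import Pool.Agent.GSH.U1
import Pool.Agent.GSH.K7
import Pool.Agent.GSP.C1

/-!
PROOFS (module U2). As in GSG/U2.lean (version with a bound B; adapt that proof as soon as it is on main). For
`leafyH` at `v`: if `|D'.S (τ v)| ≤ |D.S v|` use the private prime `l` of `v` from `matchingH` and `decode_nodeH`;
otherwise `|D.S v| ≤ |D'.S (τ v)|`: use the private prime of `τ v` (second part of `matchingH`), the same argument with
the roles of `D` and `D'` exchanged (`h.symm`), and `decode_nodeH` for `S := D'.S (τ v)`, `S' := D.S v`.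
-/

set_option autoImplicit false

open Finset

namespace Pool.Agent.GSH

open Pool.Agent.GSP Pool.Agent.GSG

variable {V V' : Type} [Fintype V] [DecidableEq V] [Fintype V'] [DecidableEq V'] {D : Dat V}
  {D' : Dat V'} {N : ℕ}

/-- a unit which moves only the given node -/
theorem exists_unitH (hD : OkH D) (hN : 0 < N) (hn : Nice D N) (v : V)
    (hv : (D.S v).Nonempty) : ∃ g : ℤ, IsCoprime g (N : ℤ) ∧
      (∀ u, u ≠ v → ∀ p ∈ D.S u, (2 * p : ℤ) ∣ g - 1) ∧
      mm (D.S v) (D.k v) 1 g ≠ mm (D.S v) (D.k v) 1 1 := by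
  obtain ⟨l, hP⟩ := hD.priv v hv
  obtain ⟨t, ht, hm⟩ := node_unitH hN hn.four (hD.leaf v) (hn.dvd v) hP.prime hP.big hP.pos
  refine ⟨tz N l (xp l (D.S v)) t, ht, fun u hu p hp => ?_, hm⟩
  have h1 : padicValNat l p ≤ xp l (D.S u) := Finset.le_sup (f := padicValNat l) hp
  have h2 : 5 ≤ l := le_trans (by norm_num) hP.le
  have h3 := tw_dvd hN hP.prime h2 ((hD.leaf u).pos p hp) (hn.dvd u p hp)
    (lt_of_le_of_lt h1 (hP.lt u hu))
  have h4 : tz N l (xp l (D.S v)) t - 1 = t * tw N l (xp l (D.S v)) := by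
    unfold tz
    ring
  rw [h4]
  exact Dvd.dvd.mul_left h3 t

private theorem U2_pair (h : CmpH N D D') {l : ℕ} {v : V} {v' : V'}
    (hP : PrH D l v) (hx : xp l (D'.S v') = xp l (D.S v))
    (hlt : ∀ x, x ≠ v' → xp l (D'.S x) < xp l (D.S v))
    (hc : (D'.S v').card ≤ (D.S v).card) :
    D'.S v' = D.S v ∧ D'.k v' = D.k v := by
  obtain ⟨a, b, ha, hb, hm⟩ := h.mass
  have h5 : 5 ≤ l := le_trans (by norm_num) hP.le
  refine decode_nodeH h.pos h.nice.four (h.ok.leaf v) (h.ok'.leaf v') (h.nice.dvd v)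
    (h.nice'.dvd v') hc hP.prime hP.big hP.pos hx fun t ht => ?_
  refine two_single (K := Polynomial ℝ) (f := fun v s => YY (D.S v) (D.k v) 0 s)
    (f' := fun v s => YY (D'.S v) (D'.k v) 0 s) (a := Polynomial.C a) (b := Polynomial.C b)
    (U := fun s => IsCoprime s (N : ℤ)) (Polynomial.C_ne_zero.2 ha) (Polynomial.C_ne_zero.2 hb)
    isCoprime_one_left
    (fun u s hs => YYG_ne (h.ok.leaf u) 0 (uG_of h.nice.four (h.nice.dvd u) hs))
    (fun u s hs => YYG_ne (h.ok'.leaf u) 0 (uG_of h.nice'.four (h.nice'.dvd u) hs))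
    (fun s hs => hm s hs) ht v v' (fun u hu => ?_) (fun u hu => ?_)
  · have h1 := YY_fix h.pos (h.ok.leaf u).pos (h.nice.dvd u) hP.prime h5 (hP.lt u hu)
      (D.k u) 0 t 1
    rwa [mul_one] at h1
  · have h1 := YY_fix h.pos (h.ok'.leaf u).pos (h.nice'.dvd u) hP.prime h5 (hlt u hu)
      (D'.k u) 0 t 1
    rwa [mul_one] at h1

private theorem U2_coeff (h : CmpH N D D') {s : ℤ} (hs : IsCoprime s (N : ℤ)) :
    ∑ u, (D.q u : RatFunc ℂ) * mm (D.S u) (D.k u) 1 s =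
      ∑ u, (D'.q u : RatFunc ℂ) * mm (D'.S u) (D'.k u) 1 s := by
  have h1 := h.zs s hs
  unfold Zs Dat.Z at h1
  have h2 := congrArg (PowerSeries.coeff 1) h1
  rwa [ZZ_one _ _ _ fun u => mmG_zero (h.ok.leaf u) (uG_of h.nice.four (h.nice.dvd u) hs),
    ZZ_one _ _ _ fun u => mmG_zero (h.ok'.leaf u) (uG_of h.nice'.four (h.nice'.dvd u) hs)] at h2

private theorem U2_single {V : Type} [Fintype V] [DecidableEq V] {D : Dat V}
    (hD : OkH D) {g : ℤ} (v : V) (hg : ∀ u, u ≠ v → ∀ p ∈ D.S u, (2 * p : ℤ) ∣ g - 1) :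
    ∑ u, (D.q u : RatFunc ℂ) * mm (D.S u) (D.k u) 1 g -
      ∑ u, (D.q u : RatFunc ℂ) * mm (D.S u) (D.k u) 1 1 =
      (D.q v : RatFunc ℂ) * (mm (D.S v) (D.k v) 1 g - mm (D.S v) (D.k v) 1 1) := by
  rw [← Finset.sum_sub_distrib, Finset.sum_eq_single v]
  · rw [mul_sub]
  · intro u _ hu
    rw [mmG_congr (hD.leaf u).pos (D.k u) 1 (hg u hu), sub_self]
  · intro h0
    exact absurd (Finset.mem_univ v) h0

/-- the nodes with leaves are determined -/
theorem leafyH (h : CmpH N D D') :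
    ∃ τ : {v // (D.S v).Nonempty} ≃ {v // (D'.S v).Nonempty}, ∀ v,
      D'.S (τ v) = D.S v ∧ D'.k (τ v) = D.k v ∧ D'.q (τ v) = D.q v := by
  obtain ⟨τ, hτ⟩ := matchingH h
  have hS : ∀ v : {v // (D.S v).Nonempty}, D'.S (τ v) = D.S v ∧ D'.k (τ v) = D.k v := by
    intro v
    obtain ⟨⟨l, hP, hx, hlt⟩, l', hP', hx', hlt'⟩ := hτ v
    rcases le_total (D'.S (τ v)).card (D.S v).card with hc | hc
    · exact U2_pair h hP hx hlt hc
    · have h1 := U2_pair h.symm hP' hx' hlt' hc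
      exact ⟨h1.1.symm, h1.2.symm⟩
  refine ⟨τ, fun v => ⟨(hS v).1, (hS v).2, ?_⟩⟩
  obtain ⟨g, hg, hgd, hgm⟩ := exists_unitH h.ok h.pos h.nice (v : V) v.2
  have hgd' : ∀ u, u ≠ (τ v : V') → ∀ p ∈ D'.S u, (2 * p : ℤ) ∣ g - 1 := by
    intro u hu p hp
    have hne : (D'.S u).Nonempty := ⟨p, hp⟩
    have h1 := hS (τ.symm ⟨u, hne⟩)
    rw [Equiv.apply_symm_apply] at h1
    have h2 : (τ.symm ⟨u, hne⟩ : V) ≠ v := by
      intro h3
      have h4 : τ.symm ⟨u, hne⟩ = v := Subtype.ext h3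
      have h5 := congrArg (fun x => (τ x : V')) h4
      simp only [Equiv.apply_symm_apply] at h5
      exact hu h5
    exact hgd _ h2 p (by rw [← h1.1]; exact hp)
  have h1 := U2_single h.ok (v : V) hgd
  have h2 := U2_single h.ok' (τ v : V') hgd'
  rw [(hS v).1, (hS v).2] at h2
  rw [U2_coeff h hg, U2_coeff h isCoprime_one_left, h2] at h1
  have h3 := mul_right_cancel₀ (sub_ne_zero.2 hgm) h1
  exact_mod_cast h3

end Pool.Agent.GSH
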